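import Pool.Agent.H17.CF.E.InN
import Pool.Agent.H7.IG.Tk4

/-!
# MP_9b819f_lc, part E, job E7: Cantor-Bernstein in `N`, cardinals of `N`

* `exists_inj`: from `Cvr N Y X` an injection `g : X → Y` in `N`: for `x ∈ X` let `g(x)` be the least ... by choice
  (`exists_choice`, `H7/IG/Tk1`) for the relation `pair y x ∈ f`, `y ∈ Y`; `g` is injective since `f` is single valued.
* `cb_N`: let `g : B → A` and `h : A → B` be injections in `N` (`exists_inj` twice; `h` from `Cvr N B A`, `g` from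
  `Cvr N A B`). Knaster-Tarski without recursion: with the power set `p` of `A` in `N` (`hN.exists_pow`) let
  `C = {a ∈ A : ∀ X ∈ p, (A ∖ g[B] ⊆ X ∧ g[h[X]] ⊆ X) → a ∈ X}` (in `N` by separation). Then `A ∖ g[B] ⊆ C`,
  `g[h[C]] ⊆ C`, and `C ⊆ (A ∖ g[B]) ∪ g[h[C]]` (the right hand side is an element of `p` with the closure
  property). `k(a) = h(a)` for `a ∈ C`, `k(a) = g⁻¹(a)` for `a ∈ A ∖ C` is a bijection `A → B`: injective: if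
  `h(a) = g⁻¹(a')` with `a ∈ C`, `a' ∉ C` then `a' = g(h(a)) ∈ C`; onto: `b ∈ B`: if `g(b) ∉ C` then `k(g(b)) = b`; if
  `g(b) ∈ C` then `g(b) ∈ g[h[C]]`, so `b ∈ h[C]`. Graph definable: `bijN_of_dfn`.
* `cvr_of_bij`: `BijN N f` with code `z` gives `Cvr` in both directions (use `z` and its converse, restricted to the
  product, or `cvr_of_dfn`).
* `exists_card_cvr`: every `A ∈ N` is, in `N`, in bijection with an ordinal (`exists_enum`), so `Cvr` in both directions.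
-/

set_option autoImplicit false
set_option linter.unusedVariables false
set_option linter.unusedSectionVars false
set_option linter.unusedSimpArgs false
set_option linter.unusedTactic false
set_option linter.unreachableTactic false

open Pool.Agent.H17.Omega Pool.Agent.H17.Omega.CTM Pool.Agent.H52.GC Pool.Agent.H7.IG

namespace Pool.Agent.H17.CF.PE

variable {N : Set ZFSet.{0}}

theorem exists_inj (hN : CTM N) {X Y : ZFSet.{0}} (hX : X ∈ N) (hY : Y ∈ N) (h : Cvr N Y X) :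
    ∃ g ∈ N, Fn g X Y ∧ ∀ x x' y : ZFSet.{0}, ZFSet.pair x y ∈ g → ZFSet.pair x' y ∈ g → x = x' := by
  obtain ⟨f, hf, h1, h2⟩ := h
  obtain ⟨g, hg, hfn, hg'⟩ := Pool.Agent.H7.IG.exists_choice hN
    (F := fun x y => ZFSet.pair y.1 x.1 ∈ (⟨f, hf⟩ : N).1) (by
    (repeat' first
      | exact DT.var _ | exact DT.last | exact DT.const _ | assumption
      | refine Dfn.pairMem ?_ ?_ ?_ | refine Dfn.isPair ?_ ?_ ?_ | refine Dfn.mem ?_ ?_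
      | refine Dfn.eqv ?_ ?_ | refine Dfn.eq ?_ ?_ | refine Dfn.subset ?_ ?_
      | refine Dfn.and ?_ ?_ | refine Dfn.or ?_ ?_ | refine Dfn.iff ?_ ?_ | refine Dfn.not ?_
      | refine Dfn.imp ?_ ?_ | refine Dfn.all ?_ | refine Dfn.ex ?_ | exact Dfn.false'
      | refine Dfn.ballZ ?_ ?_ | refine Dfn.bexZ ?_ ?_ | exact Dfn.const _)) hX hY
    (fun x hx => by
      obtain ⟨y, hy, hyx⟩ := h2 x.1 hx
      exact ⟨⟨y, hN.mem_of_mem hY hy⟩, hy, hyx⟩)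
  refine ⟨g, hg, hfn, fun x x' y hx hx' => ?_⟩
  have hxN := hN.of_pair_mem (hN.mem_of_mem hg hx)
  have hxN' := hN.of_pair_mem (hN.mem_of_mem hg hx')
  obtain ⟨a, ha, b, hb, e⟩ := hfn.sub _ hx
  rw [ZFSet.pair_inj] at e
  exact h1 y (e.2 ▸ hb) x x' (hg' ⟨x, hxN.1⟩ ⟨y, hxN.2⟩ hx) (hg' ⟨x', hxN'.1⟩ ⟨y, hxN'.2⟩ hx')

theorem equiv_of_rel {α β : Type 1} (K : α → β → Prop) (h1 : ∀ a, ∃! b, K a b) (h2 : ∀ b, ∃! a, K a b) :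
    ∃ f : α ≃ β, ∀ a b, f a = b ↔ K a b := by
  classical
  choose F hF using h1
  choose G hG using h2
  have e1 : ∀ a b, F a = b ↔ K a b := fun a b =>
    ⟨fun h => h ▸ (hF a).1, fun h => ((hF a).2 b h).symm⟩
  have e2 : ∀ a b, G b = a ↔ K a b := fun a b =>
    ⟨fun h => h ▸ (hG b).1, fun h => ((hG b).2 a h).symm⟩
  exact ⟨⟨F, G, fun a => (e2 a (F a)).2 (hF a).1, fun b => (e1 (G b) b).2 (hG b).1⟩, e1⟩

/-- Cantor-Bernstein in `N`. -/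
theorem cb_N (hN : CTM N) {A B : ZFSet.{0}} (hA : A ∈ N) (hB : B ∈ N) (h1 : Cvr N A B) (h2 : Cvr N B A) :
    ∃ f : El A ≃ El B, BijN N f := by
  classical
  obtain ⟨g, hg, hgF, hgI⟩ := exists_inj hN hB hA h1
  obtain ⟨h, hh, hhF, hhI⟩ := exists_inj hN hA hB h2
  obtain ⟨p, hp, hp'⟩ := hN.exists_pow hA
  obtain ⟨C, hC, hC0⟩ := hN.exists_sep (P := fun a => ∀ X : N, X.1 ∈ (⟨p, hp⟩ : N).1 →
      (∀ a' : N, a'.1 ∈ (⟨A, hA⟩ : N).1 → (∀ b : N, ¬ ZFSet.pair b.1 a'.1 ∈ (⟨g, hg⟩ : N).1) → a'.1 ∈ X.1) →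
      (∀ x b a' : N, x.1 ∈ X.1 → ZFSet.pair x.1 b.1 ∈ (⟨h, hh⟩ : N).1 →
        ZFSet.pair b.1 a'.1 ∈ (⟨g, hg⟩ : N).1 → a'.1 ∈ X.1) → a.1 ∈ X.1) (by
    (repeat' first
      | exact DT.var _ | exact DT.last | exact DT.const _ | assumption
      | refine Dfn.pairMem ?_ ?_ ?_ | refine Dfn.isPair ?_ ?_ ?_ | refine Dfn.mem ?_ ?_
      | refine Dfn.eqv ?_ ?_ | refine Dfn.eq ?_ ?_ | refine Dfn.subset ?_ ?_
      | refine Dfn.and ?_ ?_ | refine Dfn.or ?_ ?_ | refine Dfn.iff ?_ ?_ | refine Dfn.not ?_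
      | refine Dfn.imp ?_ ?_ | refine Dfn.all ?_ | refine Dfn.ex ?_ | exact Dfn.false'
      | refine Dfn.ballZ ?_ ?_ | refine Dfn.bexZ ?_ ?_ | exact Dfn.const _)) hA
  have hC' : ∀ a : N, a.1 ∈ C ↔ a.1 ∈ A ∧ ∀ X : N, X.1 ∈ p →
      (∀ a' : N, a'.1 ∈ A → (∀ b : N, ¬ ZFSet.pair b.1 a'.1 ∈ g) → a'.1 ∈ X.1) →
      (∀ x b a' : N, x.1 ∈ X.1 → ZFSet.pair x.1 b.1 ∈ h →
        ZFSet.pair b.1 a'.1 ∈ g → a'.1 ∈ X.1) → a.1 ∈ X.1 := fun a =>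
    ⟨fun h => ⟨((hC0 a.1).1 h).1, ((hC0 a.1).1 h).2.2⟩, fun h => (hC0 a.1).2 ⟨h.1, a.2, h.2⟩⟩
  have P1 : ∀ a : N, a.1 ∈ A → (∀ b : N, ¬ ZFSet.pair b.1 a.1 ∈ g) → a.1 ∈ C := fun a ha hb =>
    (hC' a).2 ⟨ha, fun X hX c1 c2 => c1 a ha hb⟩
  have P2 : ∀ x b a' : N, x.1 ∈ C → ZFSet.pair x.1 b.1 ∈ h → ZFSet.pair b.1 a'.1 ∈ g → a'.1 ∈ C :=
      fun x b a' hx hxb hba => by
    obtain ⟨u, hu, v, hv, e⟩ := hgF.sub _ hba
    rw [ZFSet.pair_inj] at e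
    exact (hC' a').2 ⟨e.2 ▸ hv, fun X hX c1 c2 => c2 x b a' (((hC' x).1 hx).2 X hX c1 c2) hxb hba⟩
  obtain ⟨D, hD, hD0⟩ := hN.exists_sep (P := fun a => (∀ b : N, ¬ ZFSet.pair b.1 a.1 ∈ (⟨g, hg⟩ : N).1) ∨
      ∃ x b : N, x.1 ∈ (⟨C, hC⟩ : N).1 ∧ ZFSet.pair x.1 b.1 ∈ (⟨h, hh⟩ : N).1 ∧
        ZFSet.pair b.1 a.1 ∈ (⟨g, hg⟩ : N).1) (by
    (repeat' first
      | exact DT.var _ | exact DT.last | exact DT.const _ | assumption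
      | refine Dfn.pairMem ?_ ?_ ?_ | refine Dfn.isPair ?_ ?_ ?_ | refine Dfn.mem ?_ ?_
      | refine Dfn.eqv ?_ ?_ | refine Dfn.eq ?_ ?_ | refine Dfn.subset ?_ ?_
      | refine Dfn.and ?_ ?_ | refine Dfn.or ?_ ?_ | refine Dfn.iff ?_ ?_ | refine Dfn.not ?_
      | refine Dfn.imp ?_ ?_ | refine Dfn.all ?_ | refine Dfn.ex ?_ | exact Dfn.false'
      | refine Dfn.ballZ ?_ ?_ | refine Dfn.bexZ ?_ ?_ | exact Dfn.const _)) hA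
  have hD' : ∀ a : N, a.1 ∈ D ↔ a.1 ∈ A ∧ ((∀ b : N, ¬ ZFSet.pair b.1 a.1 ∈ g) ∨
      ∃ x b : N, x.1 ∈ C ∧ ZFSet.pair x.1 b.1 ∈ h ∧ ZFSet.pair b.1 a.1 ∈ g) := fun a =>
    ⟨fun h => ⟨((hD0 a.1).1 h).1, ((hD0 a.1).1 h).2.2⟩, fun h => (hD0 a.1).2 ⟨h.1, a.2, h.2⟩⟩
  have hDp : D ∈ p := (hp' D).2 ⟨hD, fun z hz => ((hD' ⟨z, hN.mem_of_mem hD hz⟩).1 hz).1⟩
  have P3 : ∀ a : N, a.1 ∈ C → (∀ b : N, ¬ ZFSet.pair b.1 a.1 ∈ g) ∨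
      ∃ x b : N, x.1 ∈ C ∧ ZFSet.pair x.1 b.1 ∈ h ∧ ZFSet.pair b.1 a.1 ∈ g := fun a ha => by
    have := ((hC' a).1 ha).2 ⟨D, hD⟩ hDp (fun a' ha' hb => (hD' a').2 ⟨ha', Or.inl hb⟩)
      (fun x b a' hx hxb hba => by
        obtain ⟨u, hu, v, hv, e⟩ := hgF.sub _ hba
        rw [ZFSet.pair_inj] at e
        refine (hD' a').2 ⟨e.2 ▸ hv, Or.inr ⟨x, b, ?_, hxb, hba⟩⟩
        obtain ⟨hx1, hx2⟩ := (hD' x).1 hx
        rcases hx2 with hx2 | ⟨x', b', h1, h2, h3⟩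
        · exact P1 x hx1 hx2
        · exact P2 x' b' x h1 h2 h3)
    exact ((hD' a).1 this).2
  have inj1 : ∀ b a a' : ZFSet.{0}, ZFSet.pair b a ∈ g → ZFSet.pair b a' ∈ g → a = a' := fun b a a' ha ha' => by
    obtain ⟨u, hu, v, hv, e⟩ := hgF.sub _ ha
    obtain ⟨u', hu', v', hv', e'⟩ := hgF.sub _ ha'
    rw [ZFSet.pair_inj] at e e'
    exact hgF.uni b (e.1 ▸ hu) a (e.2 ▸ hv) a' (e'.2 ▸ hv') ha ha'
  have inj2 : ∀ b a a' : ZFSet.{0}, ZFSet.pair b a ∈ h → ZFSet.pair b a' ∈ h → a = a' := fun b a a' ha ha' => by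
    obtain ⟨u, hu, v, hv, e⟩ := hhF.sub _ ha
    obtain ⟨u', hu', v', hv', e'⟩ := hhF.sub _ ha'
    rw [ZFSet.pair_inj] at e e'
    exact hhF.uni b (e.1 ▸ hu) a (e.2 ▸ hv) a' (e'.2 ▸ hv') ha ha'
  have hCA : ∀ a, a ∈ C → a ∈ A := fun a ha => ((hC' ⟨a, hN.mem_of_mem hC ha⟩).1 ha).1
  have K1 : ∀ a : El A, ∃! b : El B, (a.1 ∈ C ∧ ZFSet.pair a.1 b.1 ∈ h) ∨ (¬ a.1 ∈ C ∧ ZFSet.pair b.1 a.1 ∈ g) := by
    intro a
    have haN := hN.mem_of_mem hA a.2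
    by_cases ha : a.1 ∈ C
    · obtain ⟨b, hb, hab⟩ := hhF.tot a.1 a.2
      refine ⟨⟨b, hb⟩, Or.inl ⟨ha, hab⟩, fun b' hb' => ?_⟩
      rcases hb' with hb' | hb'
      · exact Subtype.ext (inj2 _ _ _ hb'.2 hab)
      · exact absurd ha hb'.1
    · by_contra hcon
      have hall : ∀ b : N, ¬ ZFSet.pair b.1 a.1 ∈ g := by
        intro b hb
        apply hcon
        obtain ⟨u, hu, v, hv, e⟩ := hgF.sub _ hb
        rw [ZFSet.pair_inj] at e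
        refine ⟨⟨b.1, e.1 ▸ hu⟩, Or.inr ⟨ha, hb⟩, fun b' hb' => ?_⟩
        rcases hb' with hb' | hb'
        · exact absurd hb'.1 ha
        · exact Subtype.ext (hgI _ _ _ hb'.2 hb)
      exact ha (P1 ⟨a.1, haN⟩ a.2 hall)
  have K2 : ∀ b : El B, ∃! a : El A, (a.1 ∈ C ∧ ZFSet.pair a.1 b.1 ∈ h) ∨ (¬ a.1 ∈ C ∧ ZFSet.pair b.1 a.1 ∈ g) := by
    intro b
    have hbN := hN.mem_of_mem hB b.2
    obtain ⟨a, ha, hba⟩ := hgF.tot b.1 b.2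
    have haN := hN.mem_of_mem hA ha
    by_cases haC : a ∈ C
    · rcases P3 ⟨a, haN⟩ haC with h3 | ⟨x, b', hx, hxb, hba'⟩
      · exact absurd hba (h3 ⟨b.1, hbN⟩)
      · have e : b'.1 = b.1 := hgI _ _ _ hba' hba
        rw [e] at hxb
        refine ⟨⟨x.1, hCA _ hx⟩, Or.inl ⟨hx, hxb⟩, fun a' ha' => ?_⟩
        rcases ha' with ha' | ha'
        · exact Subtype.ext (hhI _ _ _ ha'.2 hxb)
        · exact absurd (inj1 _ _ _ ha'.2 hba ▸ haC : a'.1 ∈ C) ha'.1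
    · refine ⟨⟨a, ha⟩, Or.inr ⟨haC, hba⟩, fun a' ha' => ?_⟩
      rcases ha' with ha' | ha'
      · have haN' := hN.mem_of_mem hA a'.2
        exact absurd (P2 ⟨a'.1, haN'⟩ ⟨b.1, hbN⟩ ⟨a, haN⟩ ha'.1 ha'.2 hba) haC
      · exact Subtype.ext (inj1 _ _ _ ha'.2 hba)
  obtain ⟨k, hk⟩ := equiv_of_rel (α := El A) (β := El B)
    (fun a b => (a.1 ∈ C ∧ ZFSet.pair a.1 b.1 ∈ h) ∨ (¬ a.1 ∈ C ∧ ZFSet.pair b.1 a.1 ∈ g)) K1 K2
  refine ⟨k, bijN_of_dfn hN hA hB (F := fun a b => (a.1 ∈ (⟨C, hC⟩ : N).1 ∧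
      ZFSet.pair a.1 b.1 ∈ (⟨h, hh⟩ : N).1) ∨ (¬ a.1 ∈ (⟨C, hC⟩ : N).1 ∧
      ZFSet.pair b.1 a.1 ∈ (⟨g, hg⟩ : N).1)) ?_ k hk⟩
  (repeat' first
      | exact DT.var _ | exact DT.last | exact DT.const _ | assumption
      | refine Dfn.pairMem ?_ ?_ ?_ | refine Dfn.isPair ?_ ?_ ?_ | refine Dfn.mem ?_ ?_
      | refine Dfn.eqv ?_ ?_ | refine Dfn.eq ?_ ?_ | refine Dfn.subset ?_ ?_
      | refine Dfn.and ?_ ?_ | refine Dfn.or ?_ ?_ | refine Dfn.iff ?_ ?_ | refine Dfn.not ?_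
      | refine Dfn.imp ?_ ?_ | refine Dfn.all ?_ | refine Dfn.ex ?_ | exact Dfn.false'
      | refine Dfn.ballZ ?_ ?_ | refine Dfn.bexZ ?_ ?_ | exact Dfn.const _)

theorem cvr_of_bij (hN : CTM N) {A B : ZFSet.{0}} (hA : A ∈ N) (hB : B ∈ N) {f : El A ≃ El B} (hf : BijN N f) :
    Cvr N A B ∧ Cvr N B A := by
  obtain ⟨z, hz, hz'⟩ := hf
  constructor
  · refine cvr_of_dfn hN (F := fun a b => b.1 ∈ (⟨B, hB⟩ : N).1 ∧ ZFSet.pair a.1 b.1 ∈ (⟨z, hz⟩ : N).1) ?_ hA hB ?_ ?_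
    · (repeat' first
      | exact DT.var _ | exact DT.last | exact DT.const _ | assumption
      | refine Dfn.pairMem ?_ ?_ ?_ | refine Dfn.isPair ?_ ?_ ?_ | refine Dfn.mem ?_ ?_
      | refine Dfn.and ?_ ?_ | refine Dfn.or ?_ ?_ | refine Dfn.iff ?_ ?_ | refine Dfn.not ?_
      | refine Dfn.imp ?_ ?_ | refine Dfn.all ?_ | refine Dfn.ex ?_ | exact Dfn.false'
      | refine Dfn.ballZ ?_ ?_ | refine Dfn.bexZ ?_ ?_ | exact Dfn.const _)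
    · rintro a ha b b' ⟨hb, h1⟩ ⟨hb', h1'⟩
      have e1 := (hz' ⟨a.1, ha⟩ ⟨b.1, hb⟩).2 h1
      have e2 := (hz' ⟨a.1, ha⟩ ⟨b'.1, hb'⟩).2 h1'
      exact Subtype.ext (congrArg (fun t : El B => t.1) (e1.symm.trans e2))
    · intro b hb
      obtain ⟨a, ha⟩ := f.surjective ⟨b.1, hb⟩
      exact ⟨⟨a.1, hN.mem_of_mem hA a.2⟩, a.2, hb, (hz' a ⟨b.1, hb⟩).1 ha⟩
  · refine cvr_of_dfn hN (F := fun b a => a.1 ∈ (⟨A, hA⟩ : N).1 ∧ ZFSet.pair a.1 b.1 ∈ (⟨z, hz⟩ : N).1) ?_ hB hA ?_ ?_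
    · (repeat' first
      | exact DT.var _ | exact DT.last | exact DT.const _ | assumption
      | refine Dfn.pairMem ?_ ?_ ?_ | refine Dfn.isPair ?_ ?_ ?_ | refine Dfn.mem ?_ ?_
      | refine Dfn.and ?_ ?_ | refine Dfn.or ?_ ?_ | refine Dfn.iff ?_ ?_ | refine Dfn.not ?_
      | refine Dfn.imp ?_ ?_ | refine Dfn.all ?_ | refine Dfn.ex ?_ | exact Dfn.false'
      | refine Dfn.ballZ ?_ ?_ | refine Dfn.bexZ ?_ ?_ | exact Dfn.const _)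
    · rintro b hb a a' ⟨ha, h1⟩ ⟨ha', h1'⟩
      have e1 := (hz' ⟨a.1, ha⟩ ⟨b.1, hb⟩).2 h1
      have e2 := (hz' ⟨a'.1, ha'⟩ ⟨b.1, hb⟩).2 h1'
      exact Subtype.ext (congrArg (fun t : El A => t.1) (f.injective (e1.trans e2.symm)))
    · intro a ha
      refine ⟨⟨(f ⟨a.1, ha⟩).1, hN.mem_of_mem hB (f ⟨a.1, ha⟩).2⟩, (f ⟨a.1, ha⟩).2, ha, ?_⟩
      exact (hz' ⟨a.1, ha⟩ (f ⟨a.1, ha⟩)).1 rfl

theorem exists_card_cvr (hN : CTM N) {A : ZFSet.{0}} (hA : A ∈ N) :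
    ∃ μ : Ordinal.{0}, μ.toZFSet ∈ N ∧ Cvr N μ.toZFSet A ∧ Cvr N A μ.toZFSet := by
  obtain ⟨μ, hμ, f, hf, hfo, hfi⟩ := exists_enum hN hA
  refine ⟨μ, hμ, ⟨f, hf, fun y hy x x' hx hx' => ?_, fun x hx => hfo.2 x hx⟩, ?_⟩
  · obtain ⟨u, hu, v, hv, e⟩ := hfo.1.sub _ hx
    obtain ⟨u', hu', v', hv', e'⟩ := hfo.1.sub _ hx'
    rw [ZFSet.pair_inj] at e e'
    exact hfo.1.uni y hy x (e.2 ▸ hv) x' (e'.2 ▸ hv') hx hx'
  · refine cvr_of_dfn hN (F := fun a m => ZFSet.pair m.1 a.1 ∈ (⟨f, hf⟩ : N).1) ?_ hA hμ ?_ ?_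
    · (repeat' first
      | exact DT.var _ | exact DT.last | exact DT.const _ | assumption
      | refine Dfn.pairMem ?_ ?_ ?_ | refine Dfn.isPair ?_ ?_ ?_ | refine Dfn.mem ?_ ?_
      | refine Dfn.and ?_ ?_ | refine Dfn.or ?_ ?_ | refine Dfn.iff ?_ ?_ | refine Dfn.not ?_
      | refine Dfn.imp ?_ ?_ | refine Dfn.all ?_ | refine Dfn.ex ?_ | exact Dfn.false'
      | refine Dfn.ballZ ?_ ?_ | refine Dfn.bexZ ?_ ?_ | exact Dfn.const _)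
    · intro a ha m m' h1 h2
      exact Subtype.ext (hfi _ _ _ h1 h2)
    · intro m hm
      obtain ⟨a, ha, hma⟩ := hfo.1.tot m.1 hm
      exact ⟨⟨a, hN.mem_of_mem hA ha⟩, ha, hma⟩

end Pool.Agent.H17.CF.PE
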