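import Pool.Agent.H17.CF.E.InN

/-!
# MP_9b819f_lc, part E, job E3: isomorphism invariance

* `BijN.refl/symm/trans`: `bijN_of_dfn`; for `BijN N f` with code `z` the graph is `pair x y ∈ z`.
* `InN.tr`: let `X` be the trace of the definable `P` (`InN.dfn`) and `z` the code of `f`. Then `trR f X` is the trace of
  `fun b => ∃ a : Fin n → N, (∀ i, (a i).1 ∈ A ∧ pair (a i).1 (b i).1 ∈ z) ∧ P a` (`exFinC`, `allFiniteC`;
  `inN_of_dfn`).
* `sat_tr`: induction on `φ` (general `v ρ`). Terms: `t.val F' (f ∘ v) = f (t.val F v)`. `.all x`: `d` in `El B` is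
  `f d'`; `Function.update (fun x => f (v x)) x (f d) = fun y => f (Function.update v x d y)`. `.allR n i`: `X` in
  `Frm N B n` is `trR f Y` with `Y = trR f.symm X` in `Frm N A n`; `updR (fun n i => trR f (ρ n i)) n i (trR f Y) =
  fun m j => trR f (updR ρ n i Y m j)` (cases on `(m, j) = (n, i)`, `updR_same`, `updR_ne`).
* `Str.tr`, `Str.holds_tr` (every assignment on `B` is the image of an assignment on `A`), `Str.isom_tr`.
* `Isom.refl/symm/trans`, `Isom.holds`: if `f : El 𝔄.A ≃ El 𝔅.A` is the isomorphism then the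
  relations and functions of `𝔅` are the transported ones (`trR f (𝔄.R r) = 𝔅.R r`, ...), `sat_tr`.
* `Str.exists_sub`: an injection (of `N`) `g : A → B` gives the copy of `𝔄` on the range of `g` (a subset of `B`,
  an element of `N` by separation): `El 𝔄.A ≃ El (range)`, `Str.tr`.
-/

set_option autoImplicit false
set_option linter.unusedVariables false
set_option linter.unusedSectionVars false
set_option linter.unusedSimpArgs false

open Pool.Agent.H17.Omega Pool.Agent.H17.Omega.CTM Pool.Agent.H52.GC Pool.Agent.H7.IG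

namespace Pool.Agent.H17.CF.PE

variable {N : Set ZFSet.{0}} {V : Voc}

theorem BijN.refl (hN : CTM N) {A : ZFSet.{0}} (hA : A ∈ N) : BijN N (Equiv.refl (El A)) := by
  refine bijN_of_dfn hN hA hA (F := fun x y => x = y) (Dfn.eq (DT.var _) (DT.var _)) _ fun a b => ?_
  exact ⟨fun h => congrArg (el hN hA) h, fun h => Subtype.ext (show a.1 = b.1 from congrArg (fun z : N => z.1) h)⟩

theorem BijN.symm (hN : CTM N) {A B : ZFSet.{0}} (hA : A ∈ N) (hB : B ∈ N) {f : El A ≃ El B} (hf : BijN N f) :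
    BijN N f.symm := by
  obtain ⟨z, hz, hz'⟩ := hf
  refine bijN_of_dfn hN hB hA (F := fun x y => ZFSet.pair y.1 x.1 ∈ z)
    (Dfn.pairMem (DT.var _) (DT.var _) (DT.const ⟨z, hz⟩)) _ fun a b => ?_
  change _ ↔ ZFSet.pair b.1 a.1 ∈ z
  rw [← hz' b a, Equiv.symm_apply_eq]
  exact eq_comm

theorem BijN.trans (hN : CTM N) {A B C : ZFSet.{0}} (hA : A ∈ N) (hB : B ∈ N) (hC : C ∈ N) {f : El A ≃ El B}
    {g : El B ≃ El C} (hf : BijN N f) (hg : BijN N g) : BijN N (f.trans g) := by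
  obtain ⟨z, hz, hz'⟩ := hf
  obtain ⟨y, hy, hy'⟩ := hg
  refine bijN_of_dfn hN hA hC (F := fun x x' => ∃ m : N, m.1 ∈ B ∧ ZFSet.pair x.1 m.1 ∈ z ∧ ZFSet.pair m.1 x'.1 ∈ y)
    (Dfn.ex (P := fun v m => m.1 ∈ B ∧ ZFSet.pair (v 0).1 m.1 ∈ z ∧ ZFSet.pair m.1 (v 1).1 ∈ y)
      (Dfn.and (Dfn.mem (DT.var _) (DT.const ⟨B, hB⟩)) (Dfn.and (Dfn.pairMem (DT.var _) (DT.var _) (DT.const ⟨z, hz⟩))
        (Dfn.pairMem (DT.var _) (DT.var _) (DT.const ⟨y, hy⟩))))) _ fun a c => ?_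
  constructor
  · intro h
    exact ⟨el hN hB (f a), (f a).2, (hz' a (f a)).1 rfl, (hy' (f a) c).1 h⟩
  · rintro ⟨m, hm, h1, h2⟩
    have e1 := (hz' a ⟨m.1, hm⟩).2 h1
    have e2 := (hy' ⟨m.1, hm⟩ c).2 h2
    rw [Equiv.trans_apply, e1, e2]

theorem InN.tr (hN : CTM N) {A B : ZFSet.{0}} (hA : A ∈ N) (hB : B ∈ N) {f : El A ≃ El B} (hf : BijN N f)
    {n : ℕ} {X : Set (Fin n → El A)} (hX : InN N X) : InN N (trR f X) := by
  obtain ⟨z, hz, hz'⟩ := hf
  obtain ⟨P, hP, hP'⟩ := InN.dfn hN hA hX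
  have hd : hN.Dfn (fun b : Fin n → N => ∃ a : Fin n → N,
      (∀ i, (a i).1 ∈ A ∧ ZFSet.pair (a i).1 (b i).1 ∈ z) ∧ P a) := by
    have h1 : hN.Dfn (fun v : Fin (n + n) → N => (∀ i : Fin n, (v (Fin.natAdd n i)).1 ∈ A ∧
        ZFSet.pair (v (Fin.natAdd n i)).1 (v (Fin.castAdd n i)).1 ∈ z) ∧ P (fun i => v (Fin.natAdd n i))) :=
      Dfn.and (allFiniteC n fun i => Dfn.and (Dfn.mem (DT.var _) (DT.const ⟨A, hA⟩))
        (Dfn.pairMem (DT.var _) (DT.var _) (DT.const ⟨z, hz⟩))) (reidxC hP fun i => Fin.natAdd n i)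
    refine (exFinC n h1).congr fun v => ?_
    simp only [Fin.append_left, Fin.append_right]
  have h2 := inN_of_dfn hN hB hd
  have h3 : trR f X = {w : Fin n → El B | ∃ a : Fin n → N,
      (∀ i, (a i).1 ∈ A ∧ ZFSet.pair (a i).1 (el hN hB (w i)).1 ∈ z) ∧ P a} := by
    ext w
    constructor
    · intro h
      refine ⟨fun i => el hN hA (f.symm (w i)), fun i => ⟨(f.symm (w i)).2, (hz' _ _).1 (f.apply_symm_apply _)⟩,
        (hP' _).1 h⟩
    · rintro ⟨a, h4, h5⟩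
      change (fun i => f.symm (w i)) ∈ X
      have h6 : ∀ i, f.symm (w i) = ⟨(a i).1, (h4 i).1⟩ := by
        intro i
        rw [Equiv.symm_apply_eq]
        exact ((hz' ⟨(a i).1, (h4 i).1⟩ (w i)).2 (h4 i).2).symm
      rw [hP']
      have h7 : (fun i => el hN hA (f.symm (w i))) = a := by
        funext i
        rw [h6 i]
        rfl
      rw [h7]; exact h5
  rw [h3]; exact h2

theorem val_tr {A B : ZFSet.{0}} {f : El A ≃ El B} {F : (f : Fin V.nF) → (Fin (V.aF f) → El A) → El A}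
    (t : Tm V) (v : ℕ → El A) :
    t.val (fun g w => f (F g (fun i => f.symm (w i)))) (fun x => f (v x)) = f (t.val F v) := by
  induction t with
  | var x => rfl
  | app g ts ih =>
    simp only [Tm.val, ih, Equiv.symm_apply_apply]

theorem trR_symm {A B : ZFSet.{0}} (f : El A ≃ El B) {n : ℕ} (X : Set (Fin n → El B)) :
    trR f (trR f.symm X) = X := by
  ext w
  simp only [trR, Set.mem_ofPred_eq, Equiv.symm_symm, Equiv.apply_symm_apply]

theorem trR_updR {A B : ZFSet.{0}} (f : El A ≃ El B) (ρ : Asg (El A)) (n i : ℕ) (Y : Set (Fin n → El A)) :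
    updR (fun n i => trR f (ρ n i)) n i (trR f Y) = fun m j => trR f (updR ρ n i Y m j) := by
  funext m j
  by_cases h : (m, j) = (n, i)
  · rw [Prod.mk.injEq] at h
    obtain ⟨rfl, rfl⟩ := h
    rw [updR_same, updR_same]
  · rw [updR_ne _ _ h, updR_ne _ _ h]

theorem sat_tr (hN : CTM N) {A B : ZFSet.{0}} (hA : A ∈ N) (hB : B ∈ N) {f : El A ≃ El B} (hf : BijN N f)
    {R : (r : Fin V.nR) → Set (Fin (V.aR r) → El A)} {F : (f : Fin V.nF) → (Fin (V.aF f) → El A) → El A}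
    (φ : Fo V) : ∀ (v : ℕ → El A) (ρ : Asg (El A)),
    SatF (Frm N B) (fun r => trR f (R r)) (fun g w => f (F g (fun i => f.symm (w i)))) φ (fun x => f (v x))
      (fun n i => trR f (ρ n i)) ↔ SatF (Frm N A) R F φ v ρ := by
  induction φ with
  | bot => intro v ρ; exact Iff.rfl
  | eq s t => intro v ρ; simp only [SatF, val_tr, f.injective.eq_iff]
  | rel r ts => intro v ρ; simp only [SatF, val_tr, trR, Set.mem_ofPred_eq, Equiv.symm_apply_apply]
  | app n i ts => intro v ρ; simp only [SatF, val_tr, trR, Set.mem_ofPred_eq, Equiv.symm_apply_apply]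
  | imp φ ψ ih1 ih2 => intro v ρ; simp only [SatF, ih1, ih2]
  | all x φ ih =>
    intro v ρ
    simp only [SatF]
    rw [f.surjective.forall]
    refine forall_congr' fun d => ?_
    rw [← ih]
    have : Function.update (fun x => f (v x)) x (f d) = fun y => f (Function.update v x d y) := by
      funext y
      by_cases h : y = x
      · subst h; rw [Function.update_self, Function.update_self]
      · rw [Function.update_of_ne h, Function.update_of_ne h]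
    rw [this]
  | allR n i φ ih =>
    intro v ρ
    simp only [SatF]
    constructor
    · intro h X hX
      have h1 := h (trR f X) (InN.tr hN hA hB hf hX)
      rw [trR_updR, ih] at h1
      exact h1
    · intro h X hX
      have h1 := h (trR f.symm X) (InN.tr hN hB hA (BijN.symm hN hA hB hf) hX)
      rw [← ih, ← trR_updR, trR_symm] at h1
      exact h1

/-- The transported structure. -/
noncomputable def Str.tr (hN : CTM N) (𝔄 : Str N V) {B : ZFSet.{0}} (hB : B ∈ N) (f : El 𝔄.A ≃ El B)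
    (hf : BijN N f) : Str N V where
  A := B
  memA := hB
  ne := by obtain ⟨x, hx⟩ := 𝔄.ne; exact ⟨(f ⟨x, hx⟩).1, (f ⟨x, hx⟩).2⟩
  R := fun r => trR f (𝔄.R r)
  memR := fun r => InN.tr hN 𝔄.memA hB hf (𝔄.memR r)
  F := fun g w => f (𝔄.F g (fun i => f.symm (w i)))
  memF := fun g => by
    have h := InN.tr hN 𝔄.memA hB hf (𝔄.memF g)
    have e : trR f (grF (𝔄.F g)) = grF (fun w => f (𝔄.F g (fun i => f.symm (w i)))) := by
      ext w
      simp only [trR, grF, Set.mem_ofPred_eq, Equiv.symm_apply_eq]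
    rw [← e]; exact h

theorem Str.holds_tr (hN : CTM N) (𝔄 : Str N V) {B : ZFSet.{0}} (hB : B ∈ N) (f : El 𝔄.A ≃ El B)
    (hf : BijN N f) (φ : Fo V) : Holds (Str.tr hN 𝔄 hB f hf) φ ↔ Holds 𝔄 φ := by
  constructor
  · intro h v ρ hρ
    exact (sat_tr hN 𝔄.memA hB hf φ v ρ).1 (h (fun x => f (v x)) (fun n i => trR f (ρ n i))
      fun n i => InN.tr hN 𝔄.memA hB hf (hρ n i))
  · intro h v ρ hρ
    have h1 := h (fun x => f.symm (v x)) (fun n i => trR f.symm (ρ n i))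
      fun n i => InN.tr hN hB 𝔄.memA (BijN.symm hN 𝔄.memA hB hf) (hρ n i)
    rw [← sat_tr hN 𝔄.memA hB hf] at h1
    simp only [trR_symm, Equiv.apply_symm_apply] at h1
    exact h1

theorem Str.isom_tr (hN : CTM N) (𝔄 : Str N V) {B : ZFSet.{0}} (hB : B ∈ N) (f : El 𝔄.A ≃ El B)
    (hf : BijN N f) : Isom 𝔄 (Str.tr hN 𝔄 hB f hf) := by
  refine ⟨f, hf, fun r w => ?_, fun g w => ?_⟩
  · change _ ↔ (fun i => f.symm (f (w i))) ∈ 𝔄.R r
    simp only [Equiv.symm_apply_apply]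
  · change _ = f (𝔄.F g (fun i => f.symm (f (w i))))
    simp only [Equiv.symm_apply_apply]
    rfl

theorem Isom.refl (hN : CTM N) (𝔄 : Str N V) : Isom 𝔄 𝔄 :=
  ⟨Equiv.refl _, BijN.refl hN 𝔄.memA, fun r w => Iff.rfl, fun g w => rfl⟩

theorem Isom.symm (hN : CTM N) {𝔄 𝔅 : Str N V} (h : Isom 𝔄 𝔅) : Isom 𝔅 𝔄 := by
  obtain ⟨f, hf, h1, h2⟩ := h
  refine ⟨f.symm, BijN.symm hN 𝔄.memA 𝔅.memA hf, fun r w => ?_, fun g w => ?_⟩
  · rw [h1]
    simp only [Equiv.apply_symm_apply]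
  · rw [Equiv.symm_apply_eq, h2]
    simp only [Equiv.apply_symm_apply]

theorem Isom.trans (hN : CTM N) {𝔄 𝔅 ℭ : Str N V} (h : Isom 𝔄 𝔅) (h' : Isom 𝔅 ℭ) : Isom 𝔄 ℭ := by
  obtain ⟨f, hf, h1, h2⟩ := h
  obtain ⟨g, hg, h3, h4⟩ := h'
  refine ⟨f.trans g, BijN.trans hN 𝔄.memA 𝔅.memA ℭ.memA hf hg, fun r w => ?_, fun k w => ?_⟩
  · rw [h1, h3]; rfl
  · rw [Equiv.trans_apply, h2, h4]; rfl

theorem Isom.holds (hN : CTM N) {𝔄 𝔅 : Str N V} (h : Isom 𝔄 𝔅) (φ : Fo V) : Holds 𝔄 φ ↔ Holds 𝔅 φ := by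
  obtain ⟨f, hf, h1, h2⟩ := h
  rw [← Str.holds_tr hN 𝔄 𝔅.memA f hf φ]
  have hR : 𝔅.R = fun r => trR f (𝔄.R r) := by
    funext r
    ext w
    change _ ↔ (fun i => f.symm (w i)) ∈ 𝔄.R r
    rw [h1]
    simp only [Equiv.apply_symm_apply]
  have hF : 𝔅.F = fun g w => f (𝔄.F g (fun i => f.symm (w i))) := by
    funext g w
    rw [h2]
    simp only [Equiv.apply_symm_apply]
  have e : Holds 𝔅 φ ↔ ∀ (v : ℕ → El 𝔅.A) (ρ : Asg (El 𝔅.A)), (∀ n i, InN N (ρ n i)) →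
      SatF (Frm N 𝔅.A) (fun r => trR f (𝔄.R r)) (fun g w => f (𝔄.F g (fun i => f.symm (w i)))) φ v ρ := by
    rw [← hR, ← hF]; exact Iff.rfl
  rw [e]; exact Iff.rfl

/-- The copy of a structure on a subset of `B`, from an injection of `N`. -/
theorem Str.exists_sub (hN : CTM N) (𝔄 : Str N V) {B : ZFSet.{0}} (hB : B ∈ N) {g : ZFSet.{0}} (hg : g ∈ N)
    (hfn : Fn g 𝔄.A B) (hinj : ∀ x x' y : ZFSet.{0}, ZFSet.pair x y ∈ g → ZFSet.pair x' y ∈ g → x = x') :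
    ∃ 𝔅 : Str N V, 𝔅.A ⊆ B ∧ Isom 𝔄 𝔅 := by
  obtain ⟨r, hr, hr'⟩ := hN.exists_sep (P := fun y => ∃ x : N, x.1 ∈ 𝔄.A ∧ ZFSet.pair x.1 y.1 ∈ g)
    (Dfn.ex (P := fun v x => x.1 ∈ 𝔄.A ∧ ZFSet.pair x.1 (v 0).1 ∈ g)
      (Dfn.and (Dfn.mem (DT.var _) (DT.const ⟨𝔄.A, 𝔄.memA⟩)) (Dfn.pairMem (DT.var _) (DT.var _) (DT.const ⟨g, hg⟩)))) hB
  have hmem : ∀ x : El 𝔄.A, ap g x.1 ∈ r := fun x =>
    (hr' _).2 ⟨(hfn.ap_mem x.2).1, hN.mem_of_mem hB (hfn.ap_mem x.2).1, el hN 𝔄.memA x, x.2, (hfn.ap_mem x.2).2⟩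
  let f : El 𝔄.A ≃ El r := Equiv.ofBijective (fun x => ⟨ap g x.1, hmem x⟩) ⟨by
    intro x x' h
    have h1 : ap g x.1 = ap g x'.1 := congrArg (fun z : El r => z.1) h
    exact Subtype.ext (hinj _ _ _ (hfn.ap_mem x.2).2 (h1 ▸ (hfn.ap_mem x'.2).2)), by
    rintro ⟨y, hy⟩
    obtain ⟨_, _, x, hx, h⟩ := (hr' y).1 hy
    exact ⟨⟨x.1, hx⟩, Subtype.ext (hfn.ap_eq h)⟩⟩
  have hf : BijN N f := by
    refine ⟨g, hg, fun a b => ?_⟩
    constructor
    · rintro rfl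
      exact (hfn.ap_mem a.2).2
    · intro h
      exact Subtype.ext (hfn.ap_eq h)
  exact ⟨Str.tr hN 𝔄 hr f hf, fun x hx => ((hr' x).1 hx).1, Str.isom_tr hN 𝔄 hr f hf⟩

end Pool.Agent.H17.CF.PE
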