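import Pool.Agent.H17.CF.E.Chi
import Pool.Agent.H17.CF.E.Tr
import Pool.Agent.H17.CF.E.CB

/-!
# MP_9b819f_lc, part E, job E12: all models of a complete theory have the same size

Let `χ` be the formula of `exists_chi`. By `complete_or` all models of `T` satisfy `χ`, or no model does.

Case 1: no model satisfies `χ`. Let `μ` be the least ordinal such that `μ.toZFSet ∈ N` and `Cvr N μ.toZFSet 𝔅.A` for
some model `𝔅` (`exists_card_cvr`). Since `χ` fails in `𝔅` there is a model `𝔄` with `𝔄.A ⊆ 𝔅.A` and not `Cvr N 𝔄.A 𝔅.A`.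
Let `ν` be as in `exists_card_cvr` for `𝔄.A`. Then `μ ≤ ν`, so `Cvr N 𝔄.A ν`, `Cvr N ν μ` (`cvr_of_subset`,
`Ordinal.toZFSet` monotone), `Cvr N μ 𝔅.A`, so `Cvr N 𝔄.A 𝔅.A` (`Cvr.trans`): contradiction.

Case 2: all models satisfy `χ`. Claim: `Cvr N 𝔄.A 𝔅.A` for all models `𝔄 𝔅`. By `cvr_total` (Tk4) we may assume
`Cvr N 𝔅.A 𝔄.A`; then there is an injection `g : 𝔄.A → 𝔅.A` in `N` (`exists_inj`), so a copy `𝔄'` of `𝔄` with `𝔄'.A ⊆ 𝔅.A`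
(`Str.exists_sub`), a model of `T` (`Isom.holds`). By `χ` in `𝔅` we get `Cvr N 𝔄'.A 𝔅.A`, and `Cvr N 𝔄.A 𝔄'.A`
(`cvr_of_bij`). By the claim in both directions and `cb_N` there is a bijection `𝔄₀.A → 𝔅.A` in `N`; compose with the
bijection `κ → 𝔄₀.A` (`BijN.trans`).
-/

set_option autoImplicit false
set_option linter.unusedVariables false
set_option linter.unusedSectionVars false
set_option linter.unusedSimpArgs false

open Pool.Agent.H17.Omega Pool.Agent.H17.Omega.CTM Pool.Agent.H52.GC Pool.Agent.H7.IG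

namespace Pool.Agent.H17.CF.PE

variable {N : Set ZFSet.{0}}

theorem models_card (hN : CTM N) {κ : Ordinal.{0}} (hκN : κ.toZFSet ∈ N) {V : Voc} {T : List (Fo V)}
    (hT : ∀ φ ∈ T, Sentence φ) (hc : Complete N T) {𝔄₀ : Str N V} (h0 : Models 𝔄₀ T) (hcard : HasCard 𝔄₀ κ)
    (𝔅 : Str N V) (h : Models 𝔅 T) : HasCard 𝔅 κ := by
  obtain ⟨χ, hχ⟩ := exists_chi hN T hT
  rcases complete_or hN hc χ with h1 | h1
  · -- all models satisfy `χ`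
    have claim : ∀ 𝔄 𝔅 : Str N V, Models 𝔄 T → Models 𝔅 T → Cvr N 𝔄.A 𝔅.A := by
      intro 𝔄 𝔅 hA hB
      rcases cvr_total hN 𝔄.memA 𝔅.memA with h2 | h2
      · exact h2
      · obtain ⟨g, hg, hfn, hinj⟩ := exists_inj hN 𝔄.memA 𝔅.memA h2
        obtain ⟨𝔄', h3, h4⟩ := Str.exists_sub hN 𝔄 𝔅.memA hg hfn hinj
        have h5 : Models 𝔄' T := fun φ hφ => (Isom.holds hN h4 φ).1 (hA φ hφ)
        have h6 := (hχ 𝔅).1 (h1 𝔅 hB) 𝔄' h3 h5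
        obtain ⟨f, hf, _⟩ := h4
        exact Cvr.trans hN 𝔄.memA 𝔄'.memA 𝔅.memA (cvr_of_bij hN 𝔄.memA 𝔄'.memA hf).1 h6
    obtain ⟨f, hf⟩ := hcard
    obtain ⟨g, hg⟩ := cb_N hN 𝔄₀.memA 𝔅.memA (claim 𝔄₀ 𝔅 h0 h) (claim 𝔅 𝔄₀ h h0)
    exact ⟨f.trans g, BijN.trans hN hκN 𝔄₀.memA 𝔅.memA hf hg⟩
  · -- no model satisfies `χ`
    exfalso
    classical
    have hex : ∃ μ : Ordinal.{0}, μ.toZFSet ∈ N ∧ ∃ 𝔅 : Str N V, Models 𝔅 T ∧ Cvr N μ.toZFSet 𝔅.A := by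
      obtain ⟨μ, h2, h3, _⟩ := exists_card_cvr hN 𝔅.memA
      exact ⟨μ, h2, 𝔅, h, h3⟩
    obtain ⟨μ, ⟨h2, 𝔅', h3, h4⟩, hmin⟩ := (wellFounded_lt (α := Ordinal.{0})).has_min
      {μ : Ordinal.{0} | μ.toZFSet ∈ N ∧ ∃ 𝔅 : Str N V, Models 𝔅 T ∧ Cvr N μ.toZFSet 𝔅.A} hex
    apply h1 𝔅' h3
    rw [hχ]
    intro 𝔄 h5 h6
    obtain ⟨ν, h7, h8, h9⟩ := exists_card_cvr hN 𝔄.memA
    have h10 : μ ≤ ν := not_lt.1 (hmin ν ⟨h7, 𝔄, h6, h8⟩)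
    have h11 : Cvr N ν.toZFSet μ.toZFSet := cvr_of_subset hN h7 (Ordinal.toZFSet_subset_toZFSet_iff.2 h10)
    exact Cvr.trans hN 𝔄.memA h7 𝔅'.memA h9 (Cvr.trans hN h7 h2 𝔅'.memA h11 h4)

end Pool.Agent.H17.CF.PE
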