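import Pool.Agent.H17.CF.E.InN

/-!
# MP_9b819f_lc, part E, job E5: coded structures

* `exists_goodF`: the formula `fand (fex 0 (.app 1 o (fun _ => .var 0))) (fbig fun f => fallL (List.range (V.aF f))
  (.imp (fbig fun i : Fin (V.aF f) => .app 1 o (fun _ => .var i)) (fex a (fand (.app 1 o (fun _ => .var a)) (.all (a + 1)
  (.imp (.app 1 o (fun _ => .var (a + 1))) (fiff (.app (a + 1) (iF V o f) (Fin.snoc (fun i => .var i)
  (.var (a + 1)))) (.eq (.var (a + 1)) (.var a)))))))))`, `a = V.aF f`. Meaning: `sat_allL`; for `w : Fin a → El A` take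
  `v' x = if h : x < a then w ⟨x, h⟩ else v x`.
* `Good.exists_str`: `ρ 1 o` has a code `z ∈ N`; `P = {x ∈ A : pair x ∅ ∈ z}` is in `N` (`hN.exists_sep`,
  `tup (fun _ : Fin 1 => x) = pair x ∅` by `tup_succ`, `tup_zero`). `R r = {w : inc h ∘ w ∈ ρ _ (iR V o r)}` has the same
  code as `ρ _ (iR V o r)`; `F f w` is the unique `y` of `Good.fn`; `grF (F f)` is the trace of `ρ _ (iF V o f)`:
  every `w : Fin (a + 1) → El P` is `Fin.snoc (fun i => w i.castSucc) (w (Fin.last a))`.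
* `Cds.good`: the converse, `y = inc h (𝔄.F f w0)`.
* `exists_code`: choose codes `z_R r`, `z_F f ∈ N` of `𝔄.R r`, `grF (𝔄.F f)` and codes `Z n i ∈ N` of `ρ n i`; define
  (not dependent on types!) `Z' n i : ZFSet` := if `(n, i) = (1, o)` then `ZFSet.prod 𝔄.A {∅}`, else if `∃ r, n = V.aR r ∧
  i = iR V o r` then the code of `𝔄.R r` (`r` is determined by `i`), else if `∃ f, n = V.aF f + 1 ∧ i = iF V o f` then the
  code of `grF (𝔄.F f)`, else `Z n i`; `ρ' n i = {w | tup (fun j => (w j).1) ∈ Z' n i}`. The indices `o`, `iR V o r`,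
  `iF V o f` are different (`omega`).
-/

set_option autoImplicit false
set_option linter.unusedVariables false
set_option linter.unusedSectionVars false
set_option linter.unusedSimpArgs false

open Pool.Agent.H17.Omega Pool.Agent.H17.Omega.CTM Pool.Agent.H52.GC Pool.Agent.H7.IG

namespace Pool.Agent.H17.CF.PE

variable {N : Set ZFSet.{0}} {V : Voc}

/-- The formula for one function symbol. -/
def codeFn (V V' : Voc) (o : ℕ) (f : Fin V.nF) : Fo V' :=
  fallL (List.range (V.aF f))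
    (.imp (fbig fun i : Fin (V.aF f) => .app 1 o (fun _ => .var i))
      (fex (V.aF f) (fand (.app 1 o (fun _ => .var (V.aF f))) (.all (V.aF f + 1)
        (.imp (.app 1 o (fun _ => .var (V.aF f + 1)))
          (fiff (.app (V.aF f + 1) (iF V o f) (Fin.snoc (α := fun _ => Tm V') (fun i : Fin (V.aF f) => .var i)
            (.var (V.aF f + 1)))) (.eq (.var (V.aF f + 1)) (.var (V.aF f)))))))))

theorem code_snoc {V' : Voc} {D : Type 1} {F' : (f : Fin V'.nF) → (Fin (V'.aF f) → D) → D} {v : ℕ → D} {a k : ℕ} :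
    (fun j => ((Fin.snoc (α := fun _ => Tm V') (fun i : Fin a => .var i) (.var k) : Fin (a + 1) → Tm V') j).val F' v) =
      (Fin.snoc (α := fun _ => D) (fun i : Fin a => v i) (v k) : Fin (a + 1) → D) := by
  funext j
  refine Fin.lastCases ?_ (fun j => ?_) j
  · rw [Fin.snoc_last, Fin.snoc_last, val_var]
  · rw [Fin.snoc_castSucc, Fin.snoc_castSucc, val_var]

theorem code_fn {V V' : Voc} {o : ℕ} {f : Fin V.nF} {N : Set ZFSet.{0}} {A : ZFSet.{0}}
    {R' : (r : Fin V'.nR) → Set (Fin (V'.aR r) → El A)} {F' : (f : Fin V'.nF) → (Fin (V'.aF f) → El A) → El A}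
    {v : ℕ → El A} {ρ : Asg (El A)} : SatF (Frm N A) R' F' (codeFn V V' o f) v ρ ↔
      ∀ w : Fin (V.aF f) → El A, (∀ i, (fun _ => w i) ∈ ρ 1 o) →
      ∃ y : El A, (fun _ => y) ∈ ρ 1 o ∧ ∀ y' : El A, (fun _ => y') ∈ ρ 1 o →
      ((Fin.snoc (α := fun _ => El A) w y' : Fin (V.aF f + 1) → El A) ∈ ρ (V.aF f + 1) (iF V o f) ↔ y' = y) := by
  have e1 : ∀ (v' : ℕ → El A) (y : El A) (i : Fin (V.aF f)), Function.update v' (V.aF f) y i = v' i := fun v' y i =>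
    Function.update_of_ne (by have := i.2; omega) _ _
  have e2 : ∀ (v' : ℕ → El A) (y y' : El A) (i : Fin (V.aF f)),
      Function.update (Function.update v' (V.aF f) y) (V.aF f + 1) y' i = v' i := fun v' y y' i => by
    rw [Function.update_of_ne (by have := i.2; omega), e1]
  have e3 : ∀ (v' : ℕ → El A) (y y' : El A),
      Function.update (Function.update v' (V.aF f) y) (V.aF f + 1) y' (V.aF f) = y := fun v' y y' => by
    rw [Function.update_of_ne (by omega), Function.update_self]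
  unfold codeFn
  rw [sat_allL]
  simp only [sat_imp, sat_big, sat_app, val_var, sat_ex, sat_and, sat_all, sat_iff, sat_eq, code_snoc,
    Function.update_self, e2, e3]
  constructor
  · intro h w hw
    have h1 := h (fun x => if hx : x < V.aF f then w ⟨x, hx⟩ else v x) (fun x hx => by
      rw [List.mem_range] at hx
      exact dif_neg hx)
    have e4 : ∀ i : Fin (V.aF f), (if hx : (i : ℕ) < V.aF f then w ⟨(i : ℕ), hx⟩ else v i) = w i := fun i => by
      rw [dif_pos i.2]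
    simp only [e4] at h1
    exact h1 hw
  · intro h v' hv' hw
    exact h (fun i => v' i) hw

/-- The variables code a structure. -/
theorem exists_goodF (V V' : Voc) (o : ℕ) : ∃ φ : Fo V', ∀ {N : Set ZFSet.{0}} {A : ZFSet.{0}}
    (R' : (r : Fin V'.nR) → Set (Fin (V'.aR r) → El A)) (F' : (f : Fin V'.nF) → (Fin (V'.aF f) → El A) → El A)
    (v : ℕ → El A) (ρ : Asg (El A)), SatF (Frm N A) R' F' φ v ρ ↔ Good V o ρ := by
  refine ⟨fand (fex 0 (.app 1 o (fun _ => .var 0))) (fbig fun f : Fin V.nF => codeFn V V' o f), ?_⟩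
  intro N A R' F' v ρ
  rw [sat_and, sat_ex, sat_big]
  simp only [sat_app, val_var, Function.update_self, code_fn]
  exact ⟨fun h => ⟨h.1, h.2⟩, fun h => ⟨h.1, h.2⟩⟩

theorem code_snoc_inc {P A : ZFSet.{0}} (h : P ⊆ A) {a : ℕ} (w : Fin (a + 1) → El P) :
    (Fin.snoc (α := fun _ => El A) (fun i : Fin a => inc h (w i.castSucc)) (inc h (w (Fin.last a))) :
      Fin (a + 1) → El A) = fun i => inc h (w i) := by
  funext j
  refine Fin.lastCases ?_ (fun j => ?_) j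
  · rw [Fin.snoc_last]
  · rw [Fin.snoc_castSucc]

theorem code_inc_inj {P A : ZFSet.{0}} (h : P ⊆ A) {x y : El P} : inc h x = inc h y ↔ x = y := by
  constructor
  · intro e
    have e' := congrArg (fun t : El A => t.1) e
    exact Subtype.ext e'
  · rintro rfl; rfl

theorem Good.exists_str (hN : CTM N) {A : ZFSet.{0}} (hA : A ∈ N) {o : ℕ} {ρ : Asg (El A)} (hρ : AN N ρ)
    (h : Good V o ρ) : ∃ (𝔄 : Str N V) (h : 𝔄.A ⊆ A), Cds o 𝔄 h ρ := by
  classical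
  obtain ⟨z, hz, hz'⟩ := hρ 1 o
  obtain ⟨P, hP, hP'⟩ := hN.exists_sep (P := fun x => tup (fun _ : Fin 1 => x.1) ∈ z)
    (Df.mem (pd_tup hN fun i => PD.var 0) (PD.const hz)) hA
  have hPA : P ⊆ A := fun x hx => ((hP' x).1 hx).1
  have hPi : ∀ x : El A, (fun _ => x) ∈ ρ 1 o ↔ x.1 ∈ P := by
    intro x
    rw [hz', hP']
    exact ⟨fun h => ⟨x.2, hN.mem_of_mem hA x.2, h⟩, fun h => h.2.2⟩
  have hex : ∀ (f : Fin V.nF) (w : Fin (V.aF f) → El P), ∃ y : El P, ∀ y' : El P,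
      ((Fin.snoc (α := fun _ => El A) (fun i => inc hPA (w i)) (inc hPA y') : Fin (V.aF f + 1) → El A) ∈
        ρ (V.aF f + 1) (iF V o f) ↔ y' = y) := by
    intro f w
    obtain ⟨y, hy, hy'⟩ := h.fn f (fun i => inc hPA (w i)) (fun i => (hPi _).2 (w i).2)
    refine ⟨⟨y.1, (hPi y).1 hy⟩, fun y' => ?_⟩
    rw [hy' (inc hPA y') ((hPi _).2 y'.2)]
    constructor
    · intro e
      have e' := congrArg (fun t : El A => t.1) e
      exact Subtype.ext e'
    · rintro rfl; rfl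
  choose G hG using hex
  have hgr : ∀ (f : Fin V.nF) (w : Fin (V.aF f + 1) → El P),
      (fun i => inc hPA (w i)) ∈ ρ (V.aF f + 1) (iF V o f) ↔ w ∈ grF (G f) := by
    intro f w
    rw [← code_snoc_inc hPA w]
    exact hG f _ _
  obtain ⟨x0, hx0⟩ := h.ne
  refine ⟨{ A := P
            memA := hP
            ne := ⟨x0.1, (hPi x0).1 hx0⟩
            R := fun r => {w | (fun i => inc hPA (w i)) ∈ ρ (V.aR r) (iR V o r)}
            memR := fun r => ?_
            F := G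
            memF := fun f => ?_ }, hPA, ⟨hPi, fun r w => Iff.rfl, hgr⟩⟩
  · obtain ⟨y, hy, hy'⟩ := hρ (V.aR r) (iR V o r)
    exact ⟨y, hy, fun w => hy' _⟩
  · obtain ⟨y, hy, hy'⟩ := hρ (V.aF f + 1) (iF V o f)
    exact ⟨y, hy, fun w => (hgr f w).symm.trans (hy' _)⟩

theorem Cds.good {o : ℕ} {𝔄 : Str N V} {A : ZFSet.{0}} {h : 𝔄.A ⊆ A} {ρ : Asg (El A)} (hc : Cds o 𝔄 h ρ) :
    Good V o ρ := by
  obtain ⟨x, hx⟩ := 𝔄.ne
  refine ⟨⟨⟨x, h hx⟩, (hc.P _).2 hx⟩, ?_⟩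
  intro f w hw
  have hw' : ∀ i, (w i).1 ∈ 𝔄.A := fun i => (hc.P _).1 (hw i)
  refine ⟨inc h (𝔄.F f (fun i => ⟨(w i).1, hw' i⟩)), (hc.P _).2 (𝔄.F f _).2, ?_⟩
  intro y' hy'
  have hy : y'.1 ∈ 𝔄.A := (hc.P _).1 hy'
  have e1 : (Fin.snoc (α := fun _ => El A) w y' : Fin (V.aF f + 1) → El A) = fun i => inc h
      ((Fin.snoc (α := fun _ => El 𝔄.A) (fun i => ⟨(w i).1, hw' i⟩) ⟨y'.1, hy⟩ : Fin (V.aF f + 1) → El 𝔄.A) i) := by
    funext j
    refine Fin.lastCases ?_ (fun j => ?_) j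
    · rw [Fin.snoc_last, Fin.snoc_last]; rfl
    · rw [Fin.snoc_castSucc, Fin.snoc_castSucc]; rfl
  rw [e1, hc.F]
  constructor
  · intro h1
    have h2 : (⟨y'.1, hy⟩ : El 𝔄.A) = 𝔄.F f (fun i => ⟨(w i).1, hw' i⟩) := by
      have h3 : (Fin.snoc (α := fun _ => El 𝔄.A) (fun i => ⟨(w i).1, hw' i⟩) ⟨y'.1, hy⟩ :
        Fin (V.aF f + 1) → El 𝔄.A) (Fin.last _) = 𝔄.F f (fun i : Fin (V.aF f) => (Fin.snoc (α := fun _ => El 𝔄.A)
          (fun i => ⟨(w i).1, hw' i⟩) ⟨y'.1, hy⟩ : Fin (V.aF f + 1) → El 𝔄.A) i.castSucc) := h1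
      rw [Fin.snoc_last] at h3
      simp only [Fin.snoc_castSucc] at h3
      exact h3
    rw [← h2]
    exact Subtype.ext rfl
  · intro h1
    show (Fin.snoc (α := fun _ => El 𝔄.A) (fun i => ⟨(w i).1, hw' i⟩) ⟨y'.1, hy⟩ :
        Fin (V.aF f + 1) → El 𝔄.A) (Fin.last _) = 𝔄.F f (fun i : Fin (V.aF f) => (Fin.snoc (α := fun _ => El 𝔄.A)
          (fun i => ⟨(w i).1, hw' i⟩) ⟨y'.1, hy⟩ : Fin (V.aF f + 1) → El 𝔄.A) i.castSucc)
    rw [Fin.snoc_last]
    simp only [Fin.snoc_castSucc]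
    have e' := congrArg (fun t : El A => t.1) h1
    exact Subtype.ext e'

open Classical in
/-- The codes. -/
noncomputable def codeZ (V : Voc) (o : ℕ) (A : ZFSet.{0}) (zR : Fin V.nR → ZFSet.{0}) (zF : Fin V.nF → ZFSet.{0})
    (Z : ℕ → ℕ → ZFSet.{0}) (n i : ℕ) : ZFSet.{0} :=
  if n = 1 ∧ i = o then ZFSet.prod A {∅} else
    if h : ∃ r : Fin V.nR, n = V.aR r ∧ i = iR V o r then zR h.choose else
      if h : ∃ f : Fin V.nF, n = V.aF f + 1 ∧ i = iF V o f then zF h.choose else Z n i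

theorem codeZ_P {V : Voc} {o : ℕ} {A : ZFSet.{0}} {zR : Fin V.nR → ZFSet.{0}} {zF : Fin V.nF → ZFSet.{0}}
    {Z : ℕ → ℕ → ZFSet.{0}} : codeZ V o A zR zF Z 1 o = ZFSet.prod A {∅} := by
  rw [codeZ, if_pos ⟨rfl, rfl⟩]

theorem codeZ_R {V : Voc} {o : ℕ} {A : ZFSet.{0}} {zR : Fin V.nR → ZFSet.{0}} {zF : Fin V.nF → ZFSet.{0}}
    {Z : ℕ → ℕ → ZFSet.{0}} (r : Fin V.nR) : codeZ V o A zR zF Z (V.aR r) (iR V o r) = zR r := by
  have h : ∃ r' : Fin V.nR, V.aR r = V.aR r' ∧ iR V o r = iR V o r' := ⟨r, rfl, rfl⟩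
  rw [codeZ, if_neg (by unfold iR; omega), dif_pos h]
  have key : ∀ r' : Fin V.nR, iR V o r = iR V o r' → r' = r := by
    intro r' h1
    unfold iR at h1
    exact Fin.ext (by omega)
  rw [key _ h.choose_spec.2]

theorem codeZ_F {V : Voc} {o : ℕ} {A : ZFSet.{0}} {zR : Fin V.nR → ZFSet.{0}} {zF : Fin V.nF → ZFSet.{0}}
    {Z : ℕ → ℕ → ZFSet.{0}} (f : Fin V.nF) : codeZ V o A zR zF Z (V.aF f + 1) (iF V o f) = zF f := by
  have h : ∃ f' : Fin V.nF, V.aF f + 1 = V.aF f' + 1 ∧ iF V o f = iF V o f' := ⟨f, rfl, rfl⟩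
  have h' : ¬ ∃ r : Fin V.nR, V.aF f + 1 = V.aR r ∧ iF V o f = iR V o r := by
    rintro ⟨r, _, h1⟩
    have := r.2
    unfold iF iR at h1
    omega
  rw [codeZ, if_neg (by unfold iF; omega), dif_neg h', dif_pos h]
  have key : ∀ f' : Fin V.nF, iF V o f = iF V o f' → f' = f := by
    intro f' h1
    unfold iF at h1
    exact Fin.ext (by omega)
  rw [key _ h.choose_spec.2]

theorem codeZ_N {V : Voc} {o : ℕ} {A : ZFSet.{0}} {zR : Fin V.nR → ZFSet.{0}} {zF : Fin V.nF → ZFSet.{0}}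
    {Z : ℕ → ℕ → ZFSet.{0}} {n i : ℕ} (h : (n, i) ∉ blk V o) : codeZ V o A zR zF Z n i = Z n i := by
  rw [mem_blk, not_or, not_or] at h
  rw [codeZ, if_neg h.1, dif_neg h.2.1, dif_neg h.2.2]

theorem exists_code (hN : CTM N) (𝔄 : Str N V) {A : ZFSet.{0}} (h : 𝔄.A ⊆ A) {ρ : Asg (El A)} (hρ : AN N ρ)
    (o : ℕ) : ∃ ρ' : Asg (El A), AN N ρ' ∧ (∀ n i, (n, i) ∉ blk V o → ρ' n i = ρ n i) ∧ Cds o 𝔄 h ρ' := by
  classical
  choose zR hzR hzR' using 𝔄.memR
  choose zF hzF hzF' using 𝔄.memF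
  choose Z hZ hZ' using hρ
  refine ⟨fun n i => {w | tup (fun j => (w j).1) ∈ codeZ V o 𝔄.A zR zF Z n i}, ?_, ?_, ?_⟩
  · intro n i
    refine ⟨codeZ V o 𝔄.A zR zF Z n i, ?_, fun w => Iff.rfl⟩
    rw [codeZ]
    split_ifs with h1 h2 h3
    · exact hN.prod_mem 𝔄.memA (hN.singleton_mem hN.empty_mem)
    · exact hzR _
    · exact hzF _
    · exact hZ n i
  · intro n i hni
    ext w
    rw [hZ' n i w]
    show tup (fun j => (w j).1) ∈ codeZ V o 𝔄.A zR zF Z n i ↔ _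
    rw [codeZ_N hni]
  · refine ⟨fun x => ?_, fun r w => ?_, fun f w => ?_⟩
    · show tup (fun _ : Fin 1 => x.1) ∈ codeZ V o 𝔄.A zR zF Z 1 o ↔ _
      rw [codeZ_P, tup_succ, tup_zero, ZFSet.pair_mem_prod, ZFSet.mem_singleton]
      exact ⟨fun h => h.1, fun h => ⟨h, rfl⟩⟩
    · show tup (fun j => (w j).1) ∈ codeZ V o 𝔄.A zR zF Z (V.aR r) (iR V o r) ↔ _
      rw [codeZ_R, hzR']
    · show tup (fun j => (w j).1) ∈ codeZ V o 𝔄.A zR zF Z (V.aF f + 1) (iF V o f) ↔ _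
      rw [codeZ_F, hzF']

end Pool.Agent.H17.CF.PE
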