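import Pool.Agent.H17.CF.E.InN

/-!
# MP_9b819f_lc, part E, job E6: 'the set `P` covers the universe'

The formula: `fexR 2 (o + 1) (fand (.all 0 (.all 1 (.all 2 (.imp (P 0) (.imp (G 0 1) (.imp (G 0 2) (.eq (.var 1) (.var
2)))))))) (.all 1 (fex 0 (fand (P 0) (G 0 1)))))` with `P x = .app 1 o (fun _ => .var x)`, `G x y = .app 2 (o + 1)
![.var x, .var y]`.
`→`: `G` has a code `z ∈ N` with `![x, y] ∈ G ↔ tup ![x, y] ∈ z`; `f = {pair x y : x, y ∈ A, tup ![x, y] ∈ z}` is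
in `N` (`tk7_rel`-style separation or `CTM.exists_sep` on `ZFSet.prod A A`, `pd_tup`), and is a cover in the sense of `Cvr`
(a pair `(x, y) ∈ f` has `x, y ∈ A`).
`←`: `f ∈ N`; `G = {w | pair (w 0).1 (w 1).1 ∈ f}` is `InN` by `inN_of_dfn` (`Dfn.pairMem`).
-/

set_option autoImplicit false
set_option linter.unusedVariables false
set_option linter.unusedSectionVars false
set_option linter.unusedSimpArgs false

open Pool.Agent.H17.Omega Pool.Agent.H17.Omega.CTM Pool.Agent.H52.GC Pool.Agent.H7.IG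

namespace Pool.Agent.H17.CF.PE

variable {N : Set ZFSet.{0}}

theorem cvrF_pair {D : Type 1} {V' : Voc} {F' : (f : Fin V'.nF) → (Fin (V'.aF f) → D) → D} {v : ℕ → D} {x y : ℕ} :
    (fun j : Fin 2 => ((![Tm.var x, Tm.var y] : Fin 2 → Tm V') j).val F' v) = ![v x, v y] := by
  funext j
  fin_cases j <;> rfl

/-- Sets of pairs and relations of the model. -/
theorem cvrF_sem (hN : CTM N) {A P : ZFSet.{0}} (hA : A ∈ N) (hPA : P ⊆ A) :
    (∃ X : Set (Fin 2 → El A), InN N X ∧ (∀ a b c : El A, a.1 ∈ P → ![a, b] ∈ X → ![a, c] ∈ X → b = c) ∧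
      ∀ b : El A, ∃ a : El A, a.1 ∈ P ∧ ![a, b] ∈ X) ↔ Cvr N P A := by
  constructor
  · rintro ⟨X, hX, h1, h2⟩
    obtain ⟨Q, hQ, hQ'⟩ := InN.dfn hN hA hX
    have hQ2 : hN.Dfn (fun v : Fin 2 → N => Q ![v 0, v 1]) := hQ.congr fun v => by
      have h3 : ![v 0, v 1] = v := by funext j; fin_cases j <;> rfl
      rw [h3]
    obtain ⟨r, hr, hr'⟩ := hN.exists_sep (P := fun z => ∃ x y : N, z.1 = ZFSet.pair x.1 y.1 ∧ Q ![x, y])
      (Dfn.exPair (P := fun v x y => Q ![x, y]) (DT.var _)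
        (Dfn.subst2 (P := fun x y => Q ![x, y]) hQ2 (DT.var _) (DT.var _)))
      (hN.prod_mem hA hA)
    have hr2 : ∀ a b : ZFSet.{0}, ZFSet.pair a b ∈ r ↔ ∃ (ha : a ∈ A) (hb : b ∈ A),
        (![⟨a, ha⟩, ⟨b, hb⟩] : Fin 2 → El A) ∈ X := by
      intro a b
      rw [hr', ZFSet.pair_mem_prod]
      have h4 : ∀ (ha : a ∈ A) (hb : b ∈ A), (fun i => el hN hA ((![⟨a, ha⟩, ⟨b, hb⟩] : Fin 2 → El A) i)) =
          ![⟨a, hN.mem_of_mem hA ha⟩, ⟨b, hN.mem_of_mem hA hb⟩] := by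
        intro ha hb
        funext j
        fin_cases j <;> rfl
      constructor
      · rintro ⟨⟨ha, hb⟩, _, x, y, h3, h5⟩
        have h3 : ZFSet.pair a b = ZFSet.pair x.1 y.1 := h3
        rw [ZFSet.pair_inj] at h3
        refine ⟨ha, hb, (hQ' _).2 ?_⟩
        rw [h4 ha hb]
        have e1 : (⟨a, hN.mem_of_mem hA ha⟩ : N) = x := Subtype.ext h3.1
        have e2 : (⟨b, hN.mem_of_mem hA hb⟩ : N) = y := Subtype.ext h3.2
        rw [e1, e2]
        exact h5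
      · rintro ⟨ha, hb, h5⟩
        have h6 := (hQ' _).1 h5
        rw [h4 ha hb] at h6
        exact ⟨⟨ha, hb⟩, hN.pair_mem (hN.mem_of_mem hA ha) (hN.mem_of_mem hA hb), _, _, rfl, h6⟩
    refine ⟨r, hr, fun y hy x x' hx hx' => ?_, fun x hx => ?_⟩
    · obtain ⟨ha, hb, h3⟩ := (hr2 _ _).1 hx
      obtain ⟨_, hb', h4⟩ := (hr2 _ _).1 hx'
      exact congrArg Subtype.val (h1 ⟨y, ha⟩ ⟨x, hb⟩ ⟨x', hb'⟩ hy h3 h4)
    · obtain ⟨a, ha, hax⟩ := h2 ⟨x, hx⟩
      exact ⟨a.1, ha, (hr2 _ _).2 ⟨a.2, hx, hax⟩⟩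
  · rintro ⟨f, hf, h1, h2⟩
    refine ⟨{w | ZFSet.pair (w 0).1 (w 1).1 ∈ f}, ?_, ?_, ?_⟩
    · exact inN_of_dfn hN hA (n := 2) (P := fun v => ZFSet.pair (v 0).1 (v 1).1 ∈ (⟨f, hf⟩ : N).1)
        (Dfn.pairMem (DT.var _) (DT.var _) (DT.const _))
    · intro a b c ha hb hc
      exact Subtype.ext (h1 a.1 ha b.1 c.1 hb hc)
    · intro b
      obtain ⟨y, hy, h3⟩ := h2 b.1 b.2
      exact ⟨⟨y, hPA hy⟩, hy, h3⟩

theorem exists_cvrF (V' : Voc) (o : ℕ) : ∃ φ : Fo V', ∀ {N : Set ZFSet.{0}} (hN : CTM N) {A P : ZFSet.{0}}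
    (hA : A ∈ N) (hP : P ∈ N) (hPA : P ⊆ A) (R' : (r : Fin V'.nR) → Set (Fin (V'.aR r) → El A))
    (F' : (f : Fin V'.nF) → (Fin (V'.aF f) → El A) → El A) (v : ℕ → El A) (ρ : Asg (El A)),
    (∀ x : El A, (fun _ => x) ∈ ρ 1 o ↔ x.1 ∈ P) → (SatF (Frm N A) R' F' φ v ρ ↔ Cvr N P A) := by
  refine ⟨fexR 2 (o + 1) (fand (.all 0 (.all 1 (.all 2 (.imp (.app 1 o (fun _ => .var 0))
    (.imp (.app 2 (o + 1) ![.var 0, .var 1]) (.imp (.app 2 (o + 1) ![.var 0, .var 2])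
      (.eq (.var 1) (.var 2)))))))) (.all 1 (fex 0 (fand (.app 1 o (fun _ => .var 0))
        (.app 2 (o + 1) ![.var 0, .var 1]))))), ?_⟩
  intro N hN A P hA hP hPA R' F' v ρ hρ
  rw [← cvrF_sem hN hA hPA, sat_exR]
  refine exists_congr fun X => ?_
  rw [mem_Frm]
  refine and_congr_right fun _ => ?_
  have e1 : updR ρ 2 (o + 1) X 1 o = ρ 1 o := updR_ne ρ X (by
    intro h
    rw [Prod.mk.injEq] at h
    omega)
  have e2 : updR ρ 2 (o + 1) X 2 (o + 1) = X := updR_same _ _ _ _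
  rw [sat_and]
  refine and_congr ?_ ?_
  · simp only [sat_all, sat_imp, sat_app, sat_eq, e1, e2, cvrF_pair, val_var, hρ]
    constructor
    · intro h a b c ha hb hc
      have h3 := h a b c
      simpa using h3 (by simpa using ha) (by simpa using hb) (by simpa using hc)
    · intro h a b c ha hb hc
      have h3 := h a b c
      simpa using h3 (by simpa using ha) (by simpa using hb) (by simpa using hc)
  · simp only [sat_all, sat_ex, sat_and, sat_app, e1, e2, cvrF_pair, val_var, hρ]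
    refine forall_congr' fun b => exists_congr fun a => ?_
    simp

end Pool.Agent.H17.CF.PE
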