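import Pool.Agent.H17.CF.E.RelT
import Pool.Agent.H17.CF.E.Code
import Pool.Agent.H17.CF.E.CvrF

/-!
# MP_9b819f_lc, part E: the sentence `χ`

`χ`: every model of `T` whose universe is a subset of the universe covers the universe.
-/

set_option autoImplicit false
set_option linter.unusedVariables false
set_option linter.unusedSectionVars false
set_option linter.unusedSimpArgs false

open Pool.Agent.H17.Omega Pool.Agent.H17.Omega.CTM Pool.Agent.H52.GC Pool.Agent.H7.IG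

namespace Pool.Agent.H17.CF.PE

variable {N : Set ZFSet.{0}}

theorem exists_chi (hN : CTM N) {V : Voc} (T : List (Fo V)) (hT : ∀ φ ∈ T, Sentence φ) :
    ∃ χ : Fo V, ∀ 𝔅 : Str N V, Holds 𝔅 χ ↔
      ∀ 𝔄 : Str N V, 𝔄.A ⊆ 𝔅.A → Models 𝔄 T → Cvr N 𝔄.A 𝔅.A := by
  obtain ⟨g, hg⟩ := exists_goodF V V 0
  obtain ⟨t, ht⟩ := exists_relT hN V V 0 T hT
  obtain ⟨c, hc⟩ := exists_cvrF V 0
  refine ⟨.imp g (.imp t c), fun 𝔅 => ?_⟩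
  constructor
  · intro h 𝔄 h𝔄 hM
    obtain ⟨x0, hx0⟩ := 𝔅.ne
    obtain ⟨ρ, hρ, _, hcd⟩ := exists_code hN 𝔄 h𝔄 (ρ := fun n i => ∅)
      (fun n i => ⟨∅, hN.empty_mem, fun w => by simp⟩) 0
    have h1 := h (fun _ => ⟨x0, hx0⟩) ρ hρ
    rw [sat_imp, hg, sat_imp, ht 𝔅.R 𝔅.F 𝔄 h𝔄 _ ρ hcd, hc hN 𝔅.memA 𝔄.memA h𝔄 𝔅.R 𝔅.F _ ρ hcd.P] at h1
    exact h1 hcd.good hM
  · intro h v ρ hρ
    rw [sat_imp, hg, sat_imp]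
    intro hgd
    obtain ⟨𝔄, h𝔄, hcd⟩ := hgd.exists_str hN 𝔅.memA hρ
    rw [ht 𝔅.R 𝔅.F 𝔄 h𝔄 v ρ hcd, hc hN 𝔅.memA 𝔄.memA h𝔄 𝔅.R 𝔅.F v ρ hcd.P]
    exact h 𝔄 h𝔄

end Pool.Agent.H17.CF.PE
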