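import Pool.Agent.H17.CF.E.Syn

/-!
# MP_9b819f_lc, part E, job E1: free variables and closures

* `sat_congr` (coincidence lemma): induction on `φ` (all of `xs Xs v v' ρ ρ'` general). Terms: `t.closed xs` and
  `v = v'` on `xs` give `t.val F v = t.val F v'` (induction on `t`). `.all x φ`: `Function.update v x d` and
  `Function.update v' x d` agree on `x :: xs`. `.allR n i φ`: `updR ρ n i X` and `updR ρ' n i X` agree on
  `(n, i) :: Xs` (`updR_same`, `updR_ne`).
* `exists_closed`: first monotonicity: `φ.closed xs Xs`, `xs ⊆ ys`, `Xs ⊆ Ys` give `φ.closed ys Ys` (induction).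
  Then induction on `φ`; for `.imp` take the appended lists; for terms (a finite family `ts : Fin n → Tm V`) take
  `(List.ofFn g).flatten` of the lists `g i` of the terms; for `.app n i ts` take `Xs = [(n, i)]`.
* `exists_closure`: take `xs Xs` from `exists_closed` and `φ' = fallRL Xs (fallL xs φ)`. It is a sentence: if
  `φ.closed (xs ++ ys) Zs` then `(fallL xs φ).closed ys Zs` (induction on `xs`, monotonicity to move the variable
  `x` from the front), the same for `fallRL`. Meaning: `sat_allL`, `sat_allRL` (with `Holds`, which quantifies over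
  all `v` and all `ρ` of `N`, both directions are immediate: `v' = v`, `ρ' = ρ`).
* `holds_iff_sat`: for a sentence the assignments do not matter (`sat_congr` with `xs = []`, `Xs = []`); use
  the assignments `v0` constant (from `𝔄.ne`) and `ρ0 n i = ∅` (`InN N ∅` by `∅ ∈ N`, `hN.empty_mem`).
* `complete_or`: apply `h` to the sentence `φ'` of `exists_closure`; in the second case
  `Holds 𝔄 (.imp φ' .bot)` and `Holds 𝔄 φ'` contradict each other at one assignment.
-/

set_option autoImplicit false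
set_option linter.unusedVariables false
set_option linter.unusedSectionVars false
set_option linter.unusedSimpArgs false

open Pool.Agent.H17.Omega Pool.Agent.H17.Omega.CTM Pool.Agent.H52.GC Pool.Agent.H7.IG

namespace Pool.Agent.H17.CF.PE

theorem val_congr {V : Voc} {D : Type 1} {F : (f : Fin V.nF) → (Fin (V.aF f) → D) → D} {xs : List ℕ} {v v' : ℕ → D}
    (h : ∀ x ∈ xs, v x = v' x) (t : Tm V) : t.closed xs → t.val F v = t.val F v' := by
  induction t with
  | var x => intro ht; exact h x ht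
  | app g ts ih =>
    intro ht
    simp only [Tm.val]
    congr 1
    funext i
    exact ih i (ht i)

/-- Coincidence lemma. -/
theorem sat_congr {V : Voc} {D : Type 1} {𝓕 : (n : ℕ) → Set (Set (Fin n → D))}
    {R : (r : Fin V.nR) → Set (Fin (V.aR r) → D)} {F : (f : Fin V.nF) → (Fin (V.aF f) → D) → D} (φ : Fo V) :
    ∀ {xs : List ℕ} {Xs : List (ℕ × ℕ)}, φ.closed xs Xs → ∀ {v v' : ℕ → D} {ρ ρ' : Asg D},
      (∀ x ∈ xs, v x = v' x) → (∀ n i, (n, i) ∈ Xs → ρ n i = ρ' n i) →
      (SatF 𝓕 R F φ v ρ ↔ SatF 𝓕 R F φ v' ρ') := by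
  induction φ with
  | bot => intro xs Xs _ v v' ρ ρ' _ _; exact Iff.rfl
  | eq s t =>
    intro xs Xs hc v v' ρ ρ' h1 h2
    simp only [SatF, val_congr h1 s hc.1, val_congr h1 t hc.2]
  | rel r ts =>
    intro xs Xs hc v v' ρ ρ' h1 h2
    have e : (fun i => (ts i).val F v) = fun i => (ts i).val F v' := funext fun i => val_congr h1 _ (hc i)
    simp only [SatF, e]
  | app n i ts =>
    intro xs Xs hc v v' ρ ρ' h1 h2
    have e : (fun i => (ts i).val F v) = fun i => (ts i).val F v' := funext fun i => val_congr h1 _ (hc.2 i)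
    simp only [SatF, e, h2 n i hc.1]
  | imp φ ψ ih1 ih2 =>
    intro xs Xs hc v v' ρ ρ' h1 h2
    simp only [SatF, ih1 hc.1 h1 h2, ih2 hc.2 h1 h2]
  | all x φ ih =>
    intro xs Xs hc v v' ρ ρ' h1 h2
    simp only [SatF]
    refine forall_congr' fun d => ih hc (fun y hy => ?_) h2
    by_cases hxy : y = x
    · subst hxy; rw [Function.update_self, Function.update_self]
    · rw [Function.update_of_ne hxy, Function.update_of_ne hxy]
      exact h1 y ((List.mem_cons.1 hy).resolve_left hxy)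
  | allR n i φ ih =>
    intro xs Xs hc v v' ρ ρ' h1 h2
    simp only [SatF]
    refine forall_congr' fun X => forall_congr' fun hX => ih hc h1 (fun m j hmj => ?_)
    by_cases h : (m, j) = (n, i)
    · rw [Prod.mk.injEq] at h
      obtain ⟨rfl, rfl⟩ := h
      rw [updR_same, updR_same]
    · rw [updR_ne _ _ h, updR_ne _ _ h]
      exact h2 m j ((List.mem_cons.1 hmj).resolve_left h)

theorem Tm.closed_mono {V : Voc} {xs ys : List ℕ} (h : ∀ x ∈ xs, x ∈ ys) (t : Tm V) : t.closed xs → t.closed ys := by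
  induction t with
  | var x => intro ht; exact h x ht
  | app g ts ih => intro ht i; exact ih i (ht i)

theorem closed_mono {V : Voc} (φ : Fo V) : ∀ {xs ys : List ℕ} {Xs Ys : List (ℕ × ℕ)}, (∀ x ∈ xs, x ∈ ys) →
    (∀ x ∈ Xs, x ∈ Ys) → φ.closed xs Xs → φ.closed ys Ys := by
  induction φ with
  | bot => intro xs ys Xs Ys _ _ _; exact trivial
  | eq s t => intro xs ys Xs Ys h1 h2 h; exact ⟨Tm.closed_mono h1 s h.1, Tm.closed_mono h1 t h.2⟩
  | rel r ts => intro xs ys Xs Ys h1 h2 h i; exact Tm.closed_mono h1 _ (h i)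
  | app n i ts => intro xs ys Xs Ys h1 h2 h; exact ⟨h2 _ h.1, fun j => Tm.closed_mono h1 _ (h.2 j)⟩
  | imp φ ψ ih1 ih2 => intro xs ys Xs Ys h1 h2 h; exact ⟨ih1 h1 h2 h.1, ih2 h1 h2 h.2⟩
  | all x φ ih =>
    intro xs ys Xs Ys h1 h2 h
    refine ih (fun y hy => ?_) h2 h
    rcases List.mem_cons.1 hy with rfl | hy
    · exact List.mem_cons_self
    · exact List.mem_cons_of_mem _ (h1 y hy)
  | allR n i φ ih =>
    intro xs ys Xs Ys h1 h2 h
    refine ih h1 (fun y hy => ?_) h
    rcases List.mem_cons.1 hy with rfl | hy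
    · exact List.mem_cons_self
    · exact List.mem_cons_of_mem _ (h2 y hy)

theorem Tm.exists_closed {V : Voc} (t : Tm V) : ∃ xs : List ℕ, t.closed xs := by
  induction t with
  | var x => exact ⟨[x], List.mem_cons_self⟩
  | app g ts ih =>
    choose l hl using ih
    refine ⟨(List.ofFn l).flatten, fun i => Tm.closed_mono (fun x hx => ?_) _ (hl i)⟩
    exact List.mem_flatten.2 ⟨l i, (List.mem_ofFn' l _).2 ⟨i, rfl⟩, hx⟩

theorem exists_closed_fam {V : Voc} {n : ℕ} (ts : Fin n → Tm V) : ∃ xs : List ℕ, ∀ i, (ts i).closed xs := by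
  choose l hl using fun i => Tm.exists_closed (ts i)
  refine ⟨(List.ofFn l).flatten, fun i => Tm.closed_mono (fun x hx => ?_) _ (hl i)⟩
  exact List.mem_flatten.2 ⟨l i, (List.mem_ofFn' l _).2 ⟨i, rfl⟩, hx⟩

/-- Every formula has finitely many free variables. -/
theorem exists_closed {V : Voc} (φ : Fo V) : ∃ (xs : List ℕ) (Xs : List (ℕ × ℕ)), φ.closed xs Xs := by
  induction φ with
  | bot => exact ⟨[], [], trivial⟩
  | eq s t =>
    obtain ⟨l, hl⟩ := exists_closed_fam ![s, t]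
    exact ⟨l, [], hl 0, hl 1⟩
  | rel r ts =>
    obtain ⟨l, hl⟩ := exists_closed_fam ts
    exact ⟨l, [], hl⟩
  | app n i ts =>
    obtain ⟨l, hl⟩ := exists_closed_fam ts
    exact ⟨l, [(n, i)], List.mem_cons_self, hl⟩
  | imp φ ψ ih1 ih2 =>
    obtain ⟨l, L, h⟩ := ih1
    obtain ⟨l', L', h'⟩ := ih2
    exact ⟨l ++ l', L ++ L', closed_mono φ (fun x hx => List.mem_append_left _ hx)
      (fun x hx => List.mem_append_left _ hx) h, closed_mono ψ (fun x hx => List.mem_append_right _ hx)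
      (fun x hx => List.mem_append_right _ hx) h'⟩
  | all x φ ih =>
    obtain ⟨l, L, h⟩ := ih
    exact ⟨l, L, closed_mono φ (fun x hx => List.mem_cons_of_mem _ hx) (fun x hx => hx) h⟩
  | allR n i φ ih =>
    obtain ⟨l, L, h⟩ := ih
    exact ⟨l, L, closed_mono φ (fun x hx => hx) (fun x hx => List.mem_cons_of_mem _ hx) h⟩

theorem closed_allL {V : Voc} {φ : Fo V} : ∀ {xs ys : List ℕ} {Zs : List (ℕ × ℕ)}, φ.closed (xs ++ ys) Zs →
    (fallL xs φ).closed ys Zs := by
  intro xs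
  induction xs with
  | nil => intro ys Zs h; exact h
  | cons x xs ih =>
    intro ys Zs h
    refine ih (ys := x :: ys) (closed_mono φ (fun y hy => ?_) (fun y hy => hy) h)
    simp only [List.cons_append, List.mem_cons, List.mem_append] at hy ⊢
    tauto

theorem closed_allRL {V : Voc} {φ : Fo V} : ∀ {Xs Ys : List (ℕ × ℕ)} {zs : List ℕ}, φ.closed zs (Xs ++ Ys) →
    (fallRL Xs φ).closed zs Ys := by
  intro Xs
  induction Xs with
  | nil => intro Ys zs h; exact h
  | cons x Xs ih =>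
    intro Ys zs h
    refine ih (Ys := x :: Ys) (closed_mono φ (fun y hy => hy) (fun y hy => ?_) h)
    simp only [List.cons_append, List.mem_cons, List.mem_append] at hy ⊢
    tauto

/-- The universal closure. -/
theorem exists_closure {V : Voc} (φ : Fo V) : ∃ φ' : Fo V, Sentence φ' ∧
    ∀ {N : Set ZFSet.{0}} (𝔄 : Str N V), Holds 𝔄 φ' ↔ Holds 𝔄 φ := by
  obtain ⟨xs, Xs, h⟩ := exists_closed φ
  refine ⟨fallRL Xs (fallL xs φ), closed_allRL (closed_allL (by simpa using h)), fun {N} 𝔄 => ?_⟩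
  constructor
  · intro h v ρ hρ
    have h1 := h v ρ hρ
    rw [sat_allRL (𝓕 := Frm N 𝔄.A) hρ] at h1
    exact (sat_allL.1 (h1 ρ hρ fun n i _ => rfl)) v fun x _ => rfl
  · intro h v ρ hρ
    rw [sat_allRL (𝓕 := Frm N 𝔄.A) hρ]
    intro ρ' hρ' _
    rw [sat_allL]
    intro v' _
    exact h v' ρ' hρ'

/-- For sentences one assignment is enough. -/
theorem holds_iff_sat {N : Set ZFSet.{0}} (hN : CTM N) {V : Voc} {𝔄 : Str N V} {φ : Fo V} (hφ : Sentence φ)
    (v : ℕ → El 𝔄.A) (ρ : Asg (El 𝔄.A)) : Holds 𝔄 φ ↔ SatF (Frm N 𝔄.A) 𝔄.R 𝔄.F φ v ρ := by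
  have key : ∀ (v v' : ℕ → El 𝔄.A) (ρ ρ' : Asg (El 𝔄.A)),
      SatF (Frm N 𝔄.A) 𝔄.R 𝔄.F φ v ρ ↔ SatF (Frm N 𝔄.A) 𝔄.R 𝔄.F φ v' ρ' := fun v v' ρ ρ' =>
    sat_congr φ hφ (by simp) (by simp)
  constructor
  · intro h
    exact (key _ _ _ _).1 (h v (fun n i => ∅) fun n i => ⟨∅, hN.empty_mem, fun w => by simp⟩)
  · intro h v' ρ' _
    exact (key _ _ _ _).1 h

/-- Completeness for arbitrary formulas. -/
theorem complete_or {N : Set ZFSet.{0}} (hN : CTM N) {V : Voc} {T : List (Fo V)} (h : Complete N T) (φ : Fo V) :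
    (∀ 𝔄 : Str N V, Models 𝔄 T → Holds 𝔄 φ) ∨ ∀ 𝔄 : Str N V, Models 𝔄 T → ¬ Holds 𝔄 φ := by
  obtain ⟨φ', h1, h2⟩ := exists_closure φ
  rcases h φ' h1 with h3 | h3
  · exact Or.inl fun 𝔄 hM => (h2 𝔄).1 (h3 𝔄 hM)
  · refine Or.inr fun 𝔄 hM h4 => ?_
    obtain ⟨x0, hx0⟩ := 𝔄.ne
    have hρ : ∀ n i, InN N ((fun n i => ∅ : Asg (El 𝔄.A)) n i) := fun n i => ⟨∅, hN.empty_mem, fun w => by simp⟩
    exact h3 𝔄 hM (fun _ => ⟨x0, hx0⟩) (fun n i => ∅) hρ ((h2 𝔄).2 h4 _ _ hρ)

end Pool.Agent.H17.CF.PE
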