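import Pool.Agent.H17.CF.E.Syn

/-!
# MP_9b819f_lc, part E, job E2: relations of the model and definable relations of the model

`X : Set (Fin n → El A)` is `InN N` iff it is the trace of a definable (with parameters) relation of `N`. So all
closure properties of `InN` follow from the `Dfn` calculus (`Pool.Agent.H17.CF.PD`: `PD`, `Df.*`, `exFinC`,
`allFiniteC`, `substC`; `H17/Omega/Ctm`, `CtmD`: `Dfn.*`).

* `tup_succ`: `tup w = ZFSet.pair (w 0) (tup (fun i => w i.succ))` (`List.ofFn_succ`), `tup` of `Fin 0` is `∅`.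
* `tup_inj`, `tup_mem`, `pd_tup`: induction on `n` (`PD.pair`, `PD.const` for `∅`).
* `exists_tupset`: induction on `n`: `{∅}` and `ZFSet.prod A z` (`hN.prod_mem`, `hN.singleton_mem`).
* `inN_of_dfn`: `z = {t ∈ z_n : ∃ a : Fin n → N, t = tup a ∧ P a}` with `z_n` from `exists_tupset`
  (`hN.exists_sep`; the predicate is `Dfn` by `exFinC` at `n := 1`, `m := n`, `pd_tup`, `Df.eq`, `reidxC`). For
  `w : Fin n → El A` the only `a` with `tup a = tup w` is `w` (`tup_inj`).
* `InN.dfn`: `P a := tup a ∈ z`, `Df.mem (pd_tup ..) (PD.const hz)`.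
* `bijN_of_dfn`: `z = {pair x y ∈ A × B : F x y}` (`Dfn.exPair` or `Tk7.tk7_rel` style).
-/

set_option autoImplicit false
set_option linter.unusedVariables false
set_option linter.unusedSectionVars false
set_option linter.unusedSimpArgs false

open Pool.Agent.H17.Omega Pool.Agent.H17.Omega.CTM Pool.Agent.H52.GC Pool.Agent.H7.IG

namespace Pool.Agent.H17.CF.PE

variable {N : Set ZFSet.{0}}

theorem tup_zero {w : Fin 0 → ZFSet.{0}} : tup w = ∅ := by
  simp [tup, tupL]

theorem tup_succ {n : ℕ} {w : Fin (n + 1) → ZFSet.{0}} : tup w = ZFSet.pair (w 0) (tup (fun i => w i.succ)) := by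
  simp [tup, tupL, List.ofFn_succ]

theorem tup_inj : ∀ {n : ℕ} {w w' : Fin n → ZFSet.{0}}, tup w = tup w' ↔ w = w' := by
  intro n
  induction n with
  | zero => intro w w'; exact ⟨fun _ => Subsingleton.elim _ _, fun h => by rw [h]⟩
  | succ n ih =>
    intro w w'
    rw [tup_succ, tup_succ, ZFSet.pair_inj, ih]
    constructor
    · rintro ⟨h1, h2⟩
      funext i
      exact Fin.cases h1 (fun j => congrFun h2 j) i
    · rintro rfl
      exact ⟨rfl, rfl⟩

theorem tup_mem (hN : CTM N) : ∀ {n : ℕ} {w : Fin n → ZFSet.{0}}, (∀ i, w i ∈ N) → tup w ∈ N := by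
  intro n
  induction n with
  | zero => intro w h; rw [tup_zero]; exact hN.empty_mem
  | succ n ih => intro w h; rw [tup_succ]; exact hN.pair_mem (h 0) (ih fun i => h _)

/-- The code of a tuple is a definable term. -/
theorem pd_tup (hN : CTM N) {m : ℕ} : ∀ {n : ℕ} {s : Fin n → (Fin m → N) → ZFSet.{0}}, (∀ i, PD hN (s i)) →
    PD hN (fun v => tup (fun i => s i v)) := by
  intro n
  induction n with
  | zero => intro s h; exact (PD.const hN.empty_mem).congr fun v => tup_zero.symm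
  | succ n ih => intro s h; exact (PD.pair (h 0) (ih fun i => h i.succ)).congr fun v => (tup_succ (w := fun i => s i v)).symm

/-- The set of all tuples. -/
theorem exists_tupset (hN : CTM N) {A : ZFSet.{0}} (hA : A ∈ N) : ∀ (n : ℕ),
    ∃ z ∈ N, ∀ x, x ∈ z ↔ ∃ w : Fin n → El A, x = tup (fun i => (w i).1) := by
  intro n
  induction n with
  | zero =>
    refine ⟨{∅}, hN.singleton_mem hN.empty_mem, fun x => ?_⟩
    rw [ZFSet.mem_singleton]
    exact ⟨fun h => ⟨Fin.elim0, h.trans tup_zero.symm⟩, fun ⟨w, h⟩ => h.trans tup_zero⟩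
  | succ n ih =>
    obtain ⟨z, hz, hz'⟩ := ih
    refine ⟨ZFSet.prod A z, hN.prod_mem hA hz, fun x => ?_⟩
    rw [ZFSet.mem_prod]
    constructor
    · rintro ⟨a, ha, b, hb, rfl⟩
      obtain ⟨w, rfl⟩ := (hz' b).1 hb
      exact ⟨Fin.cons ⟨a, ha⟩ w, by rw [tup_succ]; rfl⟩
    · rintro ⟨w, rfl⟩
      exact ⟨(w 0).1, (w 0).2, _, (hz' _).2 ⟨fun i => w i.succ, rfl⟩, tup_succ⟩

/-- Traces of definable relations. -/
theorem inN_of_dfn (hN : CTM N) {A : ZFSet.{0}} (hA : A ∈ N) {n : ℕ} {P : (Fin n → N) → Prop} (hP : hN.Dfn P) :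
    InN N {w : Fin n → El A | P (fun i => el hN hA (w i))} := by
  obtain ⟨z0, hz0, hz0'⟩ := exists_tupset hN hA n
  have hd : hN.Dfn (fun v : Fin 1 → N => ∃ a : Fin n → N, (v 0).1 = tup (fun i => (a i).1) ∧ P a) := by
    have h1 : hN.Dfn (fun v : Fin (1 + n) → N => (v (Fin.castAdd n 0)).1 =
        tup (fun i => (v (Fin.natAdd 1 i)).1) ∧ P (fun i => v (Fin.natAdd 1 i))) :=
      (Df.eq (PD.var _) (pd_tup hN fun i => PD.var _)).and (reidxC hP fun i => Fin.natAdd 1 i)
    refine (exFinC n h1).congr fun v => ?_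
    simp only [Fin.append_left, Fin.append_right]
  obtain ⟨z, hz, hz'⟩ := hN.exists_sep (P := fun x => ∃ a : Fin n → N, x.1 = tup (fun i => (a i).1) ∧ P a) hd hz0
  refine ⟨z, hz, fun w => ?_⟩
  rw [hz']
  constructor
  · intro h
    exact ⟨(hz0' _).2 ⟨w, rfl⟩, tup_mem hN fun i => hN.mem_of_mem hA (w i).2, fun i => el hN hA (w i), rfl, h⟩
  · rintro ⟨_, _, a, h1, h2⟩
    have h3 : (fun i => (w i).1) = fun i => (a i).1 := tup_inj.1 h1
    have h4 : (fun i => el hN hA (w i)) = a := funext fun i => Subtype.ext (congrFun h3 i)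
    change P _
    rw [h4]; exact h2

theorem InN.dfn (hN : CTM N) {A : ZFSet.{0}} (hA : A ∈ N) {n : ℕ} {X : Set (Fin n → El A)} (hX : InN N X) :
    ∃ P : (Fin n → N) → Prop, hN.Dfn P ∧ ∀ w, w ∈ X ↔ P (fun i => el hN hA (w i)) := by
  obtain ⟨z, hz, hz'⟩ := hX
  exact ⟨fun a => tup (fun i => (a i).1) ∈ z, Df.mem (pd_tup hN fun i => PD.var _) (PD.const hz), hz'⟩

/-- A bijection with a definable graph. -/
theorem bijN_of_dfn (hN : CTM N) {A B : ZFSet.{0}} (hA : A ∈ N) (hB : B ∈ N) {F : N → N → Prop}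
    (hF : hN.Dfn (fun v : Fin 2 → N => F (v 0) (v 1))) (f : El A ≃ El B)
    (h : ∀ a b, f a = b ↔ F (el hN hA a) (el hN hB b)) : BijN N f := by
  obtain ⟨r, hr, hr'⟩ := hN.exists_sep (P := fun z => ∃ x y : N, z.1 = ZFSet.pair x.1 y.1 ∧ F x y)
    (Dfn.exPair (P := fun v x y => F x y) (DT.var _) (Dfn.subst2 hF (DT.var _) (DT.var _)))
    (hN.prod_mem hA hB)
  refine ⟨r, hr, fun a b => ?_⟩
  rw [h, hr', ZFSet.pair_mem_prod]
  constructor
  · intro h1
    exact ⟨⟨a.2, b.2⟩, hN.pair_mem (el hN hA a).2 (el hN hB b).2, el hN hA a, el hN hB b, rfl, h1⟩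
  · rintro ⟨_, _, x, y, h2, h3⟩
    have h2 : ZFSet.pair a.1 b.1 = ZFSet.pair x.1 y.1 := h2
    rw [ZFSet.pair_inj] at h2
    have e1 : el hN hA a = x := Subtype.ext h2.1
    have e2 : el hN hB b = y := Subtype.ext h2.2
    rw [e1, e2]; exact h3

end Pool.Agent.H17.CF.PE
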