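import Pool.Agent.H17.CF.E.InN

/-!
# MP_9b819f_lc, part E, job E9: 'the structure is isomorphic to the coded structure'

The formula (universe = the coded universe): `fexR 2 j Θ`, `j = o + 1 + V.nR + V.nF` (not in `blk V o`), with
`G x y = .app 2 j ![.var x, .var y]` and `Θ` the conjunction of
* `.all 0 (fex 1 (G 0 1))`, `.all 0 (.all 1 (.all 2 (.imp (G 0 1) (.imp (G 0 2) (.eq (.var 1) (.var 2))))))`,
  `.all 1 (fex 0 (G 0 1))`, `.all 0 (.all 1 (.all 2 (.imp (G 0 2) (.imp (G 1 2) (.eq (.var 0) (.var 1))))))`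
* for each `r` (`fbig`), with `a = V.aR r`: `fallL (List.range (2 * a)) (.imp (fbig fun i : Fin a => G i (a + i)) (fiff
  (.rel r fun i => .var i) (.app a (iR V o r) fun i => .var (a + i))))`
* for each `f` (`fbig`), with `a = V.aF f`: `fallL (List.range (2 * a + 1)) (.imp (fbig fun i : Fin a => G i (a + i)) (.all
  (2 * a + 1) (.imp (fand (.eq (.var (2 * a + 1)) (.app f fun i => .var i)) (G (2 * a + 1) (2 * a))) (.app (a + 1)
  (iF V o f) (fun i : Fin (a + 1) => .var (a + i))))))` (variables `0..a-1`: arguments, `a..2a-1`: their images, `2a` the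
  image of the value, which is the variable `2a+1`).
Meaning: `→`: `G` total, single valued, onto, injective gives `g : El 𝔅.A ≃ El 𝔄.A` (the universes are the same set),
`BijN` because `G` is `InN` (`InN.dfn`, `bijN_of_dfn`); the relations: values `w i` and `g (w i)` for the variables. `←`: `G =
{w | g (w 0) = w 1}` is `InN` (from the code of `g`: `inN_of_dfn`, `Dfn.pairMem`).
-/

set_option autoImplicit false
set_option linter.unusedVariables false
set_option linter.unusedSectionVars false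
set_option linter.unusedSimpArgs false

open Pool.Agent.H17.Omega Pool.Agent.H17.Omega.CTM Pool.Agent.H52.GC Pool.Agent.H7.IG

namespace Pool.Agent.H17.CF.PE

section aux

variable {D : Type 1} {V : Voc} {𝓕 : (n : ℕ) → Set (Set (Fin n → D))} {R : (r : Fin V.nR) → Set (Fin (V.aR r) → D)}
  {F : (f : Fin V.nF) → (Fin (V.aF f) → D) → D} {v : ℕ → D} {ρ : Asg D} {φ : Fo V}

theorem isoF_G {j : ℕ} {s t : Tm V} : SatF 𝓕 R F (.app 2 j ![s, t]) v ρ ↔ ![s.val F v, t.val F v] ∈ ρ 2 j := by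
  rw [sat_app]
  have h : (fun i => ((![s, t] : Fin 2 → Tm V) i).val F v) = ![s.val F v, t.val F v] := by
    funext i
    fin_cases i <;> rfl
  rw [h]

theorem isoF_range {n : ℕ} {Q : (Fin n → D) → Prop} (hQ : ∀ v' : ℕ → D, SatF 𝓕 R F φ v' ρ ↔ Q (fun i : Fin n => v' i)) :
    SatF 𝓕 R F (fallL (List.range n) φ) v ρ ↔ ∀ w : Fin n → D, Q w := by
  rw [sat_allL]
  constructor
  · intro h w
    have h1 := (hQ _).1 (h (fun x => if hx : x < n then w ⟨x, hx⟩ else v x) (fun x hx => by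
      rw [List.mem_range] at hx
      exact dif_neg hx))
    have h2 : (fun i : Fin n => (if hx : (i : ℕ) < n then w ⟨i, hx⟩ else v i)) = w := by
      funext i
      exact dif_pos i.2
    rw [h2] at h1
    exact h1
  · intro h v' _
    exact (hQ v').2 (h _)

end aux

/-- The formula. -/
def isoFm (V : Voc) (o j : ℕ) : Fo V :=
  fand (.all 0 (fex 1 (.app 2 j ![.var 0, .var 1]))) (fand (.all 1 (fex 0 (.app 2 j ![.var 0, .var 1])))
    (fand (fallL (List.range 3) (.imp (.app 2 j ![.var 0, .var 1]) (.imp (.app 2 j ![.var 0, .var 2]) (.eq (.var 1) (.var 2)))))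
    (fand (fallL (List.range 3) (.imp (.app 2 j ![.var 0, .var 2]) (.imp (.app 2 j ![.var 1, .var 2]) (.eq (.var 0) (.var 1)))))
    (fand (fbig fun r : Fin V.nR => fallL (List.range (V.aR r + V.aR r))
      (.imp (fbig fun i : Fin (V.aR r) => .app 2 j ![.var i, .var (V.aR r + i)])
        (fiff (.rel r fun i => .var i) (.app (V.aR r) (iR V o r) fun i => .var (V.aR r + i)))))
    (fbig fun f : Fin V.nF => fallL (List.range (V.aF f + (V.aF f + 1)))
      (.imp (fbig fun i : Fin (V.aF f) => .app 2 j ![.var i, .var (V.aF f + i)])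
        (.imp (.app 2 j ![.app f fun i => .var i, .var (V.aF f + V.aF f)])
          (.app (V.aF f + 1) (iF V o f) fun i => .var (V.aF f + i)))))))))

theorem isoF_sat {D : Type 1} {V : Voc} {𝓕 : (n : ℕ) → Set (Set (Fin n → D))} {R : (r : Fin V.nR) → Set (Fin (V.aR r) → D)}
    {F : (f : Fin V.nF) → (Fin (V.aF f) → D) → D} {v : ℕ → D} {ρ : Asg D} (o j : ℕ) :
    SatF 𝓕 R F (isoFm V o j) v ρ ↔ (∀ x, ∃ y, ![x, y] ∈ ρ 2 j) ∧ (∀ y, ∃ x, ![x, y] ∈ ρ 2 j) ∧
      (∀ x y y', ![x, y] ∈ ρ 2 j → ![x, y'] ∈ ρ 2 j → y = y') ∧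
      (∀ x x' y, ![x, y] ∈ ρ 2 j → ![x', y] ∈ ρ 2 j → x = x') ∧
      (∀ r (w z : Fin (V.aR r) → D), (∀ i, ![w i, z i] ∈ ρ 2 j) → (w ∈ R r ↔ z ∈ ρ (V.aR r) (iR V o r))) ∧
      ∀ f (w : Fin (V.aF f) → D) (z : Fin (V.aF f + 1) → D), (∀ i, ![w i, z i.castSucc] ∈ ρ 2 j) →
        ![F f w, z (Fin.last _)] ∈ ρ 2 j → z ∈ ρ (V.aF f + 1) (iF V o f) := by
  unfold isoFm
  rw [sat_and, sat_and, sat_and, sat_and, sat_and]
  refine and_congr ?_ (and_congr ?_ (and_congr ?_ (and_congr ?_ (and_congr ?_ ?_))))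
  · simp only [sat_all, sat_ex, isoF_G, val_var]
    refine forall_congr' fun x => exists_congr fun y => ?_
    rw [Function.update_of_ne (by decide), Function.update_self, Function.update_self]
  · simp only [sat_all, sat_ex, isoF_G, val_var]
    refine forall_congr' fun x => exists_congr fun y => ?_
    rw [Function.update_self, Function.update_of_ne (by decide), Function.update_self]
  · rw [isoF_range (Q := fun w => ![w 0, w 1] ∈ ρ 2 j → ![w 0, w 2] ∈ ρ 2 j → w 1 = w 2) (fun v' => by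
      rw [sat_imp, sat_imp, isoF_G, isoF_G, sat_eq]
      rfl)]
    constructor
    · intro h x y y'
      exact h ![x, y, y']
    · intro h w
      exact h _ _ _
  · rw [isoF_range (Q := fun w => ![w 0, w 2] ∈ ρ 2 j → ![w 1, w 2] ∈ ρ 2 j → w 0 = w 1) (fun v' => by
      rw [sat_imp, sat_imp, isoF_G, isoF_G, sat_eq]
      rfl)]
    constructor
    · intro h x x' y
      exact h ![x, x', y]
    · intro h w
      exact h _ _ _
  · rw [sat_big]
    refine forall_congr' fun r => ?_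
    rw [isoF_range (Q := fun w => (∀ i : Fin (V.aR r), ![w (Fin.castAdd _ i), w (Fin.natAdd _ i)] ∈ ρ 2 j) →
      ((fun i => w (Fin.castAdd _ i)) ∈ R r ↔ (fun i => w (Fin.natAdd _ i)) ∈ ρ (V.aR r) (iR V o r))) (fun v' => by
      rw [sat_imp, sat_big, sat_iff, sat_rel, sat_app]
      simp only [isoF_G, val_var]
      rfl)]
    constructor
    · intro h w z hw
      have h1 := h (Fin.append w z)
      simp only [Fin.append_left, Fin.append_right] at h1
      exact h1 hw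
    · intro h w
      exact h _ _
  · rw [sat_big]
    refine forall_congr' fun f => ?_
    rw [isoF_range (Q := fun w => (∀ i : Fin (V.aF f), ![w (Fin.castAdd _ i), w (Fin.natAdd _ i.castSucc)] ∈ ρ 2 j) →
      ![F f (fun i => w (Fin.castAdd _ i)), w (Fin.natAdd _ (Fin.last _))] ∈ ρ 2 j →
      (fun i => w (Fin.natAdd _ i)) ∈ ρ (V.aF f + 1) (iF V o f)) (fun v' => by
      rw [sat_imp, sat_big, sat_imp, isoF_G]
      simp only [isoF_G, val_var, val_app]
      rfl)]
    constructor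
    · intro h w z hw hz
      have h1 := h (Fin.append w z)
      simp only [Fin.append_left, Fin.append_right] at h1
      exact h1 hw hz
    · intro h w
      exact h (fun i => w (Fin.castAdd _ i)) (fun i => w (Fin.natAdd _ i))

theorem exists_isoF (V : Voc) (o : ℕ) : ∃ φ : Fo V, ∀ {N : Set ZFSet.{0}} (hN : CTM N) (𝔅 𝔄 : Str N V)
    (h : 𝔄.A ⊆ 𝔅.A) (h' : 𝔅.A ⊆ 𝔄.A) (v : ℕ → El 𝔅.A) (ρ : Asg (El 𝔅.A)), Cds o 𝔄 h ρ →
    (SatF (Frm N 𝔅.A) 𝔅.R 𝔅.F φ v ρ ↔ Isom 𝔅 𝔄) := by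
  classical
  refine ⟨fexR 2 (o + 1 + V.nR + V.nF) (isoFm V o (o + 1 + V.nR + V.nF)), ?_⟩
  intro N hN 𝔅 𝔄 h h' v ρ hρ
  set j := o + 1 + V.nR + V.nF with hj
  rw [sat_exR]
  have key : ∀ X : Set (Fin 2 → El 𝔅.A), (SatF (Frm N 𝔅.A) 𝔅.R 𝔅.F (isoFm V o j) v (updR ρ 2 j X) ↔
      (∀ x, ∃ y, ![x, y] ∈ X) ∧ (∀ y, ∃ x, ![x, y] ∈ X) ∧
      (∀ x y y', ![x, y] ∈ X → ![x, y'] ∈ X → y = y') ∧
      (∀ x x' y, ![x, y] ∈ X → ![x', y] ∈ X → x = x') ∧
      (∀ r (w z : Fin (V.aR r) → El 𝔅.A), (∀ i, ![w i, z i] ∈ X) → (w ∈ 𝔅.R r ↔ z ∈ ρ (V.aR r) (iR V o r))) ∧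
      ∀ f (w : Fin (V.aF f) → El 𝔅.A) (z : Fin (V.aF f + 1) → El 𝔅.A), (∀ i, ![w i, z i.castSucc] ∈ X) →
        ![𝔅.F f w, z (Fin.last _)] ∈ X → z ∈ ρ (V.aF f + 1) (iF V o f)) := by
    intro X
    rw [isoF_sat, updR_same]
    have e1 : ∀ r : Fin V.nR, updR ρ 2 j X (V.aR r) (iR V o r) = ρ (V.aR r) (iR V o r) := by
      intro r
      refine updR_ne _ _ fun h => ?_
      have h1 : iR V o r = j := (Prod.mk.injEq _ _ _ _ ▸ h).2
      have := r.2
      unfold iR at h1
      omega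
    have e2 : ∀ f : Fin V.nF, updR ρ 2 j X (V.aF f + 1) (iF V o f) = ρ (V.aF f + 1) (iF V o f) := by
      intro f
      refine updR_ne _ _ fun h => ?_
      have h1 : iF V o f = j := (Prod.mk.injEq _ _ _ _ ▸ h).2
      have := f.2
      unfold iF at h1
      omega
    simp only [e1, e2]
  -- the universes are the same
  let dn : El 𝔅.A → El 𝔄.A := fun x => ⟨x.1, h' x.2⟩
  have hup : ∀ x, inc h (dn x) = x := fun x => rfl
  have hdn : ∀ x, dn (inc h x) = x := fun x => rfl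
  have hR : ∀ (r : Fin V.nR) (z : Fin (V.aR r) → El 𝔅.A), z ∈ ρ (V.aR r) (iR V o r) ↔ (fun i => dn (z i)) ∈ 𝔄.R r :=
    fun r z => hρ.R r fun i => dn (z i)
  have hF : ∀ (f : Fin V.nF) (z : Fin (V.aF f + 1) → El 𝔅.A), z ∈ ρ (V.aF f + 1) (iF V o f) ↔
      dn (z (Fin.last _)) = 𝔄.F f (fun i => dn (z i.castSucc)) :=
    fun f z => hρ.F f fun i => dn (z i)
  constructor
  · rintro ⟨X, hX, hs⟩
    obtain ⟨h1, h2, h3, h4, h5, h6⟩ := (key X).1 hs
    choose t ht using h1
    have hti : Function.Injective t := fun x x' hx => h4 x x' (t x) (ht x) (by rw [hx]; exact ht x')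
    have hts : Function.Surjective t := fun y => by
      obtain ⟨x, hx⟩ := h2 y
      exact ⟨x, h3 x _ _ (ht x) hx⟩
    have htX : ∀ x y, t x = y ↔ ![x, y] ∈ X := fun x y => ⟨fun e => e ▸ ht x, fun e => h3 x _ _ (ht x) e⟩
    let e0 : El 𝔅.A ≃ El 𝔄.A := ⟨dn, inc h, hup, hdn⟩
    let g : El 𝔅.A ≃ El 𝔄.A := (Equiv.ofBijective t ⟨hti, hts⟩).trans e0
    have hg : ∀ x, g x = dn (t x) := fun x => rfl
    obtain ⟨P, hP, hP'⟩ := InN.dfn hN 𝔅.memA (mem_Frm.1 hX)
    refine ⟨g, ?_, ?_, ?_⟩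
    · have hd : hN.Dfn (fun v : Fin 2 → N => P ![v 0, v 1]) := hP.congr fun v => by
        have h7 : (![v 0, v 1] : Fin 2 → N) = v := by
          funext i
          fin_cases i <;> rfl
        rw [h7]
      refine bijN_of_dfn hN 𝔅.memA 𝔄.memA (F := fun a b => P ![a, b]) hd g fun a b => ?_
      have h8 : (fun i => el hN 𝔅.memA ((![a, inc h b] : Fin 2 → El 𝔅.A) i)) = ![el hN 𝔅.memA a, el hN 𝔄.memA b] := by
        funext i
        fin_cases i <;> rfl
      rw [← h8, ← hP', ← htX, hg]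
      constructor
      · intro e
        rw [← e, hup]
      · intro e
        rw [e, hdn]
    · intro r w
      rw [h5 r w (fun i => t (w i)) (fun i => ht _), hR]
      rfl
    · intro f w
      have h7 := (hF f _).1 (h6 f w (Fin.snoc (α := fun _ => El 𝔅.A) (fun i => t (w i)) (t (𝔅.F f w))) (fun i => by
        rw [Fin.snoc_castSucc]
        exact ht _) (by
        rw [Fin.snoc_last]
        exact ht _))
      rw [Fin.snoc_last] at h7
      simp only [Fin.snoc_castSucc] at h7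
      exact h7
  · rintro ⟨g, ⟨z, hz, hz'⟩, hgR, hgF⟩
    let X : Set (Fin 2 → El 𝔅.A) := {w | ZFSet.pair (w 0).1 (w 1).1 ∈ z}
    have hXg : ∀ x y, ![x, y] ∈ X ↔ g x = dn y := fun x y => (hz' x (dn y)).symm
    have hXg' : ∀ x y, ![x, y] ∈ X ↔ y = inc h (g x) := fun x y => by
      rw [hXg]
      constructor
      · intro e
        rw [e, hup]
      · intro e
        rw [e, hdn]
    refine ⟨X, ?_, (key X).2 ⟨?_, ?_, ?_, ?_, ?_, ?_⟩⟩
    · have h1 := inN_of_dfn hN 𝔅.memA (n := 2) (P := fun v => ZFSet.pair (v 0).1 (v 1).1 ∈ (⟨z, hz⟩ : N).1)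
        (Dfn.pairMem (DT.var _) (DT.var _) (DT.const _))
      exact h1
    · intro x
      exact ⟨inc h (g x), (hXg' x _).2 rfl⟩
    · intro y
      exact ⟨g.symm (dn y), (hXg _ y).2 (g.apply_symm_apply _)⟩
    · intro x y y' e e'
      rw [(hXg' x y).1 e, (hXg' x y').1 e']
    · intro x x' y e e'
      exact g.injective (((hXg x y).1 e).trans ((hXg x' y).1 e').symm)
    · intro r w u hw
      rw [hR, hgR]
      have h1 : (fun i => g (w i)) = fun i => dn (u i) := funext fun i => (hXg _ _).1 (hw i)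
      rw [h1]
    · intro f w u hw hl
      rw [hF]
      have h1 : (fun i => dn (u (Fin.castSucc i))) = fun i => g (w i) := funext fun i => ((hXg _ _).1 (hw i)).symm
      rw [h1, ← hgF]
      exact ((hXg _ _).1 hl).symm

end Pool.Agent.H17.CF.PE
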