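import Pool.Agent.H17.CF.E.Syn

/-!
# MP_9b819f_lc, part E, job E8: least tuples

`Lst w (p :: L) Φ = Lst w L Φ'` with `Φ' τ := Φ τ ∧ ∀ τ' ∈ N, Φ τ' → W (τ p) (τ' p)`.

* `Lst.imp`: induction on `L` (`Φ` general): `Lst w L Φ' τ → Φ' τ → Φ τ`.
* `Lst.exists`: induction on `L`: `Φ'` is satisfied by some `τ`: `C = {X | ∃ τ, AN N τ ∧ Φ τ ∧ X = τ p.1 p.2}` is a
  nonempty class of `InN` relations, `w.min` gives `τ p.1 p.2 ∈ C` with `W (τ p) Y` for all `Y ∈ C`.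
* `Lst.unique`: induction on `L`: for `q ∈ L` the induction hypothesis for `Φ'`; for `p`: `Φ' τ` and `Φ' τ'` (`Lst.imp`)
  give `W (τ p) (τ' p)` and `W (τ' p) (τ p)`, `w.anti`.
* `Lst.congr`: induction on `L` (`Φ` general): `Φ'` depends only on `L0` as well (`τ p = τ' p` since `p ∈ L0`).
-/

set_option autoImplicit false
set_option linter.unusedVariables false
set_option linter.unusedSectionVars false
set_option linter.unusedSimpArgs false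

open Pool.Agent.H17.Omega Pool.Agent.H17.Omega.CTM Pool.Agent.H52.GC Pool.Agent.H7.IG

namespace Pool.Agent.H17.CF.PE

variable {N : Set ZFSet.{0}} {κ : Ordinal.{0}}

/-- The sharpened property. -/
private def shp (w : WoAt N κ) (p : ℕ × ℕ) (Φ : Asg (El κ.toZFSet) → Prop) (τ : Asg (El κ.toZFSet)) : Prop :=
  Φ τ ∧ ∀ τ' : Asg (El κ.toZFSet), AN N τ' → Φ τ' → w.W p.1 (τ p.1 p.2) (τ' p.1 p.2)

private theorem lst_cons (w : WoAt N κ) (p : ℕ × ℕ) (L : List (ℕ × ℕ)) (Φ : Asg (El κ.toZFSet) → Prop)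
    (τ : Asg (El κ.toZFSet)) : Lst w (p :: L) Φ τ ↔ Lst w L (shp w p Φ) τ := Iff.rfl

theorem Lst.imp (w : WoAt N κ) : ∀ {L : List (ℕ × ℕ)} {Φ : Asg (El κ.toZFSet) → Prop} {τ : Asg (El κ.toZFSet)},
    Lst w L Φ τ → Φ τ := by
  intro L
  induction L with
  | nil => intro Φ τ h; exact h
  | cons p L ih =>
    intro Φ τ h
    exact (ih ((lst_cons w p L Φ τ).1 h)).1

theorem Lst.exists (w : WoAt N κ) : ∀ (L : List (ℕ × ℕ)) {Φ : Asg (El κ.toZFSet) → Prop},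
    (∃ τ, AN N τ ∧ Φ τ) → ∃ τ, AN N τ ∧ Lst w L Φ τ := by
  intro L
  induction L with
  | nil => intro Φ h; exact h
  | cons p L ih =>
    intro Φ h
    have h1 : ∃ τ, AN N τ ∧ shp w p Φ τ := by
      obtain ⟨τ0, h0, h0'⟩ := h
      obtain ⟨X, ⟨τ, hτ, hΦ, rfl⟩, hmin⟩ := w.min p.1
        {X | ∃ τ : Asg (El κ.toZFSet), AN N τ ∧ Φ τ ∧ X = τ p.1 p.2}
        (by rintro X ⟨τ, hτ, _, rfl⟩; exact hτ p.1 p.2) ⟨_, τ0, h0, h0', rfl⟩
      exact ⟨τ, hτ, hΦ, fun τ' hτ' hΦ' => hmin _ ⟨τ', hτ', hΦ', rfl⟩⟩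
    obtain ⟨τ, hτ, h2⟩ := ih h1
    exact ⟨τ, hτ, (lst_cons w p L Φ τ).2 h2⟩

theorem Lst.unique (w : WoAt N κ) : ∀ {L : List (ℕ × ℕ)} {Φ : Asg (El κ.toZFSet) → Prop}
    {τ τ' : Asg (El κ.toZFSet)}, AN N τ → AN N τ' → Lst w L Φ τ → Lst w L Φ τ' →
    ∀ n i, (n, i) ∈ L → τ n i = τ' n i := by
  intro L
  induction L with
  | nil => intro Φ τ τ' _ _ _ _ n i h; exact absurd h List.not_mem_nil
  | cons p L ih =>
    intro Φ τ τ' hτ hτ' h h' n i hm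
    have h1 := (lst_cons w p L Φ τ).1 h
    have h1' := (lst_cons w p L Φ τ').1 h'
    rcases List.mem_cons.1 hm with h2 | h2
    · subst h2
      have h3 := Lst.imp w h1
      have h3' := Lst.imp w h1'
      exact w.anti _ _ _ (hτ _ _) (hτ' _ _) (h3.2 τ' hτ' h3'.1) (h3'.2 τ hτ h3.1)
    · exact ih hτ hτ' h1 h1' n i h2

theorem Lst.congr (w : WoAt N κ) {L0 : List (ℕ × ℕ)} : ∀ {L : List (ℕ × ℕ)}, (∀ p ∈ L, p ∈ L0) →
    ∀ {Φ : Asg (El κ.toZFSet) → Prop},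
    (∀ τ τ' : Asg (El κ.toZFSet), (∀ n i, (n, i) ∈ L0 → τ n i = τ' n i) → (Φ τ ↔ Φ τ')) →
    ∀ τ τ' : Asg (El κ.toZFSet), (∀ n i, (n, i) ∈ L0 → τ n i = τ' n i) → (Lst w L Φ τ ↔ Lst w L Φ τ') := by
  intro L
  induction L with
  | nil => intro _ Φ hΦ τ τ' h; exact hΦ τ τ' h
  | cons p L ih =>
    intro hL Φ hΦ τ τ' h
    rw [lst_cons, lst_cons]
    refine ih (fun q hq => hL q (List.mem_cons_of_mem _ hq)) ?_ τ τ' h
    intro σ σ' hσ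
    have hp : σ p.1 p.2 = σ' p.1 p.2 := hσ _ _ (hL p List.mem_cons_self)
    unfold shp
    rw [hΦ σ σ' hσ, hp]

end Pool.Agent.H17.CF.PE
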