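import Pool.Agent.H17.CF.E.Syn

/-!
# MP_9b819f_lc, part E, job E9: the least tuple is definable

* `dfK_lst`: induction on `L` (`Φ` general, for all offsets `o ≥ 1` at the same time). `Φ'` is definable at each offset
  `o ≥ 1`: let `B` be larger than all second components of `L0` and of `p`, `o' = o + B`, `L' = L0.map (fun q => (q.1, o' +
  q.2))`, formula `fand φ_o (fallRL L' (.imp φ_{o'} ω))` where `φ_o`, `φ_{o'}` define `Φ` at `o`, `o'` and `ω` defines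
  `W p.1 (ρ p.1 (o + p.2)) (ρ p.1 (o' + p.2))` (`w.def' p.1 (o + p.2 - 1) (o' + p.2 - 1) V`). Meaning: `sat_allRL`: `ρ'` agrees
  with `ρ` outside of `L'`, so `ρ' 2 0 = ρ 2 0` (`o' ≥ 1`), `shf o ρ'` agrees with `shf o ρ` on `L0` and at `p`, and `τ' =
  shf o' ρ'` is arbitrary on `L0`: given `τ' ∈ N` take `ρ' n i = if (n, i) ∈ L' then τ' n (i - o') else ρ n i`. Since
  `Φ` depends only on `L0` and `p ∈ L0` this is enough.
-/

set_option autoImplicit false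
set_option linter.unusedVariables false
set_option linter.unusedSectionVars false
set_option linter.unusedSimpArgs false

open Pool.Agent.H17.Omega Pool.Agent.H17.Omega.CTM Pool.Agent.H52.GC Pool.Agent.H7.IG

namespace Pool.Agent.H17.CF.PE

variable {N : Set ZFSet.{0}} {κ : Ordinal.{0}}

theorem exists_bd (L : List (ℕ × ℕ)) : ∃ B, ∀ q ∈ L, q.2 < B := by
  induction L with
  | nil => exact ⟨0, by simp⟩
  | cons p L ih =>
    obtain ⟨B, hB⟩ := ih
    refine ⟨B + p.2 + 1, fun q hq => ?_⟩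
    rcases List.mem_cons.1 hq with rfl | hq
    · omega
    · have := hB q hq; omega

theorem dfK_step (w : WoAt N κ) (V : Voc) (L0 : List (ℕ × ℕ)) (p : ℕ × ℕ) (hp : p ∈ L0)
    (Φ : Asg (El κ.toZFSet) → Prop)
    (hc : ∀ τ τ' : Asg (El κ.toZFSet), (∀ n i, (n, i) ∈ L0 → τ n i = τ' n i) → (Φ τ ↔ Φ τ'))
    (hd : ∀ o, 1 ≤ o → DfK N κ V (fun ρ => Φ (shf o ρ))) (o : ℕ) (ho : 1 ≤ o) :
    DfK N κ V (fun ρ => Φ (shf o ρ) ∧ ∀ τ' : Asg (El κ.toZFSet), AN N τ' → Φ τ' →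
      w.W p.1 (shf o ρ p.1 p.2) (τ' p.1 p.2)) := by
  obtain ⟨B, hB⟩ := exists_bd L0
  have hpB := hB p hp
  set o' := o + B with ho'
  set L' : List (ℕ × ℕ) := L0.map (fun q => (q.1, o' + q.2)) with hL'
  have hmem : ∀ n i, (n, i) ∈ L' → o' ≤ i := by
    intro n i h
    obtain ⟨q, _, hq⟩ := List.mem_map.1 h
    rw [Prod.mk.injEq] at hq
    omega
  have hmem' : ∀ n i, (n, i) ∈ L0 → (n, o' + i) ∈ L' := fun n i h => List.mem_map.2 ⟨(n, i), h, rfl⟩
  obtain ⟨φ1, h1⟩ := hd o ho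
  obtain ⟨φ2, h2⟩ := hd o' (by omega)
  obtain ⟨ω, hω⟩ := w.def' p.1 (o + p.2 - 1) (o' + p.2 - 1) V
  rw [show o + p.2 - 1 + 1 = o + p.2 by omega, show o' + p.2 - 1 + 1 = o' + p.2 by omega] at hω
  refine ⟨fand φ1 (fallRL L' (.imp φ2 ω)), fun R F v ρ hρ hE => ?_⟩
  rw [sat_and, h1 R F v ρ hρ hE, sat_allRL (𝓕 := Frm N κ.toZFSet) hρ]
  refine and_congr_right fun _ => ?_
  have h20 : (2, 0) ∉ L' := fun h => by have := hmem _ _ h; omega
  have hop : (p.1, o + p.2) ∉ L' := fun h => by have := hmem _ _ h; omega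
  constructor
  · intro h τ' h3 h4
    classical
    let ρ' : Asg (El κ.toZFSet) := fun n i => if (n, i) ∈ L' then τ' n (i - o') else ρ n i
    have hρ'1 : AN N ρ' := by
      intro n i
      dsimp only [ρ']
      split_ifs
      · exact h3 _ _
      · exact hρ _ _
    have hρ'2 : ∀ n i, (n, i) ∉ L' → ρ' n i = ρ n i := by
      intro n i h; dsimp only [ρ']; rw [if_neg h]
    have hρ'3 : ∀ n i, (n, i) ∈ L0 → ρ' n (o' + i) = τ' n i := by
      intro n i h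
      dsimp only [ρ']
      rw [if_pos (hmem' n i h), Nat.add_sub_cancel_left]
    have hE' : ρ' 2 0 = {w | (w 0).1 ∈ (w 1).1} := by rw [hρ'2 _ _ h20]; exact hE
    have h5 := h ρ' hρ'1 hρ'2
    rw [sat_imp, h2 R F v ρ' hρ'1 hE', hω R F v ρ' hρ'1 hE'] at h5
    beta_reduce at h5
    rw [hρ'2 _ _ hop, hρ'3 _ _ hp] at h5
    exact h5 ((hc (shf o' ρ') τ' fun n i hi => hρ'3 n i hi).2 h4)
  · intro h ρ' h3 h4
    have hE' : ρ' 2 0 = {w | (w 0).1 ∈ (w 1).1} := by rw [h4 _ _ h20]; exact hE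
    rw [sat_imp, h2 R F v ρ' h3 hE', hω R F v ρ' h3 hE']
    beta_reduce
    rw [h4 _ _ hop]
    intro h5
    exact h (shf o' ρ') (shf_an h3 o') h5

/-- The least tuple is definable. -/
theorem dfK_lst (w : WoAt N κ) (V : Voc) (L0 : List (ℕ × ℕ)) : ∀ (L : List (ℕ × ℕ)), (∀ p ∈ L, p ∈ L0) →
    ∀ (Φ : Asg (El κ.toZFSet) → Prop),
    (∀ τ τ' : Asg (El κ.toZFSet), (∀ n i, (n, i) ∈ L0 → τ n i = τ' n i) → (Φ τ ↔ Φ τ')) →
    (∀ o, 1 ≤ o → DfK N κ V (fun ρ => Φ (shf o ρ))) → ∀ o, 1 ≤ o → DfK N κ V (fun ρ => Lst w L Φ (shf o ρ)) := by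
  intro L
  induction L with
  | nil => intro _ Φ _ hd o ho; exact hd o ho
  | cons p L ih =>
    intro hL Φ hc hd o ho
    have hp : p ∈ L0 := hL p List.mem_cons_self
    refine ih (fun q hq => hL q (List.mem_cons_of_mem _ hq)) (fun τ => Φ τ ∧ ∀ τ' : Asg (El κ.toZFSet), AN N τ' →
      Φ τ' → w.W p.1 (τ p.1 p.2) (τ' p.1 p.2)) (fun τ τ' h => ?_) (fun o ho => ?_) o ho
    · rw [hc τ τ' h, h p.1 p.2 hp]
    · exact dfK_step w V L0 p hp Φ hc hd o ho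

end Pool.Agent.H17.CF.PE
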