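import Pool.Agent.H17.CF.E.Psi
import Pool.Agent.H17.CF.E.Card

/-!
# MP_9b819f_lc, part E: from definable well-orders to categoricity
-/

set_option autoImplicit false
set_option linter.unusedVariables false
set_option linter.unusedSectionVars false
set_option linter.unusedSimpArgs false

open Pool.Agent.H17.Omega Pool.Agent.H17.Omega.CTM Pool.Agent.H52.GC Pool.Agent.H7.IG

namespace Pool.Agent.H17.CF.PE

variable {N : Set ZFSet.{0}}

/-- If the relations on `κ` have second-order definable well-orders (in `N`), then finite complete second-order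
theories with a model of cardinality `κ` are categorical, in `N`. -/
theorem E_main (hN : CTM N) {κ : Ordinal.{0}} (hκN : κ.toZFSet ∈ N)
    (hκ : ∀ α < κ, ¬ Cvr N α.toZFSet κ.toZFSet) (w : WoAt N κ) : CatAt N κ := by
  rintro V T hT hc ⟨𝔄₀, h0, hcard⟩ 𝔄 𝔅 h𝔄 h𝔅
  -- every model is isomorphic to a model with universe `κ`
  have key : ∀ 𝔄 : Str N V, Models 𝔄 T → ∃ 𝔄' : Str N V, 𝔄'.A = κ.toZFSet ∧ Models 𝔄' T ∧ Isom 𝔄 𝔄' := by
    intro 𝔄 h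
    obtain ⟨f, hf⟩ := models_card hN hκN hT hc h0 hcard 𝔄 h
    have hf' := BijN.symm hN hκN 𝔄.memA hf
    exact ⟨Str.tr hN 𝔄 hκN f.symm hf', rfl, fun φ hφ => (Str.holds_tr hN 𝔄 hκN f.symm hf' φ).2 (h φ hφ),
      Str.isom_tr hN 𝔄 hκN f.symm hf'⟩
  obtain ⟨𝔄₁, h1, h2, _⟩ := key 𝔄₀ h0
  obtain ⟨𝔄', ψ, hM, hA, hψ⟩ := exists_psi hN hκN hκ w T hT ⟨𝔄₁, h1, h2⟩
  have hall : ∀ 𝔄 : Str N V, Models 𝔄 T → Isom 𝔄 𝔄' := by
    intro 𝔄 h
    rcases complete_or hN hc ψ with h3 | h3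
    · obtain ⟨𝔄₂, h4, h5, h6⟩ := key 𝔄 h
      exact Isom.trans hN h6 ((hψ 𝔄₂ h4).1 (h3 𝔄₂ h5))
    · exact (h3 𝔄' hM ((hψ 𝔄' hA).2 (Isom.refl hN 𝔄'))).elim
  exact Isom.trans hN (hall 𝔄 h𝔄) (Isom.symm hN (hall 𝔅 h𝔅))

end Pool.Agent.H17.CF.PE
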