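import Pool.Agent.H17.CF.E.InN
import Pool.Agent.H7.IG.Tk4
import Pool.Agent.H17.Omega.CtmW

/-!
# MP_9b819f_lc, part E, job E11: the order of a cardinal of `N`

`κ` is a cardinal of `N` (no `α < κ` covers `κ`).

* `wo_mem`: the order of `κ` has the properties `WO`. `irr`: `ZFSet.mem_irrefl`; `tr`, `tot`: elements of `κ.toZFSet` are
  `α.toZFSet` with `α < κ`; `wf`: foundation (`ZFSet.regularity` or the least ordinal); `card`: with `a = α.toZFSet`, the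
  relation `G` restricted to `a × κ` gives `Cvr N α.toZFSet κ.toZFSet` (`cvr_of_dfn`, `InN.dfn`), contradiction.
* `WO.exists_iso`: let `D = κ.toZFSet`, `E' = {pair x y : x, y ∈ D, ![x, y] ∈ E}` (`∈ N` by separation, from the code of
  `E`). Every nonempty `c ∈ N`, `c ⊆ D` has an `E'`-minimal element (`WO.wf` for `X = {w | (w 0).1 ∈ c}`, `InN` by `inN_of_dfn`).
  `exists_collapse_of_min` (H17/Omega/CtmW) gives a definable `F : N → N` with `z ∈ F x ↔ ∃ y, pair y x ∈ E' ∧ F y = z`.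
  For `x ∈ D`: `F x` is transitive (transitivity of `E`) and all its elements `F y` are transitive, so `F x` is an
  ordinal (`ZFSet.IsOrdinal`); `F` is injective on `D` (`tot`, `y E x` gives `F y ∈ F x`). The range `γ = {F x : x ∈ D}` is in `N`
  (`hN.exists_repl`), transitive, a set of ordinals, so `γ = γ'.toZFSet` for an ordinal `γ'`. `F⁻¹` shows
  `Cvr N γ κ`, so not `γ' < κ`. If `κ < γ'` then `κ.toZFSet ∈ γ`, so `κ.toZFSet = F a` with `a ∈ D`: then `G = {(x, y) : F x = y}`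
  shows that the initial segment of `a` covers `κ`: contradiction to `WO.card`. So `γ' = κ`, and `f x = F x` is the
  bijection (`bijN_of_dfn`); `![x, y] ∈ E ↔ F x ∈ F y`: `→` clear; `←`: `F x = F x'` with `x' E y`, so `x = x'`.
-/

set_option autoImplicit false
set_option linter.unusedVariables false
set_option linter.unusedSectionVars false
set_option linter.unusedSimpArgs false

open Pool.Agent.H17.Omega Pool.Agent.H17.Omega.CTM Pool.Agent.H52.GC Pool.Agent.H7.IG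

namespace Pool.Agent.H17.CF.PE

variable {N : Set ZFSet.{0}}

theorem el_ord {κ : Ordinal.{0}} (x : El κ.toZFSet) : ∃ α < κ, x.1 = α.toZFSet := by
  obtain ⟨α, hα, h⟩ := Ordinal.mem_toZFSet_iff.1 x.2
  exact ⟨α, hα, h.symm⟩

theorem mem_Ek {κ : Ordinal.{0}} {x y : El κ.toZFSet} : ![x, y] ∈ Ek κ ↔ x.1 ∈ y.1 := Iff.rfl

theorem wo_mem (hN : CTM N) {κ : Ordinal.{0}} (hκN : κ.toZFSet ∈ N)
    (hκ : ∀ α < κ, ¬ Cvr N α.toZFSet κ.toZFSet) : WO N (Ek κ) := by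
  refine ⟨?_, ?_, ?_, ?_, ?_⟩
  · intro x hx
    exact ZFSet.mem_irrefl _ (mem_Ek.1 hx)
  · intro x y z h1 h2
    rw [mem_Ek] at *
    obtain ⟨γ, _, hz⟩ := el_ord z
    rw [hz] at h2 ⊢
    exact (ZFSet.isOrdinal_toZFSet γ).isTransitive _ h2 h1
  · intro x y hxy
    obtain ⟨α, _, hx⟩ := el_ord x
    obtain ⟨β, _, hy⟩ := el_ord y
    rw [mem_Ek, mem_Ek, hx, hy, Ordinal.toZFSet_mem_toZFSet_iff, Ordinal.toZFSet_mem_toZFSet_iff]
    rcases lt_trichotomy α β with h | h | h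
    · exact Or.inl h
    · exact (hxy (Subtype.ext (by rw [hx, hy, h]))).elim
    · exact Or.inr h
  · intro X _ hXne
    obtain ⟨x, hx, hmin⟩ := WellFounded.has_min (InvImage.wf (fun w : Fin 1 → El κ.toZFSet => (w 0).1.rank)
      Ordinal.lt_wf) X hXne
    refine ⟨x, hx, fun y hy hyx => hmin y hy ?_⟩
    exact ZFSet.rank_lt_of_mem (mem_Ek.1 hyx)
  · rintro a ⟨G, hG, huni, hcov⟩
    obtain ⟨α, hα, ha⟩ := el_ord a
    obtain ⟨P, hP, hP'⟩ := InN.dfn hN hκN hG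
    have hpair : ∀ x y : El κ.toZFSet, ![x, y] ∈ G ↔ P ![el hN hκN x, el hN hκN y] := by
      intro x y
      rw [hP']
      have : (fun i => el hN hκN (![x, y] i)) = ![el hN hκN x, el hN hκN y] := by
        funext i; fin_cases i <;> rfl
      rw [this]
    refine hκ α hα (cvr_of_dfn hN (F := fun y x => P ![y, x] ∧ x.1 ∈ (⟨κ.toZFSet, hκN⟩ : N).1) ?_
      (hN.toZFSet_mem_of_le hα.le hκN) hκN ?_ ?_)
    · refine Dfn.and (hP.congr fun v => ?_) (Dfn.mem (DT.var _) (DT.const _))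
      have : v = ![v 0, v 1] := by funext i; fin_cases i <;> rfl
      rw [← this]
    · intro y hy x x' h1 h2
      have hyκ : y.1 ∈ κ.toZFSet := Ordinal.toZFSet_monotone hα.le hy
      have e := huni ⟨y.1, hyκ⟩ ⟨x.1, h1.2⟩ ⟨x'.1, h2.2⟩ ((hpair _ _).2 h1.1) ((hpair _ _).2 h2.1)
      exact Subtype.ext (congrArg (fun z : El κ.toZFSet => z.1) e)
    · intro x hx
      obtain ⟨y, h1, h2⟩ := hcov ⟨x.1, hx⟩
      refine ⟨el hN hκN y, ?_, (hpair _ _).1 h2, hx⟩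
      have h3 := mem_Ek.1 h1
      rw [ha] at h3
      exact h3

theorem WO.exists_iso (hN : CTM N) {κ : Ordinal.{0}} (hκN : κ.toZFSet ∈ N)
    (hκ : ∀ α < κ, ¬ Cvr N α.toZFSet κ.toZFSet) {E : Set (Fin 2 → El κ.toZFSet)} (hE : InN N E) (h : WO N E) :
    ∃ f : El κ.toZFSet ≃ El κ.toZFSet, BijN N f ∧ ∀ x y, ![x, y] ∈ E ↔ (f x).1 ∈ (f y).1 := by
  classical
  obtain ⟨P, hP, hP'⟩ := InN.dfn hN hκN hE
  have hpair : ∀ x y : El κ.toZFSet, ![x, y] ∈ E ↔ P ![el hN hκN x, el hN hκN y] := by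
    intro x y
    rw [hP']
    have : (fun i => el hN hκN (![x, y] i)) = ![el hN hκN x, el hN hκN y] := by
      funext i; fin_cases i <;> rfl
    rw [this]
  have hP2 : hN.Dfn (fun v : Fin 2 → N => P ![v 0, v 1]) := hP.congr fun v => by
    have : v = ![v 0, v 1] := by funext i; fin_cases i <;> rfl
    rw [← this]
  obtain ⟨E', hE', hE''⟩ := hN.exists_sep (P := fun z => ∃ x y : N, z.1 = ZFSet.pair x.1 y.1 ∧ P ![x, y])
    (Dfn.exPair (P := fun v x y => P ![x, y]) (DT.var _)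
      (Dfn.subst2 (P := fun x y => P ![x, y]) hP2 (DT.var _) (DT.var _)))
    (hN.prod_mem hκN hκN)
  have hEm : ∀ x y : El κ.toZFSet, ZFSet.pair x.1 y.1 ∈ E' ↔ ![x, y] ∈ E := by
    intro x y
    rw [hE'', hpair, ZFSet.pair_mem_prod]
    constructor
    · rintro ⟨_, _, x', y', h2, h3⟩
      have h2 : ZFSet.pair x.1 y.1 = ZFSet.pair x'.1 y'.1 := h2
      rw [ZFSet.pair_inj] at h2
      have e1 : el hN hκN x = x' := Subtype.ext h2.1
      have e2 : el hN hκN y = y' := Subtype.ext h2.2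
      rw [e1, e2]; exact h3
    · intro h1
      exact ⟨⟨x.2, y.2⟩, hN.pair_mem (el hN hκN x).2 (el hN hκN y).2, el hN hκN x, el hN hκN y, rfl, h1⟩
  have hED : ∀ y x, ZFSet.pair y x ∈ E' → y ∈ κ.toZFSet ∧ x ∈ κ.toZFSet := by
    intro y x hyx
    have := ((hE'' _).1 hyx).1
    rwa [ZFSet.pair_mem_prod] at this
  have hmin : ∀ c ∈ N, c ⊆ κ.toZFSet → c ≠ ∅ → ∃ m ∈ c, ∀ z ∈ c, ZFSet.pair z m ∉ E' := by
    intro c hc hcκ hcne
    have hX : InN N {w : Fin 1 → El κ.toZFSet | (w 0).1 ∈ c} :=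
      inN_of_dfn hN hκN (P := fun v : Fin 1 → N => (v 0).1 ∈ (⟨c, hc⟩ : N).1)
        (Dfn.mem (DT.var _) (DT.const _))
    have hx0 : ∃ x0, x0 ∈ c := by
      by_contra hcon
      push Not at hcon
      exact hcne ((ZFSet.eq_empty c).2 hcon)
    obtain ⟨x0, hx0⟩ := hx0
    obtain ⟨x, hx, hmin⟩ := h.wf _ hX ⟨fun _ => ⟨x0, hcκ hx0⟩, hx0⟩
    refine ⟨(x 0).1, hx, fun z hz hzx => ?_⟩
    have h1 := hmin (fun _ => ⟨z, hcκ hz⟩) hz
    exact h1 ((hEm ⟨z, hcκ hz⟩ (x 0)).1 hzx)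
  obtain ⟨F, hF, hFm⟩ := exists_collapse_of_min hN hκN hE' hED hmin
  -- basic properties
  have hmemF : ∀ x : N, ∀ z, z ∈ (F x).1 → ∃ y : N, ZFSet.pair y.1 x.1 ∈ E' ∧ (F y).1 = z := by
    intro x z hz
    obtain ⟨y, h1, h2⟩ := (hFm x ⟨z, hN.mem_of_mem (F x).2 hz⟩).1 hz
    exact ⟨y, h1, congrArg Subtype.val h2⟩
  have htrans : ∀ x : N, (F x).1.IsTransitive := by
    intro x z hz w hw
    obtain ⟨y, h1, rfl⟩ := hmemF x z hz
    obtain ⟨u, h2, rfl⟩ := hmemF y w hw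
    refine (hFm x (F u)).2 ⟨u, ?_, rfl⟩
    have e1 := hED _ _ h1
    have e2 := hED _ _ h2
    exact (hEm ⟨u.1, e2.1⟩ ⟨x.1, e1.2⟩).2 (h.tr _ ⟨y.1, e1.1⟩ _
      ((hEm ⟨u.1, e2.1⟩ ⟨y.1, e1.1⟩).1 h2) ((hEm ⟨y.1, e1.1⟩ ⟨x.1, e1.2⟩).1 h1))
  have hlt : ∀ x y : El κ.toZFSet, ![x, y] ∈ E → (F (el hN hκN x)).1 ∈ (F (el hN hκN y)).1 := by
    intro x y hxy
    exact (hFm _ _).2 ⟨el hN hκN x, (hEm x y).2 hxy, rfl⟩
  have hinj : ∀ x y : El κ.toZFSet, F (el hN hκN x) = F (el hN hκN y) → x = y := by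
    intro x y hxy
    by_contra hne
    rcases h.tot x y hne with h1 | h1
    · have := hlt x y h1
      rw [hxy] at this
      exact ZFSet.mem_irrefl _ this
    · have := hlt y x h1
      rw [hxy] at this
      exact ZFSet.mem_irrefl _ this
  have hiff : ∀ x y : El κ.toZFSet, ![x, y] ∈ E ↔ (F (el hN hκN x)).1 ∈ (F (el hN hκN y)).1 := by
    intro x y
    refine ⟨hlt x y, fun h1 => ?_⟩
    obtain ⟨u, h2, h3⟩ := (hFm _ _).1 h1
    have e2 := hED _ _ h2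
    have h4 : (⟨u.1, e2.1⟩ : El κ.toZFSet) = x := hinj _ _ h3
    rw [← h4]
    exact (hEm ⟨u.1, e2.1⟩ y).1 h2
  obtain ⟨b, hb, hb'⟩ := hN.exists_repl (F := fun x z => F x = z) hF hκN
    (fun x _ y y' h1 h2 => h1.symm.trans h2)
  have hbm : ∀ z, z ∈ b → ∃ x : El κ.toZFSet, (F (el hN hκN x)).1 = z := by
    intro z hz
    obtain ⟨x, hx, h1⟩ := (hb' ⟨z, hN.mem_of_mem hb hz⟩).1 hz
    exact ⟨⟨x.1, hx⟩, congrArg Subtype.val h1⟩
  have hbm' : ∀ x : El κ.toZFSet, (F (el hN hκN x)).1 ∈ b := by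
    intro x
    exact (hb' _).2 ⟨el hN hκN x, x.2, rfl⟩
  have hbt : b.IsTransitive := by
    intro z hz w hw
    obtain ⟨x, rfl⟩ := hbm z hz
    obtain ⟨y, h1, rfl⟩ := hmemF _ w hw
    exact hbm' ⟨y.1, (hED _ _ h1).1⟩
  have hbo : b.IsOrdinal := by
    rw [ZFSet.isOrdinal_iff_forall_mem_isTransitive]
    refine ⟨hbt, fun z hz => ?_⟩
    obtain ⟨x, rfl⟩ := hbm z hz
    exact htrans _
  have hbγ : b.rank.toZFSet = b := hbo.toZFSet_rank_eq
  have hγκ : b.rank = κ := by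
    rcases lt_trichotomy b.rank κ with h1 | h1 | h1
    · exfalso
      refine hκ _ h1 ?_
      rw [hbγ]
      refine cvr_of_dfn hN (F := fun y x => F x = y ∧ x.1 ∈ (⟨κ.toZFSet, hκN⟩ : N).1) ?_ hb hκN ?_ ?_
      · exact Dfn.and (Dfn.subst2 (P := fun x y => F x = y) hF (DT.var _) (DT.var _))
          (Dfn.mem (DT.var _) (DT.const _))
      · intro y _ x x' h2 h3
        have h4 := hinj ⟨x.1, h2.2⟩ ⟨x'.1, h3.2⟩ (h2.1.trans h3.1.symm)
        exact Subtype.ext (congrArg (fun z : El κ.toZFSet => z.1) h4)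
      · intro x hx
        exact ⟨F x, hbm' ⟨x.1, hx⟩, rfl, hx⟩
    · exact h1
    · exfalso
      have h2 : κ.toZFSet ∈ b := by
        rw [← hbγ]; exact Ordinal.toZFSet_mem_toZFSet_iff.2 h1
      obtain ⟨a, ha⟩ := hbm _ h2
      refine h.card a ⟨{w : Fin 2 → El κ.toZFSet | F (el hN hκN (w 0)) = el hN hκN (w 1)},
        inN_of_dfn hN hκN (P := fun v : Fin 2 → N => F (v 0) = v 1) hF, ?_, ?_⟩
      · intro x y y' h3 h4
        have h3 : F (el hN hκN x) = el hN hκN y := h3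
        have h4 : F (el hN hκN x) = el hN hκN y' := h4
        have h5 := h3.symm.trans h4
        exact Subtype.ext (congrArg (fun z : N => z.1) h5)
      · intro y
        have hy := y.2
        have hy' : y.1 ∈ (F (el hN hκN a)).1 := by rw [ha]; exact hy
        obtain ⟨x, h3, h4⟩ := (hFm (el hN hκN a) (el hN hκN y)).1 hy'
        have e2 := hED _ _ h3
        exact ⟨⟨x.1, e2.1⟩, (hEm ⟨x.1, e2.1⟩ a).1 h3, h4⟩
  have hbκ : b = κ.toZFSet := by rw [← hbγ, hγκ]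
  let f0 : El κ.toZFSet → El κ.toZFSet := fun x => ⟨(F (el hN hκN x)).1, hbκ ▸ hbm' x⟩
  have hf0 : Function.Bijective f0 := by
    constructor
    · intro x y hxy
      apply hinj
      exact Subtype.ext (congrArg (fun z : El κ.toZFSet => z.1) hxy)
    · intro y
      have hy : y.1 ∈ b := by rw [hbκ]; exact y.2
      obtain ⟨x, hx⟩ := hbm y.1 hy
      exact ⟨x, Subtype.ext hx⟩
  refine ⟨Equiv.ofBijective f0 hf0, ?_, ?_⟩
  · refine bijN_of_dfn hN hκN hκN (F := fun x y => F x = y) hF _ ?_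
    intro a c
    show f0 a = c ↔ F (el hN hκN a) = el hN hκN c
    constructor
    · rintro rfl; rfl
    · intro h1
      exact Subtype.ext (congrArg (fun z : N => z.1) h1)
  · intro x y
    exact hiff x y

end Pool.Agent.H17.CF.PE
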