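import Pool.Agent.H17.CF.E.RelT
import Pool.Agent.H17.CF.E.Code

/-!
# MP_9b819f_lc, part E: the property `Phi` of tuples
-/

set_option autoImplicit false
set_option linter.unusedVariables false
set_option linter.unusedSectionVars false
set_option linter.unusedSimpArgs false

open Pool.Agent.H17.Omega Pool.Agent.H17.Omega.CTM Pool.Agent.H52.GC Pool.Agent.H7.IG

namespace Pool.Agent.H17.CF.PE

variable {N : Set ZFSet.{0}}

theorem Phi.congr {κ : Ordinal.{0}} {V : Voc} {T : List (Fo V)} (τ τ' : Asg (El κ.toZFSet))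
    (h : ∀ n i, (n, i) ∈ blk V 0 → τ n i = τ' n i) : Phi (N := N) κ T τ ↔ Phi (N := N) κ T τ' := by
  constructor
  · rintro ⟨𝔄, h1, h2, h3, h4⟩
    exact ⟨𝔄, h1, h2, h3, h4.congr fun n i hni => (h n i hni).symm⟩
  · rintro ⟨𝔄, h1, h2, h3, h4⟩
    exact ⟨𝔄, h1, h2, h3, h4.congr fun n i hni => h n i hni⟩

theorem dfK_phi (hN : CTM N) {κ : Ordinal.{0}} (hκN : κ.toZFSet ∈ N) {V : Voc} (T : List (Fo V))
    (hT : ∀ φ ∈ T, Sentence φ) (o : ℕ) : DfK N κ V (fun ρ => Phi (N := N) κ T (shf o ρ)) := by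
  obtain ⟨g, hg⟩ := exists_goodF V V o
  obtain ⟨t, ht⟩ := exists_relT hN V V o T hT
  refine ⟨fand (.all 0 (.app 1 o (fun _ => .var 0))) (fand g t), fun R F v ρ hρ _ => ?_⟩
  rw [sat_and, sat_and, hg]
  simp only [sat_all, sat_app, val_var, Function.update_self]
  constructor
  · rintro ⟨h1, h2, h3⟩
    obtain ⟨𝔄, h𝔄, hcd⟩ := h2.exists_str hN hκN hρ
    refine ⟨𝔄, h𝔄, fun x hx => (hcd.P ⟨x, hx⟩).1 (h1 ⟨x, hx⟩), (ht R F 𝔄 h𝔄 v ρ hcd).1 h3, cds_shf.2 hcd⟩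
  · rintro ⟨𝔄, h𝔄, h1, h2, h3⟩
    have hcd := cds_shf.1 h3
    exact ⟨fun x => (hcd.P x).2 (h1 x.2), hcd.good, (ht R F 𝔄 h𝔄 v ρ hcd).2 h2⟩

end Pool.Agent.H17.CF.PE
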