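import Pool.Agent.H17.CF.E.Syn

/-!
# MP_9b819f_lc, part E, job E10: the formula for `WO`

With `E x y = .app 2 0 ![.var x, .var y]`, `X x = .app 1 0 (fun _ => .var x)`, `G x y = .app 2 1 ![.var x, .var y]`, the
conjunction of: `.all 0 (fneg (E 0 0))`; transitivity; `.all 0 (.all 1 (.imp (fneg (.eq (.var 0) (.var 1))) (foor (E 0 1)
(E 1 0))))`; `.allR 1 0 (.imp (fex 0 (X 0)) (fex 0 (fand (X 0) (.all 1 (.imp (X 1) (fneg (E 1 0)))))))`; `.all 3 (fneg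
(fexR 2 1 (fand (.all 0 (.all 1 (.all 2 (.imp (G 0 1) (.imp (G 0 2) (.eq (.var 1) (.var 2)))))))
(.all 1 (fex 0 (fand (E 0 3) (G 0 1)))))))`.
Meaning by `simp` with the `sat_*` lemmas; `(fun j => (![s, t] j).val F v) = ![s.val F v, t.val F v]` (`funext`,
`Fin.forall_fin_two`); a function `w : Fin 1 → D` is `fun _ => w 0`; `updR_ne` for the variable `(2, 0)`.
-/

set_option autoImplicit false
set_option linter.unusedVariables false
set_option linter.unusedSectionVars false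
set_option linter.unusedSimpArgs false

open Pool.Agent.H17.Omega Pool.Agent.H17.Omega.CTM Pool.Agent.H52.GC Pool.Agent.H7.IG

namespace Pool.Agent.H17.CF.PE

/-- `x E y`. -/
def wofE (V : Voc) (x y : ℕ) : Fo V := .app 2 0 ![.var x, .var y]
/-- `X x`. -/
def wofX (V : Voc) (x : ℕ) : Fo V := .app 1 0 (fun _ => .var x)
/-- `G x y`. -/
def wofG (V : Voc) (x y : ℕ) : Fo V := .app 2 1 ![.var x, .var y]

section

variable {V : Voc} {D : Type 1} {𝓕 : (n : ℕ) → Set (Set (Fin n → D))} {R : (r : Fin V.nR) → Set (Fin (V.aR r) → D)}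
  {F : (f : Fin V.nF) → (Fin (V.aF f) → D) → D} {v : ℕ → D} {ρ : Asg D}

theorem wof_two {x y : ℕ} : (fun j => ((![.var x, .var y] : Fin 2 → Tm V) j).val F v) = ![v x, v y] := by
  funext j
  fin_cases j <;> rfl

theorem sat_wofE {x y : ℕ} : SatF 𝓕 R F (wofE V x y) v ρ ↔ ![v x, v y] ∈ ρ 2 0 := by
  rw [wofE, sat_app, wof_two]

theorem sat_wofG {x y : ℕ} : SatF 𝓕 R F (wofG V x y) v ρ ↔ ![v x, v y] ∈ ρ 2 1 := by
  rw [wofG, sat_app, wof_two]

theorem sat_wofX {x : ℕ} : SatF 𝓕 R F (wofX V x) v ρ ↔ (fun _ => v x) ∈ ρ 1 0 := by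
  rw [wofX, sat_app]
  simp only [val_var]

end

theorem exists_woF (V : Voc) : ∃ φ : Fo V, ∀ {N : Set ZFSet.{0}} {A : ZFSet.{0}}
    (R : (r : Fin V.nR) → Set (Fin (V.aR r) → El A)) (F : (f : Fin V.nF) → (Fin (V.aF f) → El A) → El A)
    (v : ℕ → El A) (ρ : Asg (El A)), SatF (Frm N A) R F φ v ρ ↔ WO N (ρ 2 0) := by
  refine ⟨fand (.all 0 (fneg (wofE V 0 0))) (fand (.all 0 (.all 1 (.all 2 (.imp (wofE V 0 1) (.imp (wofE V 1 2)
    (wofE V 0 2)))))) (fand (.all 0 (.all 1 (.imp (fneg (.eq (.var 0) (.var 1))) (foor (wofE V 0 1) (wofE V 1 0)))))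
    (fand (.allR 1 0 (.imp (fex 0 (wofX V 0)) (fex 0 (fand (wofX V 0) (.all 1 (.imp (wofX V 1) (fneg (wofE V 1 0))))))))
    (.all 3 (fneg (fexR 2 1 (fand (.all 0 (.all 1 (.all 2 (.imp (wofG V 0 1) (.imp (wofG V 0 2)
      (.eq (.var 1) (.var 2)))))))
      (.all 1 (fex 0 (fand (wofE V 0 3) (wofG V 0 1))))))))))), ?_⟩
  intro N A R F v ρ
  have e1 : ∀ X : Set (Fin 1 → El A), updR ρ 1 0 X 2 0 = ρ 2 0 := fun X => updR_ne _ _ (by simp)
  have e2 : ∀ X : Set (Fin 2 → El A), updR ρ 2 1 X 2 0 = ρ 2 0 := fun X => updR_ne _ _ (by simp)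
  have n1 : (0 : ℕ) ≠ 1 := by norm_num
  have n2 : (0 : ℕ) ≠ 2 := by norm_num
  have n3 : (1 : ℕ) ≠ 2 := by norm_num
  have n4 : (3 : ℕ) ≠ 0 := by norm_num
  have n5 : (3 : ℕ) ≠ 1 := by norm_num
  simp only [sat_and, sat_all, sat_neg, sat_imp, sat_eq, sat_or, sat_allR, sat_exR, sat_ex, sat_wofE, sat_wofG, sat_wofX,
    val_var, Function.update_self, updR_same, e1, e2, mem_Frm, ne_eq, n1, n2, n3, n4, n5, not_false_eq_true,
    Function.update_of_ne]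
  constructor
  · rintro ⟨h1, h2, h3, h4, h5⟩
    refine ⟨h1, h2, h3, ?_, ?_⟩
    · intro X hX hne
      obtain ⟨x0, hx0⟩ := hne
      have e3 : ∀ x : Fin 1 → El A, (fun _ => x 0) = x := fun x => funext fun i => by
        rw [Subsingleton.elim i 0]
      obtain ⟨x, hx, h6⟩ := h4 X hX ⟨x0 0, by rw [e3]; exact hx0⟩
      refine ⟨fun _ => x, hx, fun y hy => ?_⟩
      exact h6 (y 0) (by rw [e3]; exact hy)
    · rintro a ⟨G, hG, h6, h7⟩
      exact h5 a ⟨G, hG, h6, h7⟩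
  · rintro ⟨h1, h2, h3, h4, h5⟩
    refine ⟨h1, h2, h3, ?_, ?_⟩
    · rintro X hX ⟨x0, hx0⟩
      obtain ⟨x, hx, h6⟩ := h4 X hX ⟨_, hx0⟩
      have e3 : (fun _ => x 0) = x := funext fun i => by rw [Subsingleton.elim i 0]
      exact ⟨x 0, by rw [e3]; exact hx, fun y hy => h6 _ hy⟩
    · rintro a ⟨G, hG, h6, h7⟩
      exact h5 a ⟨G, hG, h6, h7⟩

end Pool.Agent.H17.CF.PE
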