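import Pool.Agent.H17.CF.E.PhiF
import Pool.Agent.H17.CF.E.Tr
import Pool.Agent.H17.CF.E.Lst
import Pool.Agent.H17.CF.E.LstF
import Pool.Agent.H17.CF.E.IsoF
import Pool.Agent.H17.CF.E.WOF
import Pool.Agent.H17.CF.E.Ord

/-!
# MP_9b819f_lc, part E: the sentence `ψ`

`ψ`: there are an order `(2, 0)` with the properties `WO` and a least tuple `(1, 1), ...` such that the structure
is isomorphic to the coded structure.
-/

set_option autoImplicit false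
set_option linter.unusedVariables false
set_option linter.unusedSectionVars false
set_option linter.unusedSimpArgs false

open Pool.Agent.H17.Omega Pool.Agent.H17.Omega.CTM Pool.Agent.H52.GC Pool.Agent.H7.IG

namespace Pool.Agent.H17.CF.PE

variable {N : Set ZFSet.{0}}

theorem sat_exRL' {V : Voc} {A : ZFSet.{0}} {R : (r : Fin V.nR) → Set (Fin (V.aR r) → El A)}
    {F : (f : Fin V.nF) → (Fin (V.aF f) → El A) → El A} {v : ℕ → El A} {ρ : Asg (El A)} {φ : Fo V}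
    {l : List (ℕ × ℕ)} (hρ : AN N ρ) : SatF (Frm N A) R F (fexRL l φ) v ρ ↔
    ∃ ρ' : Asg (El A), AN N ρ' ∧ (∀ n i, (n, i) ∉ l → ρ' n i = ρ n i) ∧ SatF (Frm N A) R F φ v ρ' :=
  sat_exRL hρ

/-- Structures coded by the same variables, with the same universe, are isomorphic. -/
theorem Cds.isom (hN : CTM N) {V : Voc} {o : ℕ} {𝔄 𝔅 : Str N V} {A : ZFSet.{0}} {h : 𝔄.A ⊆ A} {h' : 𝔅.A ⊆ A}
    {ρ : Asg (El A)} (hc : Cds o 𝔄 h ρ) (hc' : Cds o 𝔅 h' ρ) : Isom 𝔄 𝔅 := by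
  have hx : ∀ x : ZFSet.{0}, x ∈ 𝔄.A ↔ x ∈ 𝔅.A := by
    intro x
    constructor
    · intro hx; exact (hc'.P ⟨x, h hx⟩).1 ((hc.P ⟨x, h hx⟩).2 hx)
    · intro hx; exact (hc.P ⟨x, h' hx⟩).1 ((hc'.P ⟨x, h' hx⟩).2 hx)
  let f : El 𝔄.A ≃ El 𝔅.A := ⟨fun x => ⟨x.1, (hx _).1 x.2⟩, fun x => ⟨x.1, (hx _).2 x.2⟩, fun x => rfl, fun x => rfl⟩
  have e : ∀ {n : ℕ} (w : Fin n → El 𝔄.A), (fun i => inc h' (f (w i))) = fun i => inc h (w i) := fun w => rfl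
  refine ⟨f, bijN_of_dfn hN 𝔄.memA 𝔅.memA (F := fun x y => x = y) (Dfn.eq (DT.var _) (DT.var _)) f
    (fun a b => ?_), fun r w => ?_, fun g w => ?_⟩
  · exact ⟨fun h1 => Subtype.ext (show a.1 = b.1 from congrArg (fun z : El 𝔅.A => z.1) h1),
      fun h1 => Subtype.ext (show a.1 = b.1 from congrArg (fun z : N => z.1) h1)⟩
  · rw [← hc.R r w, ← hc'.R r, e]
  · have h1 : (Fin.snoc (α := fun _ => El 𝔄.A) w (𝔄.F g w) : Fin (V.aF g + 1) → El 𝔄.A) ∈ grF (𝔄.F g) := by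
      simp only [grF, Set.mem_ofPred_eq, Fin.snoc_last, Fin.snoc_castSucc]
    rw [← hc.F g, ← e, hc'.F g (fun i => f (Fin.snoc (α := fun _ => El 𝔄.A) w (𝔄.F g w) i))] at h1
    simpa only [grF, Set.mem_ofPred_eq, Fin.snoc_last, Fin.snoc_castSucc] using h1

theorem exists_psi (hN : CTM N) {κ : Ordinal.{0}} (hκN : κ.toZFSet ∈ N)
    (hκ : ∀ α < κ, ¬ Cvr N α.toZFSet κ.toZFSet) (w : WoAt N κ) {V : Voc} (T : List (Fo V))
    (hT : ∀ φ ∈ T, Sentence φ) (hex : ∃ 𝔄 : Str N V, 𝔄.A = κ.toZFSet ∧ Models 𝔄 T) :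
    ∃ (𝔄' : Str N V) (ψ : Fo V), Models 𝔄' T ∧ 𝔄'.A = κ.toZFSet ∧
      ∀ 𝔅 : Str N V, 𝔅.A = κ.toZFSet → (Holds 𝔅 ψ ↔ Isom 𝔅 𝔄') := by
  -- the least tuple
  have hempty : AN N (fun n i => (∅ : Set (Fin n → El κ.toZFSet))) :=
    fun n i => ⟨∅, hN.empty_mem, fun w => by simp⟩
  obtain ⟨τ, hτ, hL⟩ := Lst.exists w (blk V 0) (Φ := Phi (N := N) κ T) (by
    obtain ⟨𝔄, h1, h2⟩ := hex
    obtain ⟨τ, hτ, _, hc⟩ := exists_code hN 𝔄 (A := κ.toZFSet) (fun x hx => h1 ▸ hx) hempty 0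
    exact ⟨τ, hτ, 𝔄, _, fun x hx => h1 ▸ hx, h2, hc⟩)
  obtain ⟨𝔄', h𝔄1, h𝔄2, h𝔄3, h𝔄4⟩ := Lst.imp w hL
  have h𝔄A : 𝔄'.A = κ.toZFSet := by
    ext x; exact ⟨fun h => h𝔄1 h, fun h => h𝔄2 h⟩
  -- formulas
  obtain ⟨ω, hω⟩ := exists_woF V
  obtain ⟨ι, hι⟩ := exists_isoF V 1
  obtain ⟨φ, hφ⟩ := dfK_lst w V (blk V 0) (blk V 0) (fun p hp => hp) (Phi (N := N) κ T)
    (fun τ τ' h => Phi.congr τ τ' h) (fun o _ => dfK_phi hN hκN T hT o) 1 le_rfl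
  refine ⟨𝔄', fexR 2 0 (fand ω (fexRL (blk V 1) (fand φ ι))), h𝔄3, h𝔄A, ?_⟩
  rintro ⟨B, memA, ne, R, memR, F, memF⟩ hB
  dsimp only at hB
  subst hB
  set 𝔅 : Str N V := ⟨κ.toZFSet, memA, ne, R, memR, F, memF⟩ with h𝔅
  have hw20 : ∀ {n i : ℕ}, (n, i) = (2, 0) → (n, i) ∉ blk V 1 := by
    intro n i h h'
    rw [Prod.mk.injEq] at h
    have := (blk_le h').1
    omega
  constructor
  · intro h
    obtain ⟨x0, hx0⟩ := ne
    have h1 := h (fun _ => ⟨x0, hx0⟩) (fun n i => ∅) hempty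
    rw [sat_exR] at h1
    obtain ⟨E, hE, h1⟩ := h1
    have hρ1 := updR_an hempty (n := 2) (i := 0) hE
    rw [sat_and, hω, updR_same, sat_exRL' hρ1] at h1
    obtain ⟨hWO, ρ, hρ, hρe, h2⟩ := h1
    have hρE : ρ 2 0 = E := by rw [hρe 2 0 (hw20 rfl), updR_same]
    obtain ⟨f, hf, hfE⟩ := WO.exists_iso hN hκN hκ hE hWO
    -- transport along `f`
    rw [← sat_tr hN hκN hκN hf, sat_and] at h2
    obtain ⟨h3, h4⟩ := h2
    have hρ' : AN N (fun n i => trR f (ρ n i)) := fun n i => InN.tr hN hκN hκN hf (hρ n i)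
    have hE' : (fun n i => trR f (ρ n i)) 2 0 = Ek κ := by
      ext u
      simp only [trR, Ek, Set.mem_ofPred_eq, hρE]
      have : (fun i => f.symm (u i)) = ![f.symm (u 0), f.symm (u 1)] := by
        funext i
        exact Fin.cases rfl (fun j => by rw [Subsingleton.elim j 0]; rfl) i
      rw [this, hfE, f.apply_symm_apply, f.apply_symm_apply]
    have h5 := (hφ _ _ _ _ hρ' hE').1 h3
    -- uniqueness of the least tuple
    have h6 := Lst.unique w (shf_an hρ' 1) hτ h5 hL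
    have h7 : Cds 0 𝔄' h𝔄1 (shf 1 (fun n i => trR f (ρ n i))) := h𝔄4.congr h6
    rw [cds_shf] at h7
    have h8 := (hι hN (Str.tr hN 𝔅 hκN f hf) 𝔄' h𝔄1 h𝔄2 _ _ h7).1 h4
    exact Isom.trans hN (Str.isom_tr hN 𝔅 hκN f hf) h8
  · intro h v ρ hρ
    rw [sat_exR]
    have hEk : InN N (Ek κ) := inN_of_dfn hN hκN (P := fun a : Fin 2 → N => (a 0).1 ∈ (a 1).1)
      (Dfn.mem (DT.var _) (DT.var _))
    refine ⟨Ek κ, hEk, ?_⟩
    have hρ1 := updR_an hρ (n := 2) (i := 0) hEk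
    rw [sat_and, hω, updR_same, sat_exRL' hρ1]
    refine ⟨wo_mem hN hκN hκ, ?_⟩
    -- the assignment with the least tuple at offset 1
    have hdec : ∀ p : ℕ × ℕ, Decidable (p ∈ blk V 1) := fun p => Classical.propDecidable _
    let ρ' : Asg (El κ.toZFSet) := fun n i => if (n, i) ∈ blk V 1 then τ n (i - 1) else updR ρ 2 0 (Ek κ) n i
    have hρ'1 : AN N ρ' := by
      intro n i
      dsimp only [ρ']
      split_ifs
      · exact hτ _ _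
      · exact hρ1 _ _
    have hρ'2 : ∀ n i, (n, i) ∉ blk V 1 → ρ' n i = updR ρ 2 0 (Ek κ) n i := by
      intro n i h; dsimp only [ρ']; rw [if_neg h]
    refine ⟨ρ', hρ'1, hρ'2, ?_⟩
    have hagr : ∀ n i, (n, i) ∈ blk V 0 → shf 1 ρ' n i = τ n i := by
      intro n i h
      have h1 : (n, 1 + i) ∈ blk V 1 := by
        rcases mem_blk.1 h with ⟨rfl, rfl⟩ | ⟨r, rfl, rfl⟩ | ⟨r, rfl, rfl⟩
        · exact mem_blk.2 (Or.inl ⟨rfl, rfl⟩)
        · exact mem_blk.2 (Or.inr (Or.inl ⟨r, rfl, by unfold iR; omega⟩))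
        · exact mem_blk.2 (Or.inr (Or.inr ⟨r, rfl, by unfold iF; omega⟩))
      simp only [shf, ρ']
      rw [if_pos h1]
      congr 1
      omega
    rw [sat_and]
    constructor
    · refine (hφ _ _ _ _ hρ'1 (by rw [hρ'2 _ _ (hw20 rfl), updR_same])).2 ?_
      exact (Lst.congr w (L0 := blk V 0) (fun p hp => hp) (fun τ τ' h => Phi.congr τ τ' h) _ _ hagr).2 hL
    · refine (hι hN 𝔅 𝔄' h𝔄1 h𝔄2 _ _ (cds_shf.1 (h𝔄4.congr hagr))).2 h

end Pool.Agent.H17.CF.PE
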