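import Pool.Agent.H17.CF.E.Syn

/-!
# MP_9b819f_lc, part E, job E4: relativization

For a `V`-formula `φ` there is a `V'`-formula `φ'` (which does not use the symbols of `V'`) that says in a universe `A`:
'`φ` holds in the structure coded by the variables `(1, o)`, `(aR r, iR V o r)`, `(aF f + 1, iF V o f)`'.
The own element variable `x` of `φ` becomes `2 * x`, the odd element variables are auxiliary; the own
second-order variable `(n, i)` becomes `(n, K + i)`.

TERMS. Define `flT : Tm V → ℕ → ℕ → Fo V'` by structural recursion (`flT t y k` says that the value of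
`t` is the value of the variable `2 * y + 1`; auxiliary variables `2 * j + 1` with `j ≥ k`):
* `flT (.var x) y k = .eq (.var (2 * x)) (.var (2 * y + 1))`
* `flT (.app f ts) y k = fexL (List.ofFn fun i : Fin (V.aF f) => 2 * (k + i) + 1) (fand (fbig fun i => flT (ts i)
  (k + i) (k + V.aF f)) (fand (.app 1 o (fun _ => .var (2 * y + 1))) (.app (V.aF f + 1) (iF V o f) (Fin.snoc
  (fun i => .var (2 * (k + i) + 1)) (.var (2 * y + 1))))))`.
Lemma: if `y < k`, `t.closed xs`, `v (2 * x) = inc h (v0 x)` for `x ∈ xs` and `Cds o 𝔄 h ρ` then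
`SatF (flT t y k) v ρ ↔ v (2 * y + 1) = inc h (t.val 𝔄.F v0)`. Induction on `t` (all of `y k v` general), `sat_exL`: the
values `v' (2 * (k + i) + 1)` are `inc h ((ts i).val ..)` by the induction hypothesis (`k + i < k + aF f`, `v'` agrees
with `v` on the even variables and on `2 * y + 1`); then `Cds.P`: `v (2 * y + 1) = inc h y0` and `Cds.F` for `w = Fin.snoc
(fun i => (ts i).val ..) y0`, `inc h ∘ Fin.snoc a b = Fin.snoc (inc h ∘ a) (inc h b)`. Conversely define `v'`.

FORMULAS. Recursion: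
* `.bot ↦ .bot`
* `.eq s t ↦ fexL [1, 3] (fand (flT s 0 2) (fand (flT t 1 2) (.eq (.var 1) (.var 3))))`
* `.rel r ts ↦ fexL (List.ofFn fun i => 2 * i + 1) (fand (fbig fun i => flT (ts i) i (V.aR r)) (.app (V.aR r)
  (iR V o r) (fun i => .var (2 * i + 1))))`, the same for `.app n i ts` with the variable `(n, K + i)`
* `.imp ↦ .imp`
* `.all x φ ↦ .all (2 * x) (.imp (.app 1 o (fun _ => .var (2 * x))) φ')`
* `.allR n i φ ↦ .allR n (K + i) φ'`.
Meaning: induction on `φ` (all of `xs Xs v ρ v0 ρ0` general). `.all x`: elements `d` of `A` in `(1, o)` are `inc h d0`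
(`Cds.P`). `.allR n i`: for `X` in `Frm N A n` the trace `{w | inc h ∘ w ∈ X}` is in `Frm N 𝔄.A n` with the same code `z`;
conversely for `X0` in `Frm N 𝔄.A n` with code `z` take `X = {w | tup (fun j => (w j).1) ∈ z}`. `Cds` is preserved by
`Cds.congr` and `blk_le` (indices below `K`), `updR_ne`.
-/

set_option autoImplicit false
set_option linter.unusedVariables false
set_option linter.unusedSectionVars false
set_option linter.unusedSimpArgs false

open Pool.Agent.H17.Omega Pool.Agent.H17.Omega.CTM Pool.Agent.H52.GC Pool.Agent.H7.IG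

namespace Pool.Agent.H17.CF.PE

variable {N : Set ZFSet.{0}}

/-- Flattened term equation. -/
def flT (V V' : Voc) (o : ℕ) : Tm V → ℕ → ℕ → Fo V'
  | .var x, y, _ => .eq (.var (2 * x)) (.var (2 * y + 1))
  | .app f ts, y, k => fexL (List.ofFn fun i : Fin (V.aF f) => 2 * (k + (i : ℕ)) + 1)
      (fand (fbig fun i => flT V V' o (ts i) (k + (i : ℕ)) (k + V.aF f))
        (fand (.app 1 o (fun _ => .var (2 * y + 1)))
          (.app (V.aF f + 1) (iF V o f)
            (Fin.snoc (α := fun _ => Tm V') (fun i => .var (2 * (k + (i : ℕ)) + 1)) (.var (2 * y + 1))))))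

/-- Change a block of odd variables. -/
def vblk {D : Type 1} (v : ℕ → D) (k n : ℕ) (a : Fin n → D) (x : ℕ) : D :=
  if h : x % 2 = 1 ∧ k ≤ x / 2 ∧ x / 2 - k < n then a ⟨x / 2 - k, h.2.2⟩ else v x

theorem vblk_in {D : Type 1} (v : ℕ → D) (k n : ℕ) (a : Fin n → D) (i : Fin n) :
    vblk v k n a (2 * (k + (i : ℕ)) + 1) = a i := by
  unfold vblk
  have h1 : (2 * (k + (i : ℕ)) + 1) / 2 = k + i := by omega
  have h2 : (2 * (k + (i : ℕ)) + 1) % 2 = 1 ∧ k ≤ (2 * (k + (i : ℕ)) + 1) / 2 ∧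
      (2 * (k + (i : ℕ)) + 1) / 2 - k < n := by
    rw [h1]
    refine ⟨by omega, by omega, ?_⟩
    have := i.2
    omega
  rw [dif_pos h2]
  congr 1
  apply Fin.ext
  show (2 * (k + (i : ℕ)) + 1) / 2 - k = i
  omega

theorem vblk_even {D : Type 1} (v : ℕ → D) (k n : ℕ) (a : Fin n → D) (x : ℕ) :
    vblk v k n a (2 * x) = v (2 * x) := by
  unfold vblk
  rw [dif_neg]
  rintro ⟨h, _⟩
  omega

theorem vblk_lt {D : Type 1} (v : ℕ → D) (k n : ℕ) (a : Fin n → D) (y : ℕ) (hy : y < k) :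
    vblk v k n a (2 * y + 1) = v (2 * y + 1) := by
  unfold vblk
  rw [dif_neg]
  rintro ⟨_, h, _⟩
  omega

theorem vblk_out {D : Type 1} (v : ℕ → D) (k n : ℕ) (a : Fin n → D) (x : ℕ)
    (hx : x ∉ List.ofFn fun i : Fin n => 2 * (k + (i : ℕ)) + 1) : vblk v k n a x = v x := by
  unfold vblk
  rw [dif_neg]
  rintro ⟨h1, h2, h3⟩
  apply hx
  rw [List.mem_ofFn']
  refine ⟨⟨x / 2 - k, h3⟩, ?_⟩
  show 2 * (k + (x / 2 - k)) + 1 = x
  omega

theorem ofFn_even {k n x : ℕ} : 2 * x ∉ List.ofFn fun i : Fin n => 2 * (k + (i : ℕ)) + 1 := by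
  rw [List.mem_ofFn']
  rintro ⟨i, hi⟩
  have hi' : 2 * (k + (i : ℕ)) + 1 = 2 * x := hi
  omega

theorem ofFn_lt {k n y : ℕ} (hy : y < k) : 2 * y + 1 ∉ List.ofFn fun i : Fin n => 2 * (k + (i : ℕ)) + 1 := by
  rw [List.mem_ofFn']
  rintro ⟨i, hi⟩
  have hi' : 2 * (k + (i : ℕ)) + 1 = 2 * y + 1 := hi
  omega

theorem inc_inj {P A : ZFSet.{0}} (h : P ⊆ A) {x y : El P} (hxy : inc h x = inc h y) : x = y := by
  have h1 := congrArg Subtype.val hxy
  exact Subtype.ext h1

section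

variable {V V' : Voc} {o : ℕ} {A : ZFSet.{0}} {𝔄 : Str N V} {h : 𝔄.A ⊆ A}
  {𝓕 : (n : ℕ) → Set (Set (Fin n → El A))}
  {R' : (r : Fin V'.nR) → Set (Fin (V'.aR r) → El A)}
  {F' : (f : Fin V'.nF) → (Fin (V'.aF f) → El A) → El A} {ρ : Asg (El A)} {v0 : ℕ → El 𝔄.A} {xs : List ℕ}

theorem flT_sat (hc : Cds o 𝔄 h ρ) (t : Tm V) : ∀ (y k : ℕ) (v : ℕ → El A), y < k → t.closed xs →
    (∀ x ∈ xs, v (2 * x) = inc h (v0 x)) →
    (SatF 𝓕 R' F' (flT V V' o t y k) v ρ ↔ v (2 * y + 1) = inc h (t.val 𝔄.F v0)) := by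
  induction t with
  | var x =>
    intro y k v hy hcl hv
    have hx : x ∈ xs := hcl
    simp only [flT, sat_eq, val_var]
    rw [hv x hx]
    exact eq_comm
  | app f ts ih =>
    intro y k v hy hcl hv
    have hcl' : ∀ i, (ts i).closed xs := hcl
    simp only [flT, sat_exL, sat_and, sat_big, sat_app, val_var, val_app]
    -- evaluation of the block
    have key : ∀ v' : ℕ → El A, (∀ x, x ∉ (List.ofFn fun i : Fin (V.aF f) => 2 * (k + (i : ℕ)) + 1) → v' x = v x) →
        ((∀ i : Fin (V.aF f), SatF 𝓕 R' F' (flT V V' o (ts i) (k + (i : ℕ)) (k + V.aF f)) v' ρ) ↔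
          ∀ i : Fin (V.aF f), v' (2 * (k + (i : ℕ)) + 1) = inc h ((ts i).val 𝔄.F v0)) := by
      intro v' hv'
      refine forall_congr' fun i => ?_
      refine ih i (k + i) (k + V.aF f) v' (by have := i.2; omega) (hcl' i) ?_
      intro x hx
      rw [hv' _ ofFn_even]; exact hv x hx
    constructor
    · rintro ⟨v', hv', h1, h2, h3⟩
      have h1' := (key v' hv').1 h1
      have hP := (hc.P _).1 h2
      let y0 : El 𝔄.A := ⟨(v' (2 * y + 1)).1, hP⟩
      have hy0 : inc h y0 = v' (2 * y + 1) := rfl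
      have h4 : (fun j => ((Fin.snoc (α := fun _ => Tm V') (fun i : Fin (V.aF f) => .var (2 * (k + (i : ℕ)) + 1))
          (.var (2 * y + 1)) : Fin (V.aF f + 1) → Tm V') j).val F' v') =
          fun j => inc h ((Fin.snoc (α := fun _ => El 𝔄.A) (fun i : Fin (V.aF f) => (ts i).val 𝔄.F v0) y0 :
            Fin (V.aF f + 1) → El 𝔄.A) j) := by
        funext j
        refine Fin.lastCases ?_ (fun i => ?_) j
        · rw [Fin.snoc_last, Fin.snoc_last]; exact hy0.symm
        · rw [Fin.snoc_castSucc, Fin.snoc_castSucc]; exact h1' i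
      rw [h4] at h3
      have h5 := (hc.F f _).1 h3
      have h6 : y0 = 𝔄.F f (fun i => (ts i).val 𝔄.F v0) := by
        have h7 : (Fin.snoc (α := fun _ => El 𝔄.A) (fun i : Fin (V.aF f) => (ts i).val 𝔄.F v0) y0 :
            Fin (V.aF f + 1) → El 𝔄.A) (Fin.last _) = 𝔄.F f (fun i =>
            (Fin.snoc (α := fun _ => El 𝔄.A) (fun i : Fin (V.aF f) => (ts i).val 𝔄.F v0) y0 :
            Fin (V.aF f + 1) → El 𝔄.A) i.castSucc) := h5
        rw [Fin.snoc_last] at h7
        rw [h7]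
        congr 1
        funext i
        rw [Fin.snoc_castSucc]
      rw [← h6, hy0, hv' _ (ofFn_lt hy)]
    · intro hy1
      refine ⟨vblk v k (V.aF f) (fun i => inc h ((ts i).val 𝔄.F v0)), fun x hx => vblk_out _ _ _ _ _ hx,
        ?_, ?_, ?_⟩
      · exact (key _ (fun x hx => vblk_out _ _ _ _ _ hx)).2 (fun i => vblk_in _ _ _ _ i)
      · rw [vblk_lt _ _ _ _ _ hy, hy1]
        exact (hc.P _).2 (𝔄.F f (fun i => (ts i).val 𝔄.F v0)).2
      · have h4 : (fun j => ((Fin.snoc (α := fun _ => Tm V') (fun i : Fin (V.aF f) => .var (2 * (k + (i : ℕ)) + 1))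
          (.var (2 * y + 1)) : Fin (V.aF f + 1) → Tm V') j).val F'
            (vblk v k (V.aF f) (fun i => inc h ((ts i).val 𝔄.F v0)))) =
          fun j => inc h ((Fin.snoc (α := fun _ => El 𝔄.A) (fun i : Fin (V.aF f) => (ts i).val 𝔄.F v0)
            (𝔄.F f (fun i => (ts i).val 𝔄.F v0)) : Fin (V.aF f + 1) → El 𝔄.A) j) := by
          funext j
          refine Fin.lastCases ?_ (fun i => ?_) j
          · rw [Fin.snoc_last, Fin.snoc_last, val_var, vblk_lt _ _ _ _ _ hy]; exact hy1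
          · rw [Fin.snoc_castSucc, Fin.snoc_castSucc, val_var, vblk_in]
        rw [h4]
        refine (hc.F f _).2 ?_
        show (Fin.snoc (α := fun _ => El 𝔄.A) (fun i : Fin (V.aF f) => (ts i).val 𝔄.F v0)
            (𝔄.F f (fun i => (ts i).val 𝔄.F v0)) : Fin (V.aF f + 1) → El 𝔄.A) (Fin.last _) = 𝔄.F f (fun i =>
            (Fin.snoc (α := fun _ => El 𝔄.A) (fun i : Fin (V.aF f) => (ts i).val 𝔄.F v0)
              (𝔄.F f (fun i => (ts i).val 𝔄.F v0)) : Fin (V.aF f + 1) → El 𝔄.A) i.castSucc)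
        rw [Fin.snoc_last]
        congr 1
        funext i
        rw [Fin.snoc_castSucc]

theorem fl_block (hc : Cds o 𝔄 h ρ) {n : ℕ} (I : ℕ) (ts : Fin n → Tm V) (v : ℕ → El A)
    (hcl : ∀ i, (ts i).closed xs) (hv : ∀ x ∈ xs, v (2 * x) = inc h (v0 x)) :
    SatF 𝓕 R' F' (fexL (List.ofFn fun i : Fin n => 2 * (0 + (i : ℕ)) + 1)
      (fand (fbig fun i => flT V V' o (ts i) (0 + (i : ℕ)) n)
        (.app n I (fun i => .var (2 * (0 + (i : ℕ)) + 1))))) v ρ ↔
      (fun i => inc h ((ts i).val 𝔄.F v0)) ∈ ρ n I := by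
  simp only [sat_exL, sat_and, sat_big, sat_app, val_var]
  have key : ∀ v' : ℕ → El A, (∀ x, x ∉ (List.ofFn fun i : Fin n => 2 * (0 + (i : ℕ)) + 1) → v' x = v x) →
      ((∀ i : Fin n, SatF 𝓕 R' F' (flT V V' o (ts i) (0 + (i : ℕ)) n) v' ρ) ↔
        ∀ i : Fin n, v' (2 * (0 + (i : ℕ)) + 1) = inc h ((ts i).val 𝔄.F v0)) := by
    intro v' hv'
    refine forall_congr' fun i => ?_
    refine flT_sat hc (ts i) (0 + i) n v' (by have := i.2; omega) (hcl i) ?_
    intro x hx
    rw [hv' _ ofFn_even]; exact hv x hx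
  constructor
  · rintro ⟨v', hv', h1, h2⟩
    have h1' := (key v' hv').1 h1
    have h3 : (fun i : Fin n => v' (2 * (0 + (i : ℕ)) + 1)) = fun i => inc h ((ts i).val 𝔄.F v0) := funext h1'
    rw [← h3]; exact h2
  · intro h1
    refine ⟨vblk v 0 n (fun i => inc h ((ts i).val 𝔄.F v0)), fun x hx => vblk_out _ _ _ _ _ hx,
      (key _ (fun x hx => vblk_out _ _ _ _ _ hx)).2 (fun i => vblk_in _ _ _ _ i), ?_⟩
    have h3 : (fun i : Fin n => vblk v 0 n (fun i => inc h ((ts i).val 𝔄.F v0)) (2 * (0 + (i : ℕ)) + 1)) =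
        fun i => inc h ((ts i).val 𝔄.F v0) := funext fun i => vblk_in _ _ _ _ i
    rw [h3]; exact h1

end

/-- The relativized formula. -/
def flF (V V' : Voc) (o K : ℕ) : Fo V → Fo V'
  | .bot => .bot
  | .eq s t => fexL [1, 3] (fand (flT V V' o s 0 2) (fand (flT V V' o t 1 2) (.eq (.var 1) (.var 3))))
  | .rel r ts => fexL (List.ofFn fun i : Fin (V.aR r) => 2 * (0 + (i : ℕ)) + 1)
      (fand (fbig fun i => flT V V' o (ts i) (0 + (i : ℕ)) (V.aR r))
        (.app (V.aR r) (iR V o r) (fun i => .var (2 * (0 + (i : ℕ)) + 1))))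
  | .app n i ts => fexL (List.ofFn fun i : Fin n => 2 * (0 + (i : ℕ)) + 1)
      (fand (fbig fun i => flT V V' o (ts i) (0 + (i : ℕ)) n)
        (.app n (K + i) (fun i => .var (2 * (0 + (i : ℕ)) + 1))))
  | .imp φ ψ => .imp (flF V V' o K φ) (flF V V' o K ψ)
  | .all x φ => .all (2 * x) (.imp (.app 1 o (fun _ => .var (2 * x))) (flF V V' o K φ))
  | .allR n i φ => .allR n (K + i) (flF V V' o K φ)

/-- Relativization. -/
theorem exists_rel (V V' : Voc) (o K : ℕ) (hK : o + 1 + V.nR + V.nF ≤ K) (φ : Fo V) : ∃ φ' : Fo V',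
    ∀ {N : Set ZFSet.{0}} {A : ZFSet.{0}} (R' : (r : Fin V'.nR) → Set (Fin (V'.aR r) → El A))
      (F' : (f : Fin V'.nF) → (Fin (V'.aF f) → El A) → El A) (𝔄 : Str N V) (h : 𝔄.A ⊆ A)
      (xs : List ℕ) (Xs : List (ℕ × ℕ)), φ.closed xs Xs →
      ∀ (v : ℕ → El A) (ρ : Asg (El A)) (v0 : ℕ → El 𝔄.A) (ρ0 : Asg (El 𝔄.A)), Cds o 𝔄 h ρ →
        (∀ x ∈ xs, v (2 * x) = inc h (v0 x)) →
        (∀ n i, (n, i) ∈ Xs → ∀ w : Fin n → El 𝔄.A, (fun j => inc h (w j)) ∈ ρ n (K + i) ↔ w ∈ ρ0 n i) →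
        (SatF (Frm N A) R' F' φ' v ρ ↔ SatF (Frm N 𝔄.A) 𝔄.R 𝔄.F φ v0 ρ0) := by
  refine ⟨flF V V' o K φ, ?_⟩
  intro N A R' F' 𝔄 h
  induction φ with
  | bot => intro xs Xs _ v ρ v0 ρ0 _ _ _; exact Iff.rfl
  | eq s t =>
    intro xs Xs hcl v ρ v0 ρ0 hc hv hX
    have hcl' : s.closed xs ∧ t.closed xs := hcl
    simp only [flF, sat_exL, sat_and, sat_eq, val_var]
    have k1 : ∀ v' : ℕ → El A, (∀ x, x ∉ [1, 3] → v' x = v x) → ∀ x ∈ xs, v' (2 * x) = inc h (v0 x) := by
      intro v' hv' x hx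
      rw [hv' _ (by simp; omega)]; exact hv x hx
    constructor
    · rintro ⟨v', hv', h1, h2, h3⟩
      have h1' := (flT_sat hc s 0 2 v' (by omega) hcl'.1 (k1 v' hv')).1 h1
      have h2' := (flT_sat hc t 1 2 v' (by omega) hcl'.2 (k1 v' hv')).1 h2
      apply inc_inj h
      rw [← h1', ← h2']
      exact h3
    · intro h1
      let v' : ℕ → El A := Function.update (Function.update v 1 (inc h (s.val 𝔄.F v0))) 3 (inc h (t.val 𝔄.F v0))
      have hv1 : v' 1 = inc h (s.val 𝔄.F v0) := by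
        show Function.update (Function.update v 1 (inc h (s.val 𝔄.F v0))) 3 (inc h (t.val 𝔄.F v0)) 1 = _
        rw [Function.update_of_ne (by omega), Function.update_self]
      have hv3 : v' 3 = inc h (t.val 𝔄.F v0) := by
        show Function.update (Function.update v 1 (inc h (s.val 𝔄.F v0))) 3 (inc h (t.val 𝔄.F v0)) 3 = _
        rw [Function.update_self]
      have hv' : ∀ x, x ∉ [1, 3] → v' x = v x := by
        intro x hx
        have hx1 : x ≠ 1 := by rintro rfl; exact hx (by simp)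
        have hx3 : x ≠ 3 := by rintro rfl; exact hx (by simp)
        show Function.update (Function.update v 1 (inc h (s.val 𝔄.F v0))) 3 (inc h (t.val 𝔄.F v0)) x = _
        rw [Function.update_of_ne hx3, Function.update_of_ne hx1]
      refine ⟨v', hv', (flT_sat hc s 0 2 v' (by omega) hcl'.1 (k1 v' hv')).2 hv1,
        (flT_sat hc t 1 2 v' (by omega) hcl'.2 (k1 v' hv')).2 hv3, ?_⟩
      rw [hv1, hv3, h1]
  | rel r ts =>
    intro xs Xs hcl v ρ v0 ρ0 hc hv hX
    have hcl' : ∀ i, (ts i).closed xs := hcl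
    simp only [flF]
    rw [fl_block (v0 := v0) hc (iR V o r) ts v hcl' hv, hc.R, sat_rel]
  | app n i ts =>
    intro xs Xs hcl v ρ v0 ρ0 hc hv hX
    have hcl' : (n, i) ∈ Xs ∧ ∀ j, (ts j).closed xs := hcl
    simp only [flF]
    rw [fl_block (v0 := v0) hc (K + i) ts v hcl'.2 hv, hX n i hcl'.1, sat_app]
  | imp φ ψ ih1 ih2 =>
    intro xs Xs hcl v ρ v0 ρ0 hc hv hX
    have hcl' : φ.closed xs Xs ∧ ψ.closed xs Xs := hcl
    simp only [flF, sat_imp]
    rw [ih1 xs Xs hcl'.1 v ρ v0 ρ0 hc hv hX, ih2 xs Xs hcl'.2 v ρ v0 ρ0 hc hv hX]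
  | all x φ ih =>
    intro xs Xs hcl v ρ v0 ρ0 hc hv hX
    have hcl' : φ.closed (x :: xs) Xs := hcl
    simp only [flF, sat_all, sat_imp, sat_app, val_var, Function.update_self]
    have key : ∀ d0 : El 𝔄.A, (SatF (Frm N A) R' F' (flF V V' o K φ) (Function.update v (2 * x) (inc h d0)) ρ ↔
        SatF (Frm N 𝔄.A) 𝔄.R 𝔄.F φ (Function.update v0 x d0) ρ0) := by
      intro d0
      refine ih (x :: xs) Xs hcl' _ ρ _ ρ0 hc ?_ hX
      intro z hz
      by_cases hzx : z = x
      · subst hzx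
        rw [Function.update_self, Function.update_self]
      · rw [Function.update_of_ne (by omega), Function.update_of_ne hzx]
        rcases List.mem_cons.1 hz with h1 | h1
        · exact (hzx h1).elim
        · exact hv z h1
    constructor
    · intro h1 d0
      exact (key d0).1 (h1 (inc h d0) ((hc.P _).2 d0.2))
    · intro h1 d hd
      have hd' := (hc.P _).1 hd
      have h2 := (key ⟨d.1, hd'⟩).2 (h1 _)
      exact h2
  | allR n i φ ih =>
    intro xs Xs hcl v ρ v0 ρ0 hc hv hX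
    have hcl' : φ.closed xs ((n, i) :: Xs) := hcl
    simp only [flF, sat_allR]
    have key : ∀ (X : Set (Fin n → El A)) (X0 : Set (Fin n → El 𝔄.A)),
        (∀ w : Fin n → El 𝔄.A, (fun j => inc h (w j)) ∈ X ↔ w ∈ X0) →
        (SatF (Frm N A) R' F' (flF V V' o K φ) v (updR ρ n (K + i) X) ↔
          SatF (Frm N 𝔄.A) 𝔄.R 𝔄.F φ v0 (updR ρ0 n i X0)) := by
      intro X X0 hXX
      refine ih xs ((n, i) :: Xs) hcl' v _ v0 _ (hc.congr ?_) hv ?_
      · intro m j hmj
        refine updR_ne _ _ ?_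
        intro he
        rw [Prod.mk.injEq] at he
        have := (blk_le hmj).2
        omega
      · intro m j hmj w
        by_cases he : (m, j) = (n, i)
        · rw [Prod.mk.injEq] at he
          obtain ⟨rfl, rfl⟩ := he
          rw [updR_same, updR_same]; exact hXX w
        · rw [updR_ne _ _ he, updR_ne]
          · rcases List.mem_cons.1 hmj with h1 | h1
            · exact (he h1).elim
            · exact hX m j h1 w
          · intro he'
            apply he
            rw [Prod.mk.injEq] at he' ⊢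
            exact ⟨he'.1, by omega⟩
    constructor
    · intro h1 X0 hX0
      obtain ⟨z, hz, hz'⟩ := hX0
      refine (key {w : Fin n → El A | tup (fun j => (w j).1) ∈ z} X0 ?_).1 (h1 _ ⟨z, hz, fun w => Iff.rfl⟩)
      intro w
      exact (hz' w).symm
    · intro h1 X hX1
      obtain ⟨z, hz, hz'⟩ := hX1
      refine (key X {w : Fin n → El 𝔄.A | (fun j => inc h (w j)) ∈ X} (fun w => Iff.rfl)).2 (h1 _ ⟨z, hz, ?_⟩)
      intro w
      exact hz' (fun j => inc h (w j))

end Pool.Agent.H17.CF.PE
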