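import Pool.Agent.H17.CF.E.Cl
import Pool.Agent.H17.CF.E.Rel

/-!
# MP_9b819f_lc, part E: the coded structure is a model of `T`
-/

set_option autoImplicit false
set_option linter.unusedVariables false
set_option linter.unusedSectionVars false
set_option linter.unusedSimpArgs false

open Pool.Agent.H17.Omega Pool.Agent.H17.Omega.CTM Pool.Agent.H52.GC Pool.Agent.H7.IG

namespace Pool.Agent.H17.CF.PE

variable {N : Set ZFSet.{0}}

/-- 'The coded structure is a model of `T`'. -/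
theorem exists_relT (hN : CTM N) (V V' : Voc) (o : ℕ) (T : List (Fo V)) (hT : ∀ φ ∈ T, Sentence φ) :
    ∃ φ' : Fo V', ∀ {A : ZFSet.{0}} (R' : (r : Fin V'.nR) → Set (Fin (V'.aR r) → El A))
      (F' : (f : Fin V'.nF) → (Fin (V'.aF f) → El A) → El A) (𝔄 : Str N V) (h : 𝔄.A ⊆ A) (v : ℕ → El A)
      (ρ : Asg (El A)), Cds o 𝔄 h ρ → (SatF (Frm N A) R' F' φ' v ρ ↔ Models 𝔄 T) := by
  have hex : ∀ φ : Fo V, ∃ φ' : Fo V', Sentence φ →
      ∀ {A : ZFSet.{0}} (R' : (r : Fin V'.nR) → Set (Fin (V'.aR r) → El A))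
      (F' : (f : Fin V'.nF) → (Fin (V'.aF f) → El A) → El A) (𝔄 : Str N V) (h : 𝔄.A ⊆ A) (v : ℕ → El A)
      (ρ : Asg (El A)), Cds o 𝔄 h ρ → (SatF (Frm N A) R' F' φ' v ρ ↔ Holds 𝔄 φ) := by
    intro φ
    obtain ⟨φ', hφ'⟩ := exists_rel V V' o (o + 1 + V.nR + V.nF) le_rfl φ
    refine ⟨φ', fun hφ A R' F' 𝔄 h v ρ hc => ?_⟩
    obtain ⟨x0, hx0⟩ := 𝔄.ne
    have h1 := hφ' (N := N) R' F' 𝔄 h [] [] hφ v ρ (fun _ => ⟨x0, hx0⟩) (fun n i => ∅) hc (by simp) (by simp)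
    rw [h1, holds_iff_sat hN hφ]
  choose g hg using hex
  refine ⟨fconj (T.map g), fun {A} R' F' 𝔄 h v ρ hc => ?_⟩
  rw [sat_conj]
  constructor
  · intro h1 φ hφ
    exact (hg φ (hT φ hφ) R' F' 𝔄 h v ρ hc).1 (h1 _ (List.mem_map_of_mem hφ))
  · intro h1 ψ hψ
    obtain ⟨φ, hφ, rfl⟩ := List.mem_map.1 hψ
    exact (hg φ (hT φ hφ) R' F' 𝔄 h v ρ hc).2 (h1 φ hφ)

end Pool.Agent.H17.CF.PE
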