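import Pool.Agent.H17.CF.Iface

/-!
# MP_9b819f_lc, part E: building formulas

Connectives and (block) quantifiers with their meaning. The block quantifiers range over lists of variables;
their meaning is cast free: 'for all assignments `v'` which agree with `v` outside the list'.
-/

set_option autoImplicit false
set_option linter.unusedVariables false
set_option linter.unusedSectionVars false
set_option linter.unusedSimpArgs false

open Pool.Agent.H17.Omega Pool.Agent.H17.Omega.CTM Pool.Agent.H52.GC Pool.Agent.H7.IG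

namespace Pool.Agent.H17.CF.PE

/-- Assignments of the second-order variables. -/
abbrev Asg (D : Type 1) : Type 1 := (n : ℕ) → ℕ → Set (Fin n → D)

/-- All values of the assignment belong to `N`. -/
def AN (N : Set ZFSet.{0}) {A : ZFSet.{0}} (ρ : Asg (El A)) : Prop := ∀ n i, InN N (ρ n i)

variable {V : Voc}

/-- Negation. -/
def fneg (φ : Fo V) : Fo V := .imp φ .bot
/-- Conjunction. -/
def fand (φ ψ : Fo V) : Fo V := fneg (.imp φ (fneg ψ))
/-- Disjunction. -/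
def foor (φ ψ : Fo V) : Fo V := .imp (fneg φ) ψ
/-- Equivalence. -/
def fiff (φ ψ : Fo V) : Fo V := fand (.imp φ ψ) (.imp ψ φ)
/-- Existential quantifier. -/
def fex (x : ℕ) (φ : Fo V) : Fo V := fneg (.all x (fneg φ))
/-- Second-order existential quantifier. -/
def fexR (n i : ℕ) (φ : Fo V) : Fo V := fneg (.allR n i (fneg φ))
/-- Truth. -/
def ftru : Fo V := .imp .bot .bot
/-- Conjunction of a list. -/
def fconj : List (Fo V) → Fo V
  | [] => ftru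
  | φ :: l => fand φ (fconj l)
/-- Finite conjunction. -/
def fbig {m : ℕ} (f : Fin m → Fo V) : Fo V := fconj (List.ofFn f)
/-- Block of universal quantifiers. -/
def fallL : List ℕ → Fo V → Fo V
  | [], φ => φ
  | x :: l, φ => .all x (fallL l φ)
/-- Block of existential quantifiers. -/
def fexL (l : List ℕ) (φ : Fo V) : Fo V := fneg (fallL l (fneg φ))
/-- Block of second-order universal quantifiers. -/
def fallRL : List (ℕ × ℕ) → Fo V → Fo V
  | [], φ => φ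
  | p :: l, φ => .allR p.1 p.2 (fallRL l φ)
/-- Block of second-order existential quantifiers. -/
def fexRL (l : List (ℕ × ℕ)) (φ : Fo V) : Fo V := fneg (fallRL l (fneg φ))

section upd

variable {D : Type 1}

theorem updR_same (ρ : Asg D) (n i : ℕ) (X : Set (Fin n → D)) : updR ρ n i X n i = X := by
  simp [updR]

theorem updR_ne (ρ : Asg D) {n i m j : ℕ} (X : Set (Fin n → D)) (h : (m, j) ≠ (n, i)) :
    updR ρ n i X m j = ρ m j := by
  unfold updR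
  by_cases hm : m = n
  · subst hm
    rw [Function.update_self, Function.update_of_ne]
    rintro rfl
    exact h rfl
  · rw [Function.update_of_ne hm]

theorem updR_self (ρ : Asg D) (n i : ℕ) : updR ρ n i (ρ n i) = ρ := by
  simp [updR]

theorem updR_an {N : Set ZFSet.{0}} {A : ZFSet.{0}} {ρ : Asg (El A)} (h : AN N ρ) {n i : ℕ}
    {X : Set (Fin n → El A)} (hX : InN N X) : AN N (updR ρ n i X) := by
  intro m j
  by_cases hm : (m, j) = (n, i)
  · rw [Prod.mk.injEq] at hm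
    obtain ⟨rfl, rfl⟩ := hm
    rw [updR_same]; exact hX
  · rw [updR_ne _ _ hm]; exact h m j

end upd

section sat

variable {D : Type 1} {𝓕 : (n : ℕ) → Set (Set (Fin n → D))} {R : (r : Fin V.nR) → Set (Fin (V.aR r) → D)}
  {F : (f : Fin V.nF) → (Fin (V.aF f) → D) → D} {v : ℕ → D} {ρ : Asg D} {φ ψ : Fo V}

@[simp] theorem sat_bot : SatF 𝓕 R F .bot v ρ ↔ False := Iff.rfl

@[simp] theorem sat_eq {s t : Tm V} : SatF 𝓕 R F (.eq s t) v ρ ↔ s.val F v = t.val F v := Iff.rfl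

@[simp] theorem sat_rel {r : Fin V.nR} {ts : Fin (V.aR r) → Tm V} :
    SatF 𝓕 R F (.rel r ts) v ρ ↔ (fun i => (ts i).val F v) ∈ R r := Iff.rfl

@[simp] theorem sat_app {n i : ℕ} {ts : Fin n → Tm V} :
    SatF 𝓕 R F (.app n i ts) v ρ ↔ (fun j => (ts j).val F v) ∈ ρ n i := Iff.rfl

@[simp] theorem sat_imp : SatF 𝓕 R F (.imp φ ψ) v ρ ↔ (SatF 𝓕 R F φ v ρ → SatF 𝓕 R F ψ v ρ) := Iff.rfl

@[simp] theorem sat_all {x : ℕ} : SatF 𝓕 R F (.all x φ) v ρ ↔ ∀ d, SatF 𝓕 R F φ (Function.update v x d) ρ :=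
  Iff.rfl

@[simp] theorem sat_allR {n i : ℕ} : SatF 𝓕 R F (.allR n i φ) v ρ ↔ ∀ X ∈ 𝓕 n, SatF 𝓕 R F φ v (updR ρ n i X) :=
  Iff.rfl

@[simp] theorem sat_neg : SatF 𝓕 R F (fneg φ) v ρ ↔ ¬ SatF 𝓕 R F φ v ρ := Iff.rfl

@[simp] theorem sat_and : SatF 𝓕 R F (fand φ ψ) v ρ ↔ SatF 𝓕 R F φ v ρ ∧ SatF 𝓕 R F ψ v ρ := by
  simp only [fand, sat_neg, sat_imp]; tauto

@[simp] theorem sat_or : SatF 𝓕 R F (foor φ ψ) v ρ ↔ SatF 𝓕 R F φ v ρ ∨ SatF 𝓕 R F ψ v ρ := by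
  simp only [foor, sat_neg, sat_imp]; tauto

@[simp] theorem sat_iff : SatF 𝓕 R F (fiff φ ψ) v ρ ↔ (SatF 𝓕 R F φ v ρ ↔ SatF 𝓕 R F ψ v ρ) := by
  simp only [fiff, sat_and, sat_imp]; tauto

@[simp] theorem sat_ex {x : ℕ} : SatF 𝓕 R F (fex x φ) v ρ ↔ ∃ d, SatF 𝓕 R F φ (Function.update v x d) ρ := by
  simp only [fex, sat_neg, sat_all]; push Not; rfl

@[simp] theorem sat_exR {n i : ℕ} : SatF 𝓕 R F (fexR n i φ) v ρ ↔ ∃ X ∈ 𝓕 n, SatF 𝓕 R F φ v (updR ρ n i X) := by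
  simp only [fexR, sat_neg, sat_allR]; push Not; rfl

@[simp] theorem sat_tru : SatF 𝓕 R F (ftru : Fo V) v ρ ↔ True := by simp [ftru]

theorem sat_conj {l : List (Fo V)} : SatF 𝓕 R F (fconj l) v ρ ↔ ∀ φ ∈ l, SatF 𝓕 R F φ v ρ := by
  induction l with
  | nil => simp [fconj]
  | cons φ l ih => simp [fconj, ih]

@[simp] theorem sat_big {m : ℕ} {f : Fin m → Fo V} : SatF 𝓕 R F (fbig f) v ρ ↔ ∀ i, SatF 𝓕 R F (f i) v ρ := by
  rw [fbig, sat_conj]
  constructor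
  · intro h i; exact h _ ((List.mem_ofFn' f (f i)).2 ⟨i, rfl⟩)
  · intro h ψ hψ
    obtain ⟨i, rfl⟩ := (List.mem_ofFn' f ψ).1 hψ
    exact h i

theorem sat_allL {l : List ℕ} : ∀ {v : ℕ → D}, SatF 𝓕 R F (fallL l φ) v ρ ↔
    ∀ v' : ℕ → D, (∀ x, x ∉ l → v' x = v x) → SatF 𝓕 R F φ v' ρ := by
  induction l with
  | nil =>
    intro v
    simp only [fallL, List.not_mem_nil, not_false_eq_true, true_imp_iff]
    constructor
    · intro h v' hv'; rw [funext hv']; exact h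
    · intro h; exact h v fun x => rfl
  | cons y l ih =>
    intro v
    simp only [fallL, sat_all, ih]
    constructor
    · intro h v' hv'
      refine h (v' y) v' fun x hx => ?_
      by_cases hxy : x = y
      · subst hxy; rw [Function.update_self]
      · rw [Function.update_of_ne hxy]
        exact hv' x fun h => (List.mem_cons.1 h).elim hxy hx
    · intro h d v' hv'
      refine h v' fun x hx => ?_
      rw [hv' x fun h => hx (List.mem_cons_of_mem _ h), Function.update_of_ne]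
      rintro rfl
      exact hx List.mem_cons_self

theorem sat_exL {l : List ℕ} : SatF 𝓕 R F (fexL l φ) v ρ ↔
    ∃ v' : ℕ → D, (∀ x, x ∉ l → v' x = v x) ∧ SatF 𝓕 R F φ v' ρ := by
  simp only [fexL, sat_neg, sat_allL]; push Not; rfl

theorem sat_allRL {l : List (ℕ × ℕ)} : ∀ {ρ : Asg D}, (∀ n i, ρ n i ∈ 𝓕 n) → (SatF 𝓕 R F (fallRL l φ) v ρ ↔
    ∀ ρ' : Asg D, (∀ n i, ρ' n i ∈ 𝓕 n) → (∀ n i, (n, i) ∉ l → ρ' n i = ρ n i) → SatF 𝓕 R F φ v ρ') := by
  induction l with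
  | nil =>
    intro ρ hρ
    simp only [fallRL, List.not_mem_nil, not_false_eq_true, true_imp_iff]
    constructor
    · intro h ρ' _ hρ'
      have : ρ' = ρ := by funext n i; exact hρ' n i
      rw [this]; exact h
    · intro h; exact h ρ hρ fun n i => rfl
  | cons p l ih =>
    intro ρ hρ
    obtain ⟨m, j⟩ := p
    have hu : ∀ X ∈ 𝓕 m, ∀ n i, updR ρ m j X n i ∈ 𝓕 n := by
      intro X hX n i
      by_cases h : (n, i) = (m, j)
      · rw [Prod.mk.injEq] at h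
        obtain ⟨rfl, rfl⟩ := h
        rw [updR_same]; exact hX
      · rw [updR_ne _ _ h]; exact hρ n i
    simp only [fallRL, sat_allR]
    constructor
    · intro h ρ' h1 h2
      refine (ih (hu _ (h1 m j))).1 (h (ρ' m j) (h1 m j)) ρ' h1 fun n i hni => ?_
      by_cases h3 : (n, i) = (m, j)
      · rw [Prod.mk.injEq] at h3
        obtain ⟨rfl, rfl⟩ := h3
        rw [updR_same]
      · rw [updR_ne _ _ h3]
        exact h2 n i fun h4 => (List.mem_cons.1 h4).elim h3 hni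
    · intro h X hX
      refine (ih (hu X hX)).2 fun ρ' h1 h2 => h ρ' h1 fun n i hni => ?_
      rw [h2 n i fun h => hni (List.mem_cons_of_mem _ h), updR_ne]
      intro h3
      exact hni (h3 ▸ List.mem_cons_self)

theorem sat_exRL {l : List (ℕ × ℕ)} (hρ : ∀ n i, ρ n i ∈ 𝓕 n) : SatF 𝓕 R F (fexRL l φ) v ρ ↔
    ∃ ρ' : Asg D, (∀ n i, ρ' n i ∈ 𝓕 n) ∧ (∀ n i, (n, i) ∉ l → ρ' n i = ρ n i) ∧ SatF 𝓕 R F φ v ρ' := by
  simp only [fexRL, sat_neg, sat_allRL hρ]; push Not; rfl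

end sat

@[simp] theorem val_var {D : Type 1} {F : (f : Fin V.nF) → (Fin (V.aF f) → D) → D} {v : ℕ → D} {x : ℕ} :
    (Tm.var x : Tm V).val F v = v x := rfl

@[simp] theorem val_app {D : Type 1} {F : (f : Fin V.nF) → (Fin (V.aF f) → D) → D} {v : ℕ → D} {f : Fin V.nF}
    {ts : Fin (V.aF f) → Tm V} : (Tm.app f ts : Tm V).val F v = F f (fun i => (ts i).val F v) := rfl

theorem mem_Frm {N : Set ZFSet.{0}} {A : ZFSet.{0}} {n : ℕ} {X : Set (Fin n → El A)} :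
    X ∈ Frm N A n ↔ InN N X := Iff.rfl

/-! ### Coded structures -/

/-- Inclusion. -/
def inc {P A : ZFSet.{0}} (h : P ⊆ A) (x : El P) : El A := ⟨x.1, h x.2⟩

/-- Index of the variable for the relation symbol `r`. -/
def iR (V : Voc) (o : ℕ) (r : Fin V.nR) : ℕ := o + 1 + r
/-- Index of the variable for the graph of the function symbol `f`. -/
def iF (V : Voc) (o : ℕ) (f : Fin V.nF) : ℕ := o + 1 + V.nR + f

/-- The second-order variables which code a structure, at offset `o`: universe, relations, graphs. -/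
def blk (V : Voc) (o : ℕ) : List (ℕ × ℕ) :=
  (1, o) :: (List.ofFn (fun r : Fin V.nR => (V.aR r, iR V o r)) ++
    List.ofFn (fun f : Fin V.nF => (V.aF f + 1, iF V o f)))

theorem mem_blk {o n i : ℕ} : (n, i) ∈ blk V o ↔ (n = 1 ∧ i = o) ∨ (∃ r : Fin V.nR, n = V.aR r ∧ i = iR V o r) ∨
    ∃ f : Fin V.nF, n = V.aF f + 1 ∧ i = iF V o f := by
  simp only [blk, List.mem_cons, List.mem_append, List.mem_ofFn', Set.mem_range, Prod.mk.injEq]
  constructor
  · rintro (h | ⟨r, h1, h2⟩ | ⟨r, h1, h2⟩)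
    · exact Or.inl h
    · exact Or.inr (Or.inl ⟨r, h1.symm, h2.symm⟩)
    · exact Or.inr (Or.inr ⟨r, h1.symm, h2.symm⟩)
  · rintro (h | ⟨r, h1, h2⟩ | ⟨r, h1, h2⟩)
    · exact Or.inl h
    · exact Or.inr (Or.inl ⟨r, h1.symm, h2.symm⟩)
    · exact Or.inr (Or.inr ⟨r, h1.symm, h2.symm⟩)

theorem blk_le {o n i : ℕ} (h : (n, i) ∈ blk V o) : o ≤ i ∧ i < o + 1 + V.nR + V.nF := by
  rcases mem_blk.1 h with ⟨_, rfl⟩ | ⟨r, _, rfl⟩ | ⟨f, _, rfl⟩
  · omega
  · have := r.2; unfold iR; omega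
  · have := f.2; unfold iF; omega

/-- The variables at offset `o` code the structure `𝔄` (only the traces on the universe of `𝔄` matter). -/
structure Cds {N : Set ZFSet.{0}} {V : Voc} (o : ℕ) (𝔄 : Str N V) {A : ZFSet.{0}} (h : 𝔄.A ⊆ A)
    (ρ : Asg (El A)) : Prop where
  P : ∀ x : El A, (fun _ => x) ∈ ρ 1 o ↔ x.1 ∈ 𝔄.A
  R : ∀ (r : Fin V.nR) (w : Fin (V.aR r) → El 𝔄.A),
    (fun i => inc h (w i)) ∈ ρ (V.aR r) (iR V o r) ↔ w ∈ 𝔄.R r
  F : ∀ (f : Fin V.nF) (w : Fin (V.aF f + 1) → El 𝔄.A),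
    (fun i => inc h (w i)) ∈ ρ (V.aF f + 1) (iF V o f) ↔ w ∈ grF (𝔄.F f)

/-- The variables at offset `o` code some structure. -/
structure Good (V : Voc) (o : ℕ) {A : ZFSet.{0}} (ρ : Asg (El A)) : Prop where
  ne : ∃ x : El A, (fun _ => x) ∈ ρ 1 o
  fn : ∀ (f : Fin V.nF) (w : Fin (V.aF f) → El A), (∀ i, (fun _ => w i) ∈ ρ 1 o) →
    ∃ y : El A, (fun _ => y) ∈ ρ 1 o ∧ ∀ y' : El A, (fun _ => y') ∈ ρ 1 o →
      ((Fin.snoc (α := fun _ => El A) w y' : Fin (V.aF f + 1) → El A) ∈ ρ (V.aF f + 1) (iF V o f) ↔ y' = y)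

theorem Cds.congr {N : Set ZFSet.{0}} {o : ℕ} {𝔄 : Str N V} {A : ZFSet.{0}} {h : 𝔄.A ⊆ A} {ρ ρ' : Asg (El A)}
    (hc : Cds o 𝔄 h ρ) (he : ∀ n i, (n, i) ∈ blk V o → ρ' n i = ρ n i) : Cds o 𝔄 h ρ' := by
  refine ⟨fun x => ?_, fun r w => ?_, fun f w => ?_⟩
  · rw [he _ _ (mem_blk.2 (Or.inl ⟨rfl, rfl⟩))]; exact hc.P x
  · rw [he _ _ (mem_blk.2 (Or.inr (Or.inl ⟨r, rfl, rfl⟩)))]; exact hc.R r w
  · rw [he _ _ (mem_blk.2 (Or.inr (Or.inr ⟨f, rfl, rfl⟩)))]; exact hc.F f w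

/-- Shift of the second-order variables. -/
def shf {D : Type 1} (o : ℕ) (ρ : Asg D) : Asg D := fun n i => ρ n (o + i)

theorem shf_an {N : Set ZFSet.{0}} {A : ZFSet.{0}} {ρ : Asg (El A)} (h : AN N ρ) (o : ℕ) : AN N (shf o ρ) :=
  fun n i => h n (o + i)

theorem cds_shf {N : Set ZFSet.{0}} {o : ℕ} {𝔄 : Str N V} {A : ZFSet.{0}} {h : 𝔄.A ⊆ A} {ρ : Asg (El A)} :
    Cds 0 𝔄 h (shf o ρ) ↔ Cds o 𝔄 h ρ := by
  have e1 : ∀ r : Fin V.nR, o + iR V 0 r = iR V o r := fun r => by unfold iR; omega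
  have e2 : ∀ f : Fin V.nF, o + iF V 0 f = iF V o f := fun f => by unfold iF; omega
  constructor
  · rintro ⟨h1, h2, h3⟩
    refine ⟨h1, fun r w => ?_, fun f w => ?_⟩
    · rw [← h2 r w, shf, e1]
    · rw [← h3 f w, shf, e2]
  · rintro ⟨h1, h2, h3⟩
    refine ⟨h1, fun r w => ?_, fun f w => ?_⟩
    · rw [← h2 r w, shf, e1]
    · rw [← h3 f w, shf, e2]

/-! ### Definability over `κ` -/

/-- An element of a set of the model, as an element of the model. -/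
def el {N : Set ZFSet.{0}} (hN : CTM N) {A : ZFSet.{0}} (hA : A ∈ N) (x : El A) : N :=
  ⟨x.1, hN.mem_of_mem hA x.2⟩

/-- The order of `κ`. -/
def Ek (κ : Ordinal.{0}) : Set (Fin 2 → El κ.toZFSet) := {w | (w 0).1 ∈ (w 1).1}

/-- Definable in the vocabulary `V`, over the universe `κ`, when `(2, 0)` is the order of `κ`. -/
def DfK (N : Set ZFSet.{0}) (κ : Ordinal.{0}) (V : Voc) (P : Asg (El κ.toZFSet) → Prop) : Prop :=
  ∃ φ : Fo V, ∀ (R : (r : Fin V.nR) → Set (Fin (V.aR r) → El κ.toZFSet))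
    (F : (f : Fin V.nF) → (Fin (V.aF f) → El κ.toZFSet) → El κ.toZFSet) (v : ℕ → El κ.toZFSet)
    (ρ : Asg (El κ.toZFSet)), AN N ρ → ρ 2 0 = Ek κ → (SatF (Frm N κ.toZFSet) R F φ v ρ ↔ P ρ)

/-- The least tuple (lexicographically, in the order of the list of variables) which satisfies `Φ`. -/
def Lst {N : Set ZFSet.{0}} {κ : Ordinal.{0}} (w : WoAt N κ) : List (ℕ × ℕ) → (Asg (El κ.toZFSet) → Prop) →
    Asg (El κ.toZFSet) → Prop
  | [], Φ, τ => Φ τ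
  | p :: L, Φ, τ => Lst w L (fun τ => Φ τ ∧ ∀ τ' : Asg (El κ.toZFSet), AN N τ' → Φ τ' →
      w.W p.1 (τ p.1 p.2) (τ' p.1 p.2)) τ

/-- The properties of the order of a cardinal. -/
structure WO (N : Set ZFSet.{0}) {A : ZFSet.{0}} (E : Set (Fin 2 → El A)) : Prop where
  irr : ∀ x : El A, ![x, x] ∉ E
  tr : ∀ x y z : El A, ![x, y] ∈ E → ![y, z] ∈ E → ![x, z] ∈ E
  tot : ∀ x y : El A, x ≠ y → ![x, y] ∈ E ∨ ![y, x] ∈ E
  wf : ∀ X : Set (Fin 1 → El A), InN N X → X.Nonempty → ∃ x ∈ X, ∀ y ∈ X, ![y 0, x 0] ∉ E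
  card : ∀ a : El A, ¬ ∃ G : Set (Fin 2 → El A), InN N G ∧
    (∀ x y y' : El A, ![x, y] ∈ G → ![x, y'] ∈ G → y = y') ∧ ∀ y : El A, ∃ x : El A, ![x, a] ∈ E ∧ ![x, y] ∈ G

/-- Transport of relations along a bijection. -/
def trR {A B : ZFSet.{0}} (f : El A ≃ El B) {n : ℕ} (X : Set (Fin n → El A)) : Set (Fin n → El B) :=
  {w | (fun i => f.symm (w i)) ∈ X}

/-- Models of `T` with universe `κ`, as coded by tuples. -/
def Phi {N : Set ZFSet.{0}} (κ : Ordinal.{0}) {V : Voc} (T : List (Fo V)) (τ : Asg (El κ.toZFSet)) : Prop :=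
  ∃ 𝔄 : Str N V, ∃ h : 𝔄.A ⊆ κ.toZFSet, κ.toZFSet ⊆ 𝔄.A ∧ Models 𝔄 T ∧ Cds 0 𝔄 h τ

end Pool.Agent.H17.CF.PE
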